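import Mathlib

/-! The Fourier series of `t (1 - t)`. -/

namespace Pool.Agent.H318.Br

open Finset

lemma hasSum_cos_sq {t : ℝ} (ht : t ∈ Set.Icc (0 : ℝ) 1) :
    HasSum (fun n : ℕ => 1 / (n : ℝ) ^ 2 * Real.cos (2 * Real.pi * n * t))
      (Real.pi ^ 2 * (t ^ 2 - t + 1 / 6)) := by
  have h := hasSum_one_div_nat_pow_mul_cos one_ne_zero ht
  have e : (Polynomial.map (algebraMap ℚ ℝ) (Polynomial.bernoulli (2 * 1))).eval t =
      t ^ 2 - t + 1 / 6 := by
    simp_rw [Polynomial.bernoulli, Polynomial.map_sum, Polynomial.map_monomial,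
      Polynomial.eval_finsetSum, Polynomial.eval_monomial, sum_range_succ, sum_range_zero]
    rw [bernoulli_one, bernoulli_eq_bernoulli'_of_ne_one zero_ne_one, bernoulli'_zero,
      bernoulli_eq_bernoulli'_of_ne_one (by decide : 2 ≠ 1), bernoulli'_two]
    norm_num [Nat.choose]
    ring
  rw [e] at h
  have e2 : ((-1 : ℝ) ^ (1 + 1) * (2 * Real.pi) ^ (2 * 1) / 2 / ((2 * 1).factorial : ℝ) *
      (t ^ 2 - t + 1 / 6)) = Real.pi ^ 2 * (t ^ 2 - t + 1 / 6) := by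
    have h2 : ((2 * 1).factorial : ℝ) = 2 := by norm_num [Nat.factorial]
    rw [h2]
    ring
  rw [e2] at h
  simpa using h

lemma hasSum_one_sub_cos {t : ℝ} (ht : t ∈ Set.Icc (0 : ℝ) 1) :
    HasSum (fun n : ℕ => 1 / (n : ℝ) ^ 2 * (1 - Real.cos (2 * Real.pi * n * t)))
      (Real.pi ^ 2 * (t * (1 - t))) := by
  have h := hasSum_zeta_two.sub (hasSum_cos_sq ht)
  have e : Real.pi ^ 2 / 6 - Real.pi ^ 2 * (t ^ 2 - t + 1 / 6) = Real.pi ^ 2 * (t * (1 - t)) := by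
    ring
  rw [e] at h
  refine h.congr_fun ?_
  intro n
  ring

/-- `(-1)^n cos (2 π n x)` -/
noncomputable def cn (n : ℕ) (x : ℝ) : ℝ := (-1) ^ n * Real.cos (2 * Real.pi * n * x)

lemma cn_le (n : ℕ) (x : ℝ) : cn n x ≤ 1 := by
  unfold cn
  refine (le_abs_self _).trans ?_
  rw [abs_mul, abs_pow, abs_neg, abs_one, one_pow, one_mul]
  exact Real.abs_cos_le_one _

lemma cn_eq (n : ℕ) (x : ℝ) : Real.cos (2 * Real.pi * n * (x + 1 / 2)) = cn n x := by
  unfold cn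
  rw [← Real.cos_add_nat_mul_pi]
  congr 1
  ring

/-- partial sums of the series -/
lemma partial_le {x : ℝ} (hx : |x| ≤ 1 / 2) (M : ℕ) :
    ∑ n ∈ range M, 1 / ((n : ℝ) + 1) ^ 2 * (1 - cn (n + 1) x) ≤ Real.pi ^ 2 * (1 / 4 - x ^ 2) := by
  have hx' := abs_le.mp hx
  have h := hasSum_one_sub_cos (t := x + 1 / 2) ⟨by linarith, by linarith⟩
  have h2 := sum_le_hasSum (range (M + 1)) (fun n _ => by
    have := Real.cos_le_one (2 * Real.pi * n * (x + 1 / 2))
    have h3 : (0 : ℝ) ≤ 1 / (n : ℝ) ^ 2 := by positivity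
    exact mul_nonneg h3 (by linarith)) h
  rw [sum_range_succ'] at h2
  have e : Real.pi ^ 2 * ((x + 1 / 2) * (1 - (x + 1 / 2))) = Real.pi ^ 2 * (1 / 4 - x ^ 2) := by ring
  rw [e] at h2
  refine le_trans (le_of_eq ?_) h2
  simp only [Nat.cast_zero, mul_zero, zero_mul, Real.cos_zero, sub_self, add_zero]
  refine sum_congr rfl fun n _ => ?_
  rw [cn_eq]
  push_cast
  ring

/-- `∑ 1 / n^2` up to `M` -/
noncomputable def HM (M : ℕ) : ℝ := ∑ n ∈ range M, 1 / ((n : ℝ) + 1) ^ 2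

lemma HM_nonneg (M : ℕ) : 0 ≤ HM M := sum_nonneg fun _ _ => by positivity

lemma HM_tendsto : Filter.Tendsto HM Filter.atTop (nhds (Real.pi ^ 2 / 6)) := by
  have h := hasSum_zeta_two
  have h2 := (hasSum_nat_add_iff' 1).mpr h
  simp only [range_one, sum_singleton, Nat.cast_zero, ne_eq, OfNat.ofNat_ne_zero,
    not_false_eq_true, zero_pow, div_zero, sub_zero] at h2
  have h3 := h2.tendsto_sum_nat
  refine h3.congr fun M => ?_
  unfold HM
  refine sum_congr rfl fun n _ => ?_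
  push_cast
  rfl

end Pool.Agent.H318.Br
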