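import Mathlib

/-! A kernel-checkable certificate for lower bounds of cosine polynomials on `[0, π/3]`. -/

namespace Pool.Agent.H318.Br

open Finset

/-- evaluate `z` before continuing with it -/
def force {α : Type} (z : ℤ) (h : ℤ → α) : α :=
  match z with
  | Int.ofNat 0 => h (Int.ofNat 0)
  | Int.ofNat (Nat.succ n) => h (Int.ofNat (Nat.succ n))
  | Int.negSucc 0 => h (Int.negSucc 0)
  | Int.negSucc (Nat.succ n) => h (Int.negSucc (Nat.succ n))

lemma force_eq {α : Type} (z : ℤ) (h : ℤ → α) : force z h = h z := by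
  rcases z with (_ | n) | (_ | n) <;> rfl

/-- Horner evaluation along the Chebyshev recurrence -/
def evalAux (a Q2 Q : ℤ) : List ℤ → ℤ → ℤ → ℤ → ℤ
  | [], _, _, acc => acc
  | v :: vs, tp, t, acc =>
    force (acc * Q + v * t) fun acc' =>
      force (2 * a * t - Q2 * tp) fun t' => evalAux a Q2 Q vs t t' acc'

/-- the cosine sum `∑ v_i cos ((j + i) θ)` -/
noncomputable def csum (θ : ℝ) : ℕ → List ℤ → ℝ
  | _, [] => 0
  | j, v :: vs => v * Real.cos (j * θ) + csum θ (j + 1) vs

lemma evalAux_eq (a Q : ℤ) (θ : ℝ) (hQ : (Q : ℝ) * Real.cos θ = a) (vs : List ℤ) :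
    ∀ (i : ℕ) (tp t acc : ℤ) (S : ℝ), (tp : ℝ) = (Q : ℝ) ^ i * Real.cos (i * θ) →
      (t : ℝ) = (Q : ℝ) ^ (i + 1) * Real.cos ((i + 1 : ℕ) * θ) →
      (acc : ℝ) = (Q : ℝ) ^ i * S →
      ((evalAux a (Q * Q) Q vs tp t acc : ℤ) : ℝ) =
        (Q : ℝ) ^ (i + vs.length) * (S + csum θ (i + 1) vs) := by
  induction vs with
  | nil =>
    intro i tp t acc S _ _ h
    simp [evalAux, csum, h]
  | cons v vs ih =>
    intro i tp t acc S h1 h2 h3
    rw [evalAux, force_eq, force_eq]
    rw [ih (i + 1) t (2 * a * t - Q * Q * tp) (acc * Q + v * t) (S + v * Real.cos ((i + 1 : ℕ) * θ))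
      h2 ?_ ?_]
    · simp only [csum, List.length_cons]
      rw [show i + 1 + vs.length = i + (vs.length + 1) by ring]
      ring
    · push_cast
      rw [h1, h2, ← hQ]
      have hc : Real.cos ((i + 1 + 1 : ℝ) * θ) =
          2 * Real.cos θ * Real.cos ((i + 1 : ℝ) * θ) - Real.cos (i * θ) := by
        have e1 : (i + 1 + 1 : ℝ) * θ = (i + 1 : ℝ) * θ + θ := by ring
        have e2 : (i : ℝ) * θ = (i + 1 : ℝ) * θ - θ := by ring
        rw [e1, e2, Real.cos_add, Real.cos_sub]
        ring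
      rw [hc]
      push_cast
      ring
    · push_cast
      rw [h2, h3]
      push_cast
      ring

lemma convexOn_sq_add (s : ℝ) (hs : |s| ≤ 1) :
    ConvexOn ℝ Set.univ (fun x : ℝ => x ^ 2 / 2 + s * Real.cos x) := by
  have hd : ∀ x : ℝ, HasDerivAt (fun x : ℝ => x ^ 2 / 2 + s * Real.cos x) (x - s * Real.sin x) x := by
    intro x
    have h1 : HasDerivAt (fun x : ℝ => x ^ 2 / 2) x x := by
      have h := (hasDerivAt_pow 2 x).div_const 2
      have e : ((2 : ℕ) : ℝ) * x ^ (2 - 1) / 2 = x := by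
        norm_num
      rwa [e] at h
    have h2 := (Real.hasDerivAt_cos x).const_mul s
    have h3 := h1.add h2
    have e : x + s * -Real.sin x = x - s * Real.sin x := by ring
    rwa [e] at h3
  have hdiff : Differentiable ℝ (fun x : ℝ => x ^ 2 / 2 + s * Real.cos x) :=
    fun x => (hd x).differentiableAt
  have hder : deriv (fun x : ℝ => x ^ 2 / 2 + s * Real.cos x) = fun x => x - s * Real.sin x :=
    funext fun x => (hd x).deriv
  refine Monotone.convexOn_univ_of_deriv hdiff ?_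
  rw [hder]
  intro x y hxy
  have h3 : |Real.sin y - Real.sin x| ≤ |y - x| := by
    have := Real.abs_sin_sub_sin_le y x
    exact this
  have h4 : s * (Real.sin y - Real.sin x) ≤ y - x := by
    calc s * (Real.sin y - Real.sin x) ≤ |s * (Real.sin y - Real.sin x)| := le_abs_self _
      _ = |s| * |Real.sin y - Real.sin x| := abs_mul _ _
      _ ≤ 1 * |y - x| := by gcongr
      _ = y - x := by rw [one_mul, abs_of_nonneg (by linarith)]
  simp only
  linarith

lemma cos_interp (a b t : ℝ) (ht0 : 0 ≤ t) (ht1 : t ≤ 1) :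
    |Real.cos ((1 - t) * a + t * b) - ((1 - t) * Real.cos a + t * Real.cos b)| ≤
      t * (1 - t) * (b - a) ^ 2 / 2 := by
  have h1 := (convexOn_sq_add 1 (by simp)).2 (Set.mem_univ a) (Set.mem_univ b)
    (show 0 ≤ 1 - t by linarith) ht0 (by ring)
  have h2 := (convexOn_sq_add (-1) (by simp)).2 (Set.mem_univ a) (Set.mem_univ b)
    (show 0 ≤ 1 - t by linarith) ht0 (by ring)
  simp only [smul_eq_mul] at h1 h2
  rw [abs_le]
  constructor <;> nlinarith

/-- `∑ |v_i| (j + i)^2` -/
def m2sum : ℕ → List ℤ → ℤ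
  | _, [] => 0
  | j, v :: vs => |v| * (j : ℤ) ^ 2 + m2sum (j + 1) vs

lemma m2sum_nonneg (vs : List ℤ) : ∀ j, 0 ≤ m2sum j vs := by
  induction vs with
  | nil => intro j; simp [m2sum]
  | cons v vs ih =>
    intro j
    rw [m2sum]
    have := ih (j + 1)
    positivity

lemma csum_interp (a b t : ℝ) (ht0 : 0 ≤ t) (ht1 : t ≤ 1) (vs : List ℤ) : ∀ j : ℕ,
    (1 - t) * csum a j vs + t * csum b j vs - m2sum j vs * (t * (1 - t) * (b - a) ^ 2 / 2) ≤
      csum ((1 - t) * a + t * b) j vs := by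
  induction vs with
  | nil => intro j; simp [csum, m2sum]
  | cons v vs ih =>
    intro j
    have h1 := ih (j + 1)
    have h2 := cos_interp (j * a) (j * b) t ht0 ht1
    have e1 : (1 - t) * (j * a) + t * (j * b) = j * ((1 - t) * a + t * b) := by ring
    have e2 : t * (1 - t) * (j * b - j * a) ^ 2 / 2 = (j : ℝ) ^ 2 * (t * (1 - t) * (b - a) ^ 2 / 2) := by
      ring
    rw [e1, e2] at h2
    have h3 : -(|(v : ℝ)| * ((j : ℝ) ^ 2 * (t * (1 - t) * (b - a) ^ 2 / 2))) ≤
        v * (Real.cos (j * ((1 - t) * a + t * b)) -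
          ((1 - t) * Real.cos (j * a) + t * Real.cos (j * b))) := by
      refine le_trans ?_ (neg_abs_le _)
      rw [abs_mul]
      have := mul_le_mul_of_nonneg_left h2 (abs_nonneg (v : ℝ))
      linarith
    simp only [csum, m2sum]
    push_cast
    linarith

lemma csum_interp' (a b x : ℝ) (hax : a ≤ x) (hxb : x ≤ b) (vs : List ℤ) (j : ℕ) (m : ℝ)
    (ha : m ≤ csum a j vs) (hb : m ≤ csum b j vs) :
    m - m2sum j vs * ((b - a) ^ 2 / 8) ≤ csum x j vs := by
  have hM : (0 : ℝ) ≤ m2sum j vs := by exact_mod_cast m2sum_nonneg vs j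
  rcases eq_or_lt_of_le (hax.trans hxb) with h | h
  · have hx : x = a := by linarith
    rw [hx]
    have : 0 ≤ (m2sum j vs : ℝ) * ((b - a) ^ 2 / 8) := by positivity
    linarith
  · have hba : 0 < b - a := by linarith
    set t := (x - a) / (b - a) with ht
    have ht0 : 0 ≤ t := div_nonneg (by linarith) hba.le
    have ht1 : t ≤ 1 := by rw [ht, div_le_one hba]; linarith
    have hx : (1 - t) * a + t * b = x := by
      have : t * (b - a) = x - a := by rw [ht, div_mul_cancel₀ _ hba.ne']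
      linarith
    have h1 := csum_interp a b t ht0 ht1 vs j
    rw [hx] at h1
    have h2 : m ≤ (1 - t) * csum a j vs + t * csum b j vs := by
      nlinarith
    have h3 : (m2sum j vs : ℝ) * (t * (1 - t) * (b - a) ^ 2 / 2) ≤
        m2sum j vs * ((b - a) ^ 2 / 8) := by
      apply mul_le_mul_of_nonneg_left _ hM
      have : t * (1 - t) ≤ 1 / 4 := by nlinarith [sq_nonneg (t - 1 / 2)]
      have h5 : 0 ≤ (b - a) ^ 2 := sq_nonneg _
      nlinarith
    linarith

/-- the certificate check -/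
def check (vs : List ℤ) (c0 Q Q2 QJ c1 mg M98 : ℤ) : List (ℤ × ℤ) → ℤ → ℤ → Bool
  | [], a, _ => decide (2 * a < Q)
  | (b, K) :: l, a, G =>
    force (evalAux b Q2 Q vs 1 b c0) fun G' =>
      decide (0 ≤ b ∧ b ≤ a ∧
        (Q2 - K - a * b ≤ 0 ∨
          (Q2 - K - a * b) * (Q2 - K - a * b) ≤ (Q2 - a * a) * (Q2 - b * b)) ∧
        QJ * (mg * c1 + M98 * K) ≤ c1 * G ∧ QJ * (mg * c1 + M98 * K) ≤ c1 * G') &&
      check vs c0 Q Q2 QJ c1 mg M98 l b G'

lemma spacing (a b K Q : ℤ) (hQ : 0 < Q) (hb : 0 ≤ b) (hba : b ≤ a) (haQ : a ≤ Q)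
    (h : Q * Q - K - a * b ≤ 0 ∨
      (Q * Q - K - a * b) * (Q * Q - K - a * b) ≤ (Q * Q - a * a) * (Q * Q - b * b)) :
    (Real.arccos ((b : ℝ) / Q) - Real.arccos ((a : ℝ) / Q)) ^ 2 ≤
      Real.pi ^ 2 / 2 * (K / (Q * Q)) := by
  have hQ' : (0 : ℝ) < Q := by exact_mod_cast hQ
  have hb' : (0 : ℝ) ≤ b := by exact_mod_cast hb
  have hba' : (b : ℝ) ≤ a := by exact_mod_cast hba
  have haQ' : (a : ℝ) ≤ Q := by exact_mod_cast haQ
  have ha0 : (0 : ℝ) ≤ a := hb'.trans hba'
  have ha1 : (a : ℝ) / Q ≤ 1 := by rw [div_le_one hQ']; exact haQ'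
  have hb1 : (b : ℝ) / Q ≤ 1 := by rw [div_le_one hQ']; exact hba'.trans haQ'
  have ha2 : (0 : ℝ) ≤ (a : ℝ) / Q := by positivity
  have hb2 : (0 : ℝ) ≤ (b : ℝ) / Q := by positivity
  set α := Real.arccos ((a : ℝ) / Q) with hα
  set β := Real.arccos ((b : ℝ) / Q) with hβ
  have hcα : Real.cos α = a / Q := Real.cos_arccos (by linarith) ha1
  have hcβ : Real.cos β = b / Q := Real.cos_arccos (by linarith) hb1
  have hα0 : 0 ≤ α := Real.arccos_nonneg _
  have hβ0 : 0 ≤ β := Real.arccos_nonneg _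
  have hαp : α ≤ Real.pi := Real.arccos_le_pi _
  have hβp : β ≤ Real.pi := Real.arccos_le_pi _
  have hsα : 0 ≤ Real.sin α := Real.sin_nonneg_of_nonneg_of_le_pi hα0 hαp
  have hsβ : 0 ≤ Real.sin β := Real.sin_nonneg_of_nonneg_of_le_pi hβ0 hβp
  have hcos : 1 - (K : ℝ) / (Q * Q) ≤ Real.cos (β - α) := by
    rw [Real.cos_sub, hcα, hcβ]
    have key : (Q : ℝ) * Q - K - a * b ≤ Q * Q * (Real.sin β * Real.sin α) := by
      rcases h with h | h
      · have h' : (Q : ℝ) * Q - K - a * b ≤ 0 := by exact_mod_cast h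
        have : 0 ≤ (Q : ℝ) * Q * (Real.sin β * Real.sin α) := by positivity
        linarith
      · have h' : ((Q : ℝ) * Q - K - a * b) * (Q * Q - K - a * b) ≤
            (Q * Q - a * a) * (Q * Q - b * b) := by exact_mod_cast h
        have e1 : (Q : ℝ) * Q - a * a = Q * Q * Real.sin α ^ 2 := by
          rw [Real.sin_sq, hcα]
          field_simp
        have e2 : (Q : ℝ) * Q - b * b = Q * Q * Real.sin β ^ 2 := by
          rw [Real.sin_sq, hcβ]
          field_simp
        rw [e1, e2] at h'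
        refine le_of_abs_le (abs_le_of_sq_le_sq ?_ (by positivity))
        linarith
    have e3 : b / Q * (a / Q) + Real.sin β * Real.sin α =
        (a * b + Q * Q * (Real.sin β * Real.sin α)) / (Q * Q : ℝ) := by
      field_simp
    rw [e3, le_div_iff₀ (by positivity), sub_mul, div_mul_cancel₀ _ (by positivity)]
    linarith
  have hab : |β - α| ≤ Real.pi := by
    rw [abs_le]; constructor <;> linarith
  have h5 := Real.cos_le_one_sub_mul_cos_sq hab
  have h6 : 2 / Real.pi ^ 2 * (β - α) ^ 2 ≤ (K : ℝ) / (Q * Q) := by linarith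
  have hpi : 0 < Real.pi ^ 2 := by positivity
  calc (β - α) ^ 2 = Real.pi ^ 2 / 2 * (2 / Real.pi ^ 2 * (β - α) ^ 2) := by
        field_simp
    _ ≤ _ := by gcongr

lemma check_sound (vs : List ℤ) (c0 Q QJ mg : ℤ) (hQ : 0 < Q) (hQJ : QJ = Q ^ vs.length) :
    ∀ (l : List (ℤ × ℤ)) (a G : ℤ),
      check vs c0 Q (Q * Q) QJ (160000 * (Q * Q)) mg (98697 * m2sum 1 vs) l a G = true →
      0 ≤ a → a ≤ Q →
      (G : ℝ) = (Q : ℝ) ^ vs.length * (c0 + csum (Real.arccos ((a : ℝ) / Q)) 1 vs) →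
      ∀ θ, Real.arccos ((a : ℝ) / Q) ≤ θ → θ ≤ Real.pi / 3 →
        (mg : ℝ) ≤ c0 + csum θ 1 vs := by
  intro l
  induction l with
  | nil =>
    intro a G h ha haQ hG θ h1 h2
    exfalso
    simp only [check, decide_eq_true_eq] at h
    have hQ' : (0 : ℝ) < Q := by exact_mod_cast hQ
    have h3 : (a : ℝ) / Q < 1 / 2 := by
      rw [div_lt_div_iff₀ hQ' two_pos]
      have : 2 * (a : ℝ) < Q := by exact_mod_cast h
      linarith
    have h4 : Real.arccos (1 / 2) < Real.arccos ((a : ℝ) / Q) := by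
      apply Real.strictAntiOn_arccos _ _ h3
      · constructor
        · have : (0 : ℝ) ≤ (a : ℝ) / Q := div_nonneg (by exact_mod_cast ha) hQ'.le
          linarith
        · linarith
      · constructor <;> norm_num
    have h5 : Real.arccos (1 / 2) = Real.pi / 3 := by
      rw [← Real.cos_pi_div_three, Real.arccos_cos (by positivity) (by linarith [Real.pi_pos])]
    linarith
  | cons p l ih =>
    obtain ⟨b, K⟩ := p
    intro a G h ha haQ hG θ h1 h2
    rw [check, force_eq, Bool.and_eq_true, decide_eq_true_eq] at h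
    obtain ⟨⟨hb, hba, hK, hG1, hG2⟩, hrest⟩ := h
    have hQ' : (0 : ℝ) < Q := by exact_mod_cast hQ
    have hbQ : b ≤ Q := hba.trans haQ
    have hb' : (0 : ℝ) ≤ b := by exact_mod_cast hb
    have hbQ' : (b : ℝ) ≤ Q := by exact_mod_cast hbQ
    set α := Real.arccos ((a : ℝ) / Q) with hα
    set β := Real.arccos ((b : ℝ) / Q) with hβ
    have hcβ : Real.cos β = b / Q := by
      apply Real.cos_arccos
      · have : (0 : ℝ) ≤ (b : ℝ) / Q := by positivity
        linarith
      · rw [div_le_one hQ']; exact hbQ'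
    have hGβ : ((evalAux b (Q * Q) Q vs 1 b c0 : ℤ) : ℝ) =
        (Q : ℝ) ^ vs.length * (c0 + csum β 1 vs) := by
      have := evalAux_eq b Q β (by rw [hcβ]; field_simp) vs 0 1 b c0 c0 (by simp)
        (by simp [hcβ]; field_simp) (by simp)
      simpa using this
    by_cases hθ : θ ≤ β
    · have hsp := spacing a b K Q hQ hb hba haQ hK
      have hQJ' : (0 : ℝ) < (Q : ℝ) ^ vs.length := by positivity
      have hc1 : (0 : ℝ) < 160000 * ((Q : ℝ) * Q) := by positivity
      have hM : (0 : ℝ) ≤ m2sum 1 vs := by exact_mod_cast m2sum_nonneg vs 1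
      have hK0 : (0 : ℝ) ≤ (K : ℝ) / (Q * Q) := by
        have hp : 0 < Real.pi ^ 2 / 2 := by positivity
        by_contra hc
        push Not at hc
        have : Real.pi ^ 2 / 2 * ((K : ℝ) / (Q * Q)) < 0 := mul_neg_of_pos_of_neg hp hc
        have h7 := sq_nonneg (β - α)
        linarith
      -- values at the nodes
      have hv : ∀ (γ : ℝ) (H : ℤ), (H : ℝ) = (Q : ℝ) ^ vs.length * (c0 + csum γ 1 vs) →
          QJ * (mg * (160000 * (Q * Q)) + 98697 * m2sum 1 vs * K) ≤ 160000 * (Q * Q) * H →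
          (mg : ℝ) - c0 + 98697 / 160000 * m2sum 1 vs * (K / (Q * Q)) ≤ csum γ 1 vs := by
        intro γ H hH hle
        rw [hQJ] at hle
        have h8 : (Q : ℝ) ^ vs.length * (mg * (160000 * (Q * Q)) + 98697 * m2sum 1 vs * K) ≤
            160000 * (Q * Q) * H := by exact_mod_cast hle
        rw [hH] at h8
        have h9 : (Q : ℝ) ^ vs.length * (mg * (160000 * (Q * Q)) + 98697 * m2sum 1 vs * K) ≤
            (Q : ℝ) ^ vs.length * (160000 * (Q * Q) * (c0 + csum γ 1 vs)) := by linarith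
        have h10 := le_of_mul_le_mul_left h9 hQJ'
        have h11 : (160000 * ((Q : ℝ) * Q)) * (mg + 98697 / 160000 * m2sum 1 vs * (K / (Q * Q))) ≤
            (160000 * ((Q : ℝ) * Q)) * (c0 + csum γ 1 vs) := by
          have e : (160000 * ((Q : ℝ) * Q)) * (mg + 98697 / 160000 * m2sum 1 vs * (K / (Q * Q))) =
              mg * (160000 * (Q * Q)) + 98697 * m2sum 1 vs * K := by
            field_simp
          rw [e]; exact h10
        have h12 := le_of_mul_le_mul_left h11 hc1
        linarith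
      have h13 := csum_interp' α β θ h1 hθ vs 1 _ (hv α G hG hG1) (hv β _ hGβ hG2)
      have h14 : (m2sum 1 vs : ℝ) * ((β - α) ^ 2 / 8) ≤
          98697 / 160000 * m2sum 1 vs * (K / (Q * Q)) := by
        have hpi : Real.pi ^ 2 ≤ 98697 / 10000 := by
          have h15 := Real.pi_lt_d4
          have h16 := Real.pi_pos
          nlinarith
        have h17 : (β - α) ^ 2 / 8 ≤ 98697 / 160000 * (K / (Q * Q)) := by
          have h18 : Real.pi ^ 2 / 2 * ((K : ℝ) / (Q * Q)) ≤ 98697 / 10000 / 2 * (K / (Q * Q)) := by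
            gcongr
          linarith
        calc _ ≤ (m2sum 1 vs : ℝ) * (98697 / 160000 * (K / (Q * Q))) := by gcongr
          _ = _ := by ring
      linarith
    · push Not at hθ
      exact ih b _ hrest hb hbQ hGβ θ hθ.le h2

end Pool.Agent.H318.Br
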