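import Pool.Agent.H318.Br.Cert

/-! The certificate check with a general right end point. -/

namespace Pool.Agent.H318.Br

open Finset

/-- the certificate check, with a general test for the last node -/
def checkG (fin : ℤ → Bool) (vs : List ℤ) (c0 Q Q2 QJ c1 mg M98 : ℤ) :
    List (ℤ × ℤ) → ℤ → ℤ → Bool
  | [], a, _ => fin a
  | (b, K) :: l, a, G =>
    force (evalAux b Q2 Q vs 1 b c0) fun G' =>
      decide (0 ≤ b ∧ b ≤ a ∧
        (Q2 - K - a * b ≤ 0 ∨
          (Q2 - K - a * b) * (Q2 - K - a * b) ≤ (Q2 - a * a) * (Q2 - b * b)) ∧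
        QJ * (mg * c1 + M98 * K) ≤ c1 * G ∧ QJ * (mg * c1 + M98 * K) ≤ c1 * G') &&
      checkG fin vs c0 Q Q2 QJ c1 mg M98 l b G'

lemma checkG_sound (fin : ℤ → Bool) (θm : ℝ) (vs : List ℤ) (c0 Q QJ mg : ℤ) (hQ : 0 < Q)
    (hfin : ∀ a : ℤ, fin a = true → 0 ≤ a → a ≤ Q → θm < Real.arccos ((a : ℝ) / Q))
    (hQJ : QJ = Q ^ vs.length) :
    ∀ (l : List (ℤ × ℤ)) (a G : ℤ),
      checkG fin vs c0 Q (Q * Q) QJ (160000 * (Q * Q)) mg (98697 * m2sum 1 vs) l a G = true →
      0 ≤ a → a ≤ Q →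
      (G : ℝ) = (Q : ℝ) ^ vs.length * (c0 + csum (Real.arccos ((a : ℝ) / Q)) 1 vs) →
      ∀ θ, Real.arccos ((a : ℝ) / Q) ≤ θ → θ ≤ θm →
        (mg : ℝ) ≤ c0 + csum θ 1 vs := by
  intro l
  induction l with
  | nil =>
    intro a G h ha haQ hG θ h1 h2
    exfalso
    rw [checkG] at h
    have := hfin a h ha haQ
    linarith
  | cons p l ih =>
    obtain ⟨b, K⟩ := p
    intro a G h ha haQ hG θ h1 h2
    rw [checkG, force_eq, Bool.and_eq_true, decide_eq_true_eq] at h
    obtain ⟨⟨hb, hba, hK, hG1, hG2⟩, hrest⟩ := h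
    have hQ' : (0 : ℝ) < Q := by exact_mod_cast hQ
    have hbQ : b ≤ Q := hba.trans haQ
    have hb' : (0 : ℝ) ≤ b := by exact_mod_cast hb
    have hbQ' : (b : ℝ) ≤ Q := by exact_mod_cast hbQ
    set α := Real.arccos ((a : ℝ) / Q) with hα
    set β := Real.arccos ((b : ℝ) / Q) with hβ
    have hcβ : Real.cos β = b / Q := by
      apply Real.cos_arccos
      · have : (0 : ℝ) ≤ (b : ℝ) / Q := by positivity
        linarith
      · rw [div_le_one hQ']; exact hbQ'
    have hGβ : ((evalAux b (Q * Q) Q vs 1 b c0 : ℤ) : ℝ) =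
        (Q : ℝ) ^ vs.length * (c0 + csum β 1 vs) := by
      have := evalAux_eq b Q β (by rw [hcβ]; field_simp) vs 0 1 b c0 c0 (by simp)
        (by simp [hcβ]; field_simp) (by simp)
      simpa using this
    by_cases hθ : θ ≤ β
    · have hsp := spacing a b K Q hQ hb hba haQ hK
      have hQJ' : (0 : ℝ) < (Q : ℝ) ^ vs.length := by positivity
      have hc1 : (0 : ℝ) < 160000 * ((Q : ℝ) * Q) := by positivity
      have hM : (0 : ℝ) ≤ m2sum 1 vs := by exact_mod_cast m2sum_nonneg vs 1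
      have hK0 : (0 : ℝ) ≤ (K : ℝ) / (Q * Q) := by
        have hp : 0 < Real.pi ^ 2 / 2 := by positivity
        by_contra hc
        push Not at hc
        have : Real.pi ^ 2 / 2 * ((K : ℝ) / (Q * Q)) < 0 := mul_neg_of_pos_of_neg hp hc
        have h7 := sq_nonneg (β - α)
        linarith
      -- values at the nodes
      have hv : ∀ (γ : ℝ) (H : ℤ), (H : ℝ) = (Q : ℝ) ^ vs.length * (c0 + csum γ 1 vs) →
          QJ * (mg * (160000 * (Q * Q)) + 98697 * m2sum 1 vs * K) ≤ 160000 * (Q * Q) * H →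
          (mg : ℝ) - c0 + 98697 / 160000 * m2sum 1 vs * (K / (Q * Q)) ≤ csum γ 1 vs := by
        intro γ H hH hle
        rw [hQJ] at hle
        have h8 : (Q : ℝ) ^ vs.length * (mg * (160000 * (Q * Q)) + 98697 * m2sum 1 vs * K) ≤
            160000 * (Q * Q) * H := by exact_mod_cast hle
        rw [hH] at h8
        have h9 : (Q : ℝ) ^ vs.length * (mg * (160000 * (Q * Q)) + 98697 * m2sum 1 vs * K) ≤
            (Q : ℝ) ^ vs.length * (160000 * (Q * Q) * (c0 + csum γ 1 vs)) := by linarith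
        have h10 := le_of_mul_le_mul_left h9 hQJ'
        have h11 : (160000 * ((Q : ℝ) * Q)) * (mg + 98697 / 160000 * m2sum 1 vs * (K / (Q * Q))) ≤
            (160000 * ((Q : ℝ) * Q)) * (c0 + csum γ 1 vs) := by
          have e : (160000 * ((Q : ℝ) * Q)) * (mg + 98697 / 160000 * m2sum 1 vs * (K / (Q * Q))) =
              mg * (160000 * (Q * Q)) + 98697 * m2sum 1 vs * K := by
            field_simp
          rw [e]; exact h10
        have h12 := le_of_mul_le_mul_left h11 hc1
        linarith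
      have h13 := csum_interp' α β θ h1 hθ vs 1 _ (hv α G hG hG1) (hv β _ hGβ hG2)
      have h14 : (m2sum 1 vs : ℝ) * ((β - α) ^ 2 / 8) ≤
          98697 / 160000 * m2sum 1 vs * (K / (Q * Q)) := by
        have hpi : Real.pi ^ 2 ≤ 98697 / 10000 := by
          have h15 := Real.pi_lt_d4
          have h16 := Real.pi_pos
          nlinarith
        have h17 : (β - α) ^ 2 / 8 ≤ 98697 / 160000 * (K / (Q * Q)) := by
          have h18 : Real.pi ^ 2 / 2 * ((K : ℝ) / (Q * Q)) ≤ 98697 / 10000 / 2 * (K / (Q * Q)) := by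
            gcongr
          linarith
        calc _ ≤ (m2sum 1 vs : ℝ) * (98697 / 160000 * (K / (Q * Q))) := by gcongr
          _ = _ := by ring
      linarith
    · push Not at hθ
      exact ih b _ hrest hb hbQ hGβ θ hθ.le h2

end Pool.Agent.H318.Br
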