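import Pool.Agent.H318.Br.Data3

/-! Kernel check of the certificate for `k = 3`. -/

namespace Pool.Agent.H318.Br

theorem check_nodeData :
    (force (.ofNat 296713632079227560436914419669935447609090394405723730354520087795523051493116464224682865885282626761811255387085511876635350220644908626602288566047950415862353344953690862369463695163894939555581248116893472971914793660661444636617478640060060051935236357226054400163726834522899081984322209515746385321113638562766244473996873178471187804100731295655430322017808055294437832301655241577967847897759184302058916271227219198495672004695286866455289203179861816057402371947523239644815397471492799912717321887549384513066339137618254354852886239214968917341890223883060542004515669759738480175902864539207447269879374152927517489912978369872296613482884809320256930244488064321317266541811338288132297760306294898038113601) fun QJ =>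
      force (evalAux (.ofNat 1048583) (.ofNat 1099526307889) (.ofNat 1048583) vData 1 (.ofNat 1048583) (.ofNat 10000000000000000000000000))
        fun G => check vData (.ofNat 10000000000000000000000000) (.ofNat 1048583) (.ofNat 1099526307889) QJ (.ofNat 175924209262240000)
          (.ofNat 12783852048096369373147223) (.ofNat 73403979192298038936050416007712) nodeData (.ofNat 1048583) G) = true := by
  decide +kernel

end Pool.Agent.H318.Br
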