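import Pool.Agent.H318.Br.Data4

/-! Kernel check of the certificate for `k = 4`. -/

namespace Pool.Agent.H318.Br

theorem check_nodeData4 :
    (force (.ofNat 1231464437655571684798047457809441205545885891768031221095850329286617584135058605736195462266666748537255712778022405636955964643249487875690459439439303201393193575090174821581425245979444187589357314949480070831503502954237673285906155964385004784434391053944676070962618549970976843736626825987089906408334881664092103312595369388177499571394702291706597522263830016802397831519502479837818904588690951048094473180458034770702351381663592081741112129869285930020391667952337873646428702864478375438711013015704599484191142769982850806054889975823199268361297675658391245658538725263196179785033005047992876540650919082931824470541349218668463159242895492711723486356722635351452462760906175267656052643273265247152170040132138580060299068666108207330764225878297567250596520432134766588286116969277235054809381147299757219949375695091471145641487712169342932161473301919571158407965685729199434239249) fun QJ =>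
      force (evalAux (.ofNat 1048583) (.ofNat 1099526307889) (.ofNat 1048583) vData4 1 (.ofNat 1048583) (.ofNat 1000000000000000000000))
        fun G => checkG (fun a => decide (2 * (a * a) < .ofNat 1099526307889)) vData4 (.ofNat 1000000000000000000000)
          (.ofNat 1048583) (.ofNat 1099526307889) QJ (.ofNat 175924209262240000)
          (.ofNat 1402744158276206523110) (.ofNat 9445834867390579470278702322) nodeData4 (.ofNat 1048583) G) = true := by
  decide +kernel

end Pool.Agent.H318.Br
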