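import Pool.Agent.H318.Br.Defs

/-! Counting representations. -/

namespace Pool.Agent.H318.Br

open Finset

/-- number of `(a, b)` in `A ^ p × A ^ q` with `∑ a - ∑ b = s` -/
def rep (A : Finset ℕ) (p q : ℕ) (s : ℤ) : ℕ :=
  (((Fintype.piFinset fun _ : Fin p => A) ×ˢ (Fintype.piFinset fun _ : Fin q => A)).filter
    fun z => (∑ i, (z.1 i : ℤ)) - ∑ i, (z.2 i : ℤ) = s).card

lemma card_same_multiset (A : Finset ℕ) (p : ℕ) (a₀ : Fin p → ℕ) :
    ((Fintype.piFinset fun _ : Fin p => A).filter
      fun a => (univ.val.map a : Multiset ℕ) = univ.val.map a₀).card ≤ p.factorial := by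
  classical
  have h1 : ((List.ofFn a₀).permutations).length = p.factorial := by
    rw [List.length_permutations, List.length_ofFn]
  rw [← h1]
  refine le_trans ?_ (List.toFinset_card_le _)
  refine Finset.card_le_card_of_injOn (fun a => List.ofFn a) ?_ ?_
  · intro a ha
    simp only [coe_filter, Set.mem_ofPred_eq] at ha
    simp only [List.coe_toFinset, Set.mem_ofPred_eq, List.mem_permutations]
    have h2 := ha.2
    rw [Fin.univ_val_map, Fin.univ_val_map] at h2
    exact Multiset.coe_eq_coe.mp h2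
  · intro a _ b _ hab
    exact List.ofFn_injective hab

lemma sum_univ_map {p : ℕ} (a : Fin p → ℕ) : (univ.val.map a : Multiset ℕ).sum = ∑ i, a i := rfl

lemma rep_disj {A : Finset ℕ} {p q : ℕ} (h : DistinctSums (p + q) A) (s : ℤ) :
    (((Fintype.piFinset fun _ : Fin p => A) ×ˢ (Fintype.piFinset fun _ : Fin q => A)).filter
      fun z => (∑ i, (z.1 i : ℤ)) - ∑ i, (z.2 i : ℤ) = s ∧ ∀ i j, z.1 i ≠ z.2 j).card
      ≤ p.factorial * q.factorial := by
  classical
  set S := (((Fintype.piFinset fun _ : Fin p => A) ×ˢ (Fintype.piFinset fun _ : Fin q => A)).filter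
      fun z => (∑ i, (z.1 i : ℤ)) - ∑ i, (z.2 i : ℤ) = s ∧ ∀ i j, z.1 i ≠ z.2 j) with hS
  rcases S.eq_empty_or_nonempty with h0 | ⟨⟨a₀, b₀⟩, h0⟩
  · rw [h0]; simp
  have h0' := h0
  rw [hS, mem_filter, mem_product, Fintype.mem_piFinset, Fintype.mem_piFinset] at h0'
  obtain ⟨⟨ha₀, hb₀⟩, hs₀, hd₀⟩ := h0'
  simp only at ha₀ hb₀ hs₀ hd₀
  have hsub : S ⊆ ((Fintype.piFinset fun _ : Fin p => A).filter
      fun a => (univ.val.map a : Multiset ℕ) = univ.val.map a₀) ×ˢ
      ((Fintype.piFinset fun _ : Fin q => A).filter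
      fun b => (univ.val.map b : Multiset ℕ) = univ.val.map b₀) := by
    rintro ⟨a, b⟩ hz
    rw [hS, mem_filter, mem_product, Fintype.mem_piFinset, Fintype.mem_piFinset] at hz
    obtain ⟨⟨ha, hb⟩, hs, hd⟩ := hz
    simp only at ha hb hs hd
    have hsum : (∑ i, a i) + ∑ i, b₀ i = (∑ i, a₀ i) + ∑ i, b i := by
      have : ((∑ i, a i : ℕ) : ℤ) + (∑ i, b₀ i : ℕ) = (∑ i, a₀ i : ℕ) + (∑ i, b i : ℕ) := by
        push_cast
        linarith
      exact_mod_cast this
    have hm : (univ.val.map a : Multiset ℕ) + univ.val.map b₀ = univ.val.map a₀ + univ.val.map b := by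
      apply h
      · simp
      · simp
      · intro x hx
        rw [Multiset.mem_add, Multiset.mem_map, Multiset.mem_map] at hx
        rcases hx with ⟨i, _, rfl⟩ | ⟨i, _, rfl⟩
        · exact ha i
        · exact hb₀ i
      · intro x hx
        rw [Multiset.mem_add, Multiset.mem_map, Multiset.mem_map] at hx
        rcases hx with ⟨i, _, rfl⟩ | ⟨i, _, rfl⟩
        · exact ha₀ i
        · exact hb i
      · rw [Multiset.sum_add, Multiset.sum_add, sum_univ_map, sum_univ_map, sum_univ_map,
          sum_univ_map]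
        exact hsum
    have hdis : ∀ x, (univ.val.map a : Multiset ℕ).count x = 0 ∨
        (univ.val.map b : Multiset ℕ).count x = 0 := by
      intro x
      by_contra hc
      push Not at hc
      have h1 := Multiset.count_ne_zero.mp hc.1
      have h2 := Multiset.count_ne_zero.mp hc.2
      rw [Multiset.mem_map] at h1 h2
      obtain ⟨i, _, hi⟩ := h1
      obtain ⟨j, _, hj⟩ := h2
      exact hd i j (hi.trans hj.symm)
    have hdis₀ : ∀ x, (univ.val.map a₀ : Multiset ℕ).count x = 0 ∨
        (univ.val.map b₀ : Multiset ℕ).count x = 0 := by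
      intro x
      by_contra hc
      push Not at hc
      have h1 := Multiset.count_ne_zero.mp hc.1
      have h2 := Multiset.count_ne_zero.mp hc.2
      rw [Multiset.mem_map] at h1 h2
      obtain ⟨i, _, hi⟩ := h1
      obtain ⟨j, _, hj⟩ := h2
      exact hd₀ i j (hi.trans hj.symm)
    have hcount : ∀ x, (univ.val.map a : Multiset ℕ).count x + (univ.val.map b₀).count x
        = (univ.val.map a₀ : Multiset ℕ).count x + (univ.val.map b).count x := by
      intro x
      rw [← Multiset.count_add, ← Multiset.count_add, hm]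
    rw [mem_product, mem_filter, mem_filter, Fintype.mem_piFinset, Fintype.mem_piFinset]
    refine ⟨⟨ha, ?_⟩, ⟨hb, ?_⟩⟩
    · refine Multiset.ext.mpr fun x => ?_
      have h1 := hcount x
      have h2 := hdis x
      have h3 := hdis₀ x
      have key : (univ.val.map a : Multiset ℕ).count x = (univ.val.map a₀ : Multiset ℕ).count x := by
        omega
      exact key
    · refine Multiset.ext.mpr fun x => ?_
      have h1 := hcount x
      have h2 := hdis x
      have h3 := hdis₀ x
      have key : (univ.val.map b : Multiset ℕ).count x = (univ.val.map b₀ : Multiset ℕ).count x := by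
        omega
      exact key
  calc S.card ≤ _ := card_le_card hsub
    _ = _ := card_product _ _
    _ ≤ _ := Nat.mul_le_mul (card_same_multiset A p a₀) (card_same_multiset A q b₀)

lemma rep_meet (A : Finset ℕ) (p q : ℕ) (s : ℤ) (i : Fin (p + 1)) (j : Fin (q + 1)) :
    (((Fintype.piFinset fun _ : Fin (p + 1) => A) ×ˢ
      (Fintype.piFinset fun _ : Fin (q + 1) => A)).filter
      fun z => (∑ i, (z.1 i : ℤ)) - ∑ i, (z.2 i : ℤ) = s ∧ z.1 i = z.2 j).card
      ≤ A.card * rep A p q s := by
  classical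
  unfold rep
  rw [← card_product]
  refine Finset.card_le_card_of_injOn
    (fun z => (z.1 i, (fun t => z.1 (i.succAbove t), fun t => z.2 (j.succAbove t)))) ?_ ?_
  · rintro ⟨a, b⟩ hz
    simp only [coe_filter, mem_product, Fintype.mem_piFinset, Set.mem_ofPred_eq] at hz
    obtain ⟨⟨ha, hb⟩, hs, hij⟩ := hz
    simp only [coe_product, Set.mem_prod, mem_coe, mem_filter, mem_product, Fintype.mem_piFinset]
    refine ⟨ha i, ⟨fun t => ha _, fun t => hb _⟩, ?_⟩
    rw [Fin.sum_univ_succAbove _ i, Fin.sum_univ_succAbove (fun t => (b t : ℤ)) j, hij] at hs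
    linarith
  · rintro ⟨a, b⟩ hz ⟨a', b'⟩ hz' heq
    simp only [coe_filter, mem_product, Fintype.mem_piFinset, Set.mem_ofPred_eq] at hz hz'
    simp only [Prod.mk.injEq] at heq
    obtain ⟨h1, h2, h3⟩ := heq
    have ea : a = a' := by
      funext t
      rcases Fin.eq_self_or_eq_succAbove i t with rfl | ⟨t', rfl⟩
      · exact h1
      · exact congrFun h2 t'
    have eb : b = b' := by
      funext t
      rcases Fin.eq_self_or_eq_succAbove j t with rfl | ⟨t', rfl⟩
      · rw [← hz.2.2, ← hz'.2.2]; exact h1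
      · exact congrFun h3 t'
    rw [ea, eb]

/-- the basic bound for the number of representations -/
lemma rep_le {A : Finset ℕ} {p q : ℕ} (h : DistinctSums (p + 1 + (q + 1)) A) (s : ℤ) :
    rep A (p + 1) (q + 1) s ≤ (p + 1).factorial * (q + 1).factorial +
      (p + 1) * (q + 1) * (A.card * rep A p q s) := by
  classical
  have hsub : (((Fintype.piFinset fun _ : Fin (p + 1) => A) ×ˢ
      (Fintype.piFinset fun _ : Fin (q + 1) => A)).filter
      fun z => (∑ i, (z.1 i : ℤ)) - ∑ i, (z.2 i : ℤ) = s) ⊆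
      ((((Fintype.piFinset fun _ : Fin (p + 1) => A) ×ˢ
      (Fintype.piFinset fun _ : Fin (q + 1) => A)).filter
      fun z => (∑ i, (z.1 i : ℤ)) - ∑ i, (z.2 i : ℤ) = s ∧ ∀ i j, z.1 i ≠ z.2 j)) ∪
      (univ : Finset (Fin (p + 1) × Fin (q + 1))).biUnion (fun ij =>
      (((Fintype.piFinset fun _ : Fin (p + 1) => A) ×ˢ
      (Fintype.piFinset fun _ : Fin (q + 1) => A)).filter
      fun z => (∑ i, (z.1 i : ℤ)) - ∑ i, (z.2 i : ℤ) = s ∧ z.1 ij.1 = z.2 ij.2)) := by
    intro z hz
    rw [mem_filter] at hz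
    rw [mem_union, mem_filter, mem_biUnion]
    by_cases hd : ∀ i j, z.1 i ≠ z.2 j
    · left
      exact ⟨hz.1, hz.2, hd⟩
    · right
      push Not at hd
      obtain ⟨i, j, hij⟩ := hd
      refine ⟨(i, j), mem_univ _, ?_⟩
      rw [mem_filter]
      exact ⟨hz.1, hz.2, hij⟩
  unfold rep at *
  refine le_trans (card_le_card hsub) (le_trans (card_union_le _ _) ?_)
  refine Nat.add_le_add (rep_disj h s) ?_
  refine le_trans card_biUnion_le ?_
  calc ∑ ij : Fin (p + 1) × Fin (q + 1), _
      ≤ ∑ ij : Fin (p + 1) × Fin (q + 1), A.card * rep A p q s :=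
        sum_le_sum fun ij _ => rep_meet A p q s ij.1 ij.2
    _ = (p + 1) * (q + 1) * (A.card * rep A p q s) := by
        rw [sum_const, smul_eq_mul, card_univ, Fintype.card_prod, Fintype.card_fin,
          Fintype.card_fin]

/-- splitting off the last summand -/
lemma rep_split (A : Finset ℕ) (p q : ℕ) (t : ℤ) :
    rep A p (q + 1) t = ∑ y ∈ A, rep A p q (t + y) := by
  classical
  unfold rep
  rw [← card_sigma]
  refine Finset.card_bij' (fun z _ => ⟨z.2 0, (z.1, fun i => z.2 (Fin.succ i))⟩)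
    (fun w _ => (w.2.1, Fin.cons w.1 w.2.2)) ?_ ?_ ?_ ?_
  · rintro ⟨a, b⟩ hz
    rw [mem_filter, mem_product, Fintype.mem_piFinset, Fintype.mem_piFinset] at hz
    obtain ⟨⟨ha, hb⟩, hs⟩ := hz
    rw [mem_sigma, mem_filter, mem_product, Fintype.mem_piFinset, Fintype.mem_piFinset]
    refine ⟨hb 0, ⟨ha, fun i => hb _⟩, ?_⟩
    simp only at hs ⊢
    rw [Fin.sum_univ_succ (fun i => (b i : ℤ))] at hs
    linarith
  · rintro ⟨y, a, b⟩ hw
    rw [mem_sigma, mem_filter, mem_product, Fintype.mem_piFinset, Fintype.mem_piFinset] at hw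
    obtain ⟨hy, ⟨ha, hb⟩, hs⟩ := hw
    simp only at hy ha hb hs
    rw [mem_filter, mem_product, Fintype.mem_piFinset, Fintype.mem_piFinset]
    refine ⟨⟨ha, ?_⟩, ?_⟩
    · intro i
      refine Fin.cases ?_ (fun i => ?_) i
      · exact hy
      · exact hb i
    · simp only
      rw [Fin.sum_univ_succ]
      simp only [Fin.cons_zero, Fin.cons_succ]
      linarith
  · rintro ⟨a, b⟩ _
    simp only [Prod.mk.injEq, true_and]
    funext i
    refine Fin.cases ?_ (fun i => ?_) i
    · rfl
    · rfl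
  · rintro ⟨y, a, b⟩ _
    rfl

end Pool.Agent.H318.Br
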