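import Pool.Agent.H318.Br.Cert

/-! Certificate data for `k = 3` (generated). -/

namespace Pool.Agent.H318.Br

/-- the weights, scaled by `10^5` -/
def wData : List ℤ :=
  [.ofNat 69639, .ofNat 3626, .negSucc 45133, .negSucc 42307, .negSucc 260, .ofNat 36705,
    .ofNat 34562, .negSucc 733, .negSucc 32483, .negSucc 30328, .ofNat 1315, .ofNat 29808,
    .ofNat 27495, .negSucc 1746, .negSucc 27906, .negSucc 25391, .ofNat 2106, .ofNat 26462,
    .ofNat 23731, .negSucc 2422, .negSucc 25311, .negSucc 22358, .ofNat 2712, .ofNat 24365,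
    .ofNat 21191, .negSucc 2981, .negSucc 23565, .negSucc 20170, .ofNat 3240, .ofNat 22878,
    .ofNat 19262, .negSucc 3488, .negSucc 22275, .negSucc 18439, .ofNat 3732, .ofNat 21742,
    .ofNat 17685, .negSucc 3970, .negSucc 21261, .negSucc 16983, .ofNat 4208, .ofNat 20827,
    .ofNat 16326, .negSucc 4443, .negSucc 20429, .negSucc 15701, .ofNat 4682, .ofNat 20063,
    .ofNat 15105, .negSucc 4921, .negSucc 19721, .negSucc 14529, .ofNat 5166, .ofNat 19404,
    .ofNat 13971, .negSucc 5415, .negSucc 19105, .negSucc 13423, .ofNat 5672, .ofNat 18824,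
    .ofNat 12886, .negSucc 5936, .negSucc 18556, .negSucc 12352, .ofNat 6210, .ofNat 18303,
    .ofNat 11821, .negSucc 6495, .negSucc 18060, .negSucc 11287, .ofNat 6795, .ofNat 17828,
    .ofNat 10750, .negSucc 7108, .negSucc 17604, .negSucc 10202, .ofNat 7441, .ofNat 17389,
    .ofNat 9644, .negSucc 7793, .negSucc 17180, .negSucc 9070, .ofNat 8170, .ofNat 16978,
    .ofNat 8476, .negSucc 8572, .negSucc 16780, .negSucc 7857, .ofNat 9006, .ofNat 16586,
    .ofNat 7207, .negSucc 9473, .negSucc 16391, .negSucc 6519, .ofNat 9980, .ofNat 16193,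
    .ofNat 5783, .negSucc 10529, .negSucc 15982, .negSucc 4985, .ofNat 11127, .ofNat 15745,
    .ofNat 4103, .negSucc 11773, .negSucc 15451, .negSucc 3101, .ofNat 12467, .ofNat 15045,
    .ofNat 1917, .negSucc 13192, .negSucc 14395, .negSucc 411, .ofNat 13884, .ofNat 13150,
    .negSucc 1778, .negSucc 14291, .negSucc 9986, .ofNat 6301, .ofNat 13413, .negSucc 4225]

/-- `2 w^5` for the weights `w` -/
def vData : List ℤ :=
  [.ofNat 3275613303439893996184398, .ofNat 1253628897294098752,
    .negSucc 374583909902386479206847, .negSucc 271108087960829822273535,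
    .negSucc 2422325674601, .ofNat 133246600484543954381250, .ofNat 98633472901237708185664,
    .negSucc 426098784422847, .negSucc 72339833485993297102847,
    .negSucc 51323994665745427365297, .ofNat 7864276234643750, .ofNat 47064579565180510273536,
    .ofNat 31426688130922046868750, .negSucc 32545767722667013,
    .negSucc 33852890585573782512613, .negSucc 21111278875268521918463,
    .ofNat 82855592998431552, .ofNat 25950356064595162569664, .ofNat 15052553945074727535302,
    .negSucc 167030994287456685, .negSucc 20780802016476517105663,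
    .negSucc 11176141080895599551597, .ofNat 293412371542769664,
    .ofNat 17173628905172847456250, .ofNat 8546479457431915613902, .negSucc 471593913385500863,
    .negSucc 14536483591074887625151, .negSucc 6678318732987638539701,
    .ofNat 714093445324800000, .ofNat 12534882691786800716736, .ofNat 5303186351405007177664,
    .negSucc 1034034056917112897, .negSucc 10970237798671070922751,
    .negSucc 4264170675876044799999, .ofNat 1447898676182820864, .ofNat 9716893722326105814464,
    .ofNat 3459834431935384106250, .negSucc 1974828703770217701,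
    .negSucc 8690616078969781897663, .negSucc 2826375770896259022847,
    .ofNat 2638813221445697536, .ofNat 7837247839712590825814, .ofNat 2319684691815299650752,
    .negSucc 3466572176970856447, .negSucc 7118226923003688599999,
    .negSucc 1908995307172880912063, .ofNat 4499736083392492864, .ofNat 6501437043528577073086,
    .ofNat 1572655665070619381250, .negSucc 5777474568978451263,
    .negSucc 5967394751626445139263, .negSucc 1295263320152498599999,
    .ofNat 7358715366755401152, .ofNat 5501565975388670466048, .ofNat 1064553418574098317702,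
    .negSucc 9320157984008241151, .negSucc 5091888237629346751551,
    .negSucc 871845866951302709247, .ofNat 11741162708831371264, .ofNat 4727043147826921013248,
    .ofNat 710592518539253788352, .negSucc 14752486989352786913,
    .negSucc 4401176996717648569113, .negSucc 575297123784452153985,
    .ofNat 18470897425420200000, .ofNat 4108103665531515423486, .ofNat 461637502011229726202,
    .negSucc 23134497825936637951, .negSucc 3843606850770820572601,
    .negSucc 366534618660736270335, .ofNat 28971921580442493750, .ofNat 3601995141854236788736,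
    .ofNat 287125865234375000000, .negSucc 36313872700263749097,
    .negSucc 3382284557062510006249, .negSucc 221141081361629862485,
    .ofNat 45623281418497226402, .ofNat 3179823635105156011898, .ofNat 166846078733215848448,
    .negSucc 57521738438712272447, .negSucc 2994140562609639059801,
    .negSucc 122830389886479748701, .ofNat 72801491740771400000, .ofNat 2821386876334373212736,
    .ofNat 87495302272505034752, .negSucc 92617726115061628185,
    .negSucc 2661455337903245775801, .negSucc 59922526762841001535,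
    .ofNat 118492185230036655552, .ofNat 2510373263739963180352, .ofNat 38886835770835305614,
    .negSucc 152650031278708957247, .negSucc 2366953481206841278463,
    .negSucc 23565028770406399999, .ofNat 198007984015993600000, .ofNat 2226724948585490528386,
    .ofNat 12935879374734978286, .negSucc 258923728120098599999,
    .negSucc 2086034529738800520285, .negSucc 6162988629919724351,
    .ofNat 341130409748847248814, .ofNat 1935277825723692181250, .ofNat 2325613717860721486,
    .negSucc 452532894084894605247, .negSucc 1761787373087734872063,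
    .negSucc 574432446818096063, .ofNat 602337348782536854214, .ofNat 1541668348177962806250,
    .ofNat 51777438328338714, .negSucc 799369930981670498385, .negSucc 1236628312945496061951,
    .negSucc 23741933041663, .ofNat 1031817811874624206848, .ofNat 786427623464375000000,
    .negSucc 35637705619689797, .negSucc 1192600626943568062463,
    .negSucc 198703375608855357413, .ofNat 19864488822733863002, .ofNat 868279642173214316586,
    .negSucc 2695736625789554751]

/-- nodes and spacings -/
def nodeData : List (ℤ × ℤ) :=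
  [(.ofNat 1048580, .ofNat 3145749), (.ofNat 1048572, .ofNat 2632868),
    (.ofNat 1048559, .ofNat 2625512), (.ofNat 1048541, .ofNat 2623562),
    (.ofNat 1048519, .ofNat 2420346), (.ofNat 1048493, .ofNat 2318158),
    (.ofNat 1048464, .ofNat 2120068), (.ofNat 1048432, .ofNat 1995584),
    (.ofNat 1048397, .ofNat 1911128), (.ofNat 1048360, .ofNat 1758679),
    (.ofNat 1048321, .ofNat 1647078), (.ofNat 1048279, .ofNat 1636487),
    (.ofNat 1048234, .ofNat 1628054), (.ofNat 1048187, .ofNat 1556403),
    (.ofNat 1048136, .ofNat 1619462), (.ofNat 1048082, .ofNat 1614369),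
    (.ofNat 1048023, .ofNat 1721898), (.ofNat 1047959, .ofNat 1815604),
    (.ofNat 1047889, .ofNat 1951176), (.ofNat 1047813, .ofNat 2070634),
    (.ofNat 1047729, .ofNat 2280364), (.ofNat 1047637, .ofNat 2468006),
    (.ofNat 1047537, .ofNat 2634896), (.ofNat 1047429, .ofNat 2782833),
    (.ofNat 1047313, .ofNat 2913774), (.ofNat 1047189, .ofNat 3029654),
    (.ofNat 1047059, .ofNat 3040128), (.ofNat 1046923, .ofNat 3049337),
    (.ofNat 1046783, .ofNat 2973643), (.ofNat 1046645, .ofNat 2674403),
    (.ofNat 1046506, .ofNat 2526171), (.ofNat 1046368, .ofNat 2329314),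
    (.ofNat 1046231, .ofNat 2157514), (.ofNat 1046095, .ofNat 2006284),
    (.ofNat 1045961, .ofNat 1844869), (.ofNat 1045828, .ofNat 1727267),
    (.ofNat 1045696, .ofNat 1621555), (.ofNat 1045561, .ofNat 1619553),
    (.ofNat 1045425, .ofNat 1571647), (.ofNat 1045287, .ofNat 1549603),
    (.ofNat 1045145, .ofNat 1572615), (.ofNat 1044999, .ofNat 1594382),
    (.ofNat 1044846, .ofNat 1679544), (.ofNat 1044686, .ofNat 1761568),
    (.ofNat 1044516, .ofNat 1906401), (.ofNat 1044336, .ofNat 2047483),
    (.ofNat 1044145, .ofNat 2207102), (.ofNat 1043941, .ofNat 2408481),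
    (.ofNat 1043725, .ofNat 2581056), (.ofNat 1043497, .ofNat 2747699),
    (.ofNat 1043257, .ofNat 2908024), (.ofNat 1043007, .ofNat 3013935),
    (.ofNat 1042750, .ofNat 3043892), (.ofNat 1042487, .ofNat 3049087),
    (.ofNat 1042221, .ofNat 2986957), (.ofNat 1041963, .ofNat 2696867),
    (.ofNat 1041708, .ofNat 2534653), (.ofNat 1041457, .ofNat 2367272),
    (.ofNat 1041211, .ofNat 2196190), (.ofNat 1040971, .ofNat 2022784),
    (.ofNat 1040737, .ofNat 1864144), (.ofNat 1040508, .ofNat 1733594),
    (.ofNat 1040276, .ofNat 1729431), (.ofNat 1040047, .ofNat 1639049),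
    (.ofNat 1039819, .ofNat 1582014), (.ofNat 1039590, .ofNat 1555016),
    (.ofNat 1039358, .ofNat 1555809), (.ofNat 1039121, .ofNat 1583021),
    (.ofNat 1038876, .ofNat 1649349), (.ofNat 1038620, .ofNat 1755126),
    (.ofNat 1038352, .ofNat 1873851), (.ofNat 1038070, .ofNat 2020002),
    (.ofNat 1037772, .ofNat 2194681), (.ofNat 1037458, .ofNat 2369049),
    (.ofNat 1037127, .ofNat 2557721), (.ofNat 1036779, .ofNat 2745117),
    (.ofNat 1036417, .ofNat 2882940), (.ofNat 1036042, .ofNat 3001967),
    (.ofNat 1035657, .ofNat 3070337), (.ofNat 1035267, .ofNat 3058120),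
    (.ofNat 1034875, .ofNat 3000718), (.ofNat 1034485, .ofNat 2887177),
    (.ofNat 1034112, .ofNat 2570881), (.ofNat 1033747, .ofNat 2400209),
    (.ofNat 1033392, .ofNat 2216424), (.ofNat 1033047, .ofNat 2045963),
    (.ofNat 1032712, .ofNat 1887611), (.ofNat 1032386, .ofNat 1750977),
    (.ofNat 1032068, .ofNat 1633543), (.ofNat 1031746, .ofNat 1643009),
    (.ofNat 1031427, .ofNat 1582371), (.ofNat 1031109, .ofNat 1543776),
    (.ofNat 1030788, .ofNat 1544778), (.ofNat 1030461, .ofNat 1574390),
    (.ofNat 1030124, .ofNat 1642066), (.ofNat 1029775, .ofNat 1728959),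
    (.ofNat 1029410, .ofNat 1855892), (.ofNat 1029027, .ofNat 2004349),
    (.ofNat 1028624, .ofNat 2175419), (.ofNat 1028200, .ofNat 2359154),
    (.ofNat 1027754, .ofNat 2555758), (.ofNat 1027287, .ofNat 2741976),
    (.ofNat 1026801, .ofNat 2904604), (.ofNat 1026300, .ofNat 3018249),
    (.ofNat 1025787, .ofNat 3094140), (.ofNat 1025268, .ofNat 3096830),
    (.ofNat 1024748, .ofNat 3041029), (.ofNat 1024232, .ofNat 2930770),
    (.ofNat 1023740, .ofNat 2610510), (.ofNat 1023260, .ofNat 2437144),
    (.ofNat 1022794, .ofNat 2255046), (.ofNat 1022343, .ofNat 2075436),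
    (.ofNat 1021907, .ofNat 1907568), (.ofNat 1021484, .ofNat 1767192),
    (.ofNat 1021073, .ofNat 1643198), (.ofNat 1020658, .ofNat 1650704),
    (.ofNat 1020249, .ofNat 1580148), (.ofNat 1019841, .ofNat 1550228),
    (.ofNat 1019431, .ofNat 1543649), (.ofNat 1019014, .ofNat 1574636),
    (.ofNat 1018586, .ofNat 1635609), (.ofNat 1018143, .ofNat 1727375),
    (.ofNat 1017681, .ofNat 1851413), (.ofNat 1017197, .ofNat 2001536),
    (.ofNat 1016688, .ofNat 2179436), (.ofNat 1016153, .ofNat 2369300),
    (.ofNat 1015591, .ofNat 2571324), (.ofNat 1015004, .ofNat 2757531),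
    (.ofNat 1014394, .ofNat 2926110), (.ofNat 1013765, .ofNat 3056289),
    (.ofNat 1013122, .ofNat 3137015), (.ofNat 1012472, .ofNat 3148762),
    (.ofNat 1011822, .ofNat 3093563), (.ofNat 1011179, .ofNat 2975443),
    (.ofNat 1010568, .ofNat 2642784), (.ofNat 1009973, .ofNat 2467459),
    (.ofNat 1009397, .ofNat 2278228), (.ofNat 1008841, .ofNat 2092892),
    (.ofNat 1008304, .ofNat 1926140), (.ofNat 1007785, .ofNat 1776198),
    (.ofNat 1007281, .ofNat 1654550), (.ofNat 1006774, .ofNat 1654346),
    (.ofNat 1006275, .ofNat 1583770), (.ofNat 1005778, .ofNat 1553091),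
    (.ofNat 1005279, .ofNat 1547882), (.ofNat 1004772, .ofNat 1579845),
    (.ofNat 1004251, .ofNat 1649256), (.ofNat 1003712, .ofNat 1744660),
    (.ofNat 1003150, .ofNat 1874110), (.ofNat 1002561, .ofNat 2033175),
    (.ofNat 1001942, .ofNat 2216944), (.ofNat 1001292, .ofNat 2412279),
    (.ofNat 1000610, .ofNat 2619364), (.ofNat 999897, .ofNat 2822544),
    (.ofNat 999157, .ofNat 2996399), (.ofNat 998396, .ofNat 3122273),
    (.ofNat 997620, .ofNat 3198440), (.ofNat 996838, .ofNat 3200038),
    (.ofNat 996058, .ofNat 3137194), (.ofNat 995311, .ofNat 2836880),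
    (.ofNat 994581, .ofNat 2672889), (.ofNat 993872, .ofNat 2488818),
    (.ofNat 993188, .ofNat 2287869), (.ofNat 992529, .ofNat 2098781),
    (.ofNat 991895, .ofNat 1920890), (.ofNat 991283, .ofNat 1770866),
    (.ofNat 990672, .ofNat 1746870), (.ofNat 990076, .ofNat 1645405),
    (.ofNat 989489, .ofNat 1580489), (.ofNat 988904, .ofNat 1554695),
    (.ofNat 988316, .ofNat 1555768), (.ofNat 987717, .ofNat 1599167),
    (.ofNat 987101, .ofNat 1674931), (.ofNat 986463, .ofNat 1779025),
    (.ofNat 985797, .ofNat 1918981), (.ofNat 985098, .ofNat 2091713),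
    (.ofNat 984363, .ofNat 2287555), (.ofNat 983590, .ofNat 2501606),
    (.ofNat 982780, .ofNat 2714633), (.ofNat 981935, .ofNat 2918575),
    (.ofNat 981060, .ofNat 3090681), (.ofNat 980162, .ofNat 3214246),
    (.ofNat 979250, .ofNat 3273149), (.ofNat 978334, .ofNat 3260149),
    (.ofNat 977425, .ofNat 3170503), (.ofNat 976559, .ofNat 2843207),
    (.ofNat 975716, .ofNat 2663531), (.ofNat 974901, .ofNat 2462374),
    (.ofNat 974117, .ofNat 2254910), (.ofNat 973365, .ofNat 2054082),
    (.ofNat 972643, .ofNat 1875680), (.ofNat 971947, .ofNat 1727428),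
    (.ofNat 971252, .ofNat 1707494), (.ofNat 970573, .ofNat 1615914),
    (.ofNat 969903, .ofNat 1560336), (.ofNat 969234, .ofNat 1543012),
    (.ofNat 968559, .ofNat 1558085), (.ofNat 967870, .ofNat 1610156),
    (.ofNat 967159, .ofNat 1700408), (.ofNat 966419, .ofNat 1826268),
    (.ofNat 965644, .ofNat 1985475), (.ofNat 964830, .ofNat 2170309),
    (.ofNat 963973, .ofNat 2382774), (.ofNat 963072, .ofNat 2607651),
    (.ofNat 962128, .ofNat 2833078), (.ofNat 961145, .ofNat 3039417),
    (.ofNat 960130, .ofNat 3205309), (.ofNat 959093, .ofNat 3308871),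
    (.ofNat 958045, .ofNat 3342037), (.ofNat 956998, .ofNat 3299013),
    (.ofNat 955996, .ofNat 2989433), (.ofNat 955018, .ofNat 2819040),
    (.ofNat 954071, .ofNat 2617363), (.ofNat 953160, .ofNat 2399565),
    (.ofNat 952288, .ofNat 2179035), (.ofNat 951453, .ofNat 1981251),
    (.ofNat 950653, .ofNat 1804132), (.ofNat 949883, .ofNat 1658664),
    (.ofNat 949113, .ofNat 1646409), (.ofNat 948359, .ofNat 1567247),
    (.ofNat 947613, .ofNat 1523300), (.ofNat 946865, .ofNat 1520759),
    (.ofNat 946107, .ofNat 1550760), (.ofNat 945329, .ofNat 1622101),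
    (.ofNat 944522, .ofNat 1732629), (.ofNat 943679, .ofNat 1876509),
    (.ofNat 942793, .ofNat 2056709), (.ofNat 941860, .ofNat 2262215),
    (.ofNat 940876, .ofNat 2494997), (.ofNat 939840, .ofNat 2741246),
    (.ofNat 938756, .ofNat 2973622), (.ofNat 937630, .ofNat 3178164),
    (.ofNat 936471, .ofNat 3334607), (.ofNat 935292, .ofNat 3416905),
    (.ofNat 934107, .ofNat 3417981), (.ofNat 932931, .ofNat 3333707),
    (.ofNat 931814, .ofNat 2979643), (.ofNat 930730, .ofNat 2781405),
    (.ofNat 929687, .ofNat 2553219), (.ofNat 928689, .ofNat 2318870),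
    (.ofNat 927736, .ofNat 2098366), (.ofNat 926827, .ofNat 1895316),
    (.ofNat 925956, .ofNat 1728267), (.ofNat 925117, .ofNat 1593155),
    (.ofNat 924276, .ofNat 1590583), (.ofNat 923450, .ofNat 1524740),
    (.ofNat 922628, .ofNat 1500724), (.ofNat 921799, .ofNat 1517057),
    (.ofNat 920952, .ofNat 1573888), (.ofNat 920077, .ofNat 1669104),
    (.ofNat 919165, .ofNat 1801502), (.ofNat 918207, .ofNat 1974446),
    (.ofNat 917196, .ofNat 2183508), (.ofNat 916127, .ofNat 2423263),
    (.ofNat 914998, .ofNat 2682088), (.ofNat 913811, .ofNat 2940888),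
    (.ofNat 912571, .ofNat 3182578), (.ofNat 911288, .ofNat 3377853),
    (.ofNat 909976, .ofNat 3501374), (.ofNat 908651, .ofNat 3539679),
    (.ofNat 907332, .ofNat 3477058), (.ofNat 906075, .ofNat 3131252),
    (.ofNat 904853, .ofNat 2935537), (.ofNat 903678, .ofNat 2693180),
    (.ofNat 902556, .ofNat 2437745), (.ofNat 901489, .ofNat 2189371),
    (.ofNat 900476, .ofNat 1960515), (.ofNat 899512, .ofNat 1764520),
    (.ofNat 898589, .ofNat 1608189), (.ofNat 897670, .ofNat 1585271),
    (.ofNat 896773, .ofNat 1501920), (.ofNat 895886, .ofNat 1460685),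
    (.ofNat 894996, .ofNat 1462718), (.ofNat 894091, .ofNat 1504321),
    (.ofNat 893158, .ofNat 1590116), (.ofNat 892186, .ofNat 1716129),
    (.ofNat 891165, .ofNat 1882456), (.ofNat 890085, .ofNat 2093429),
    (.ofNat 888940, .ofNat 2337885), (.ofNat 887726, .ofNat 2610391),
    (.ofNat 886442, .ofNat 2899390), (.ofNat 885094, .ofNat 3171957),
    (.ofNat 883691, .ofNat 3409717), (.ofNat 882248, .ofNat 3578556),
    (.ofNat 880783, .ofNat 3659159), (.ofNat 879318, .ofNat 3630106),
    (.ofNat 877918, .ofNat 3289628), (.ofNat 876556, .ofNat 3090592),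
    (.ofNat 875247, .ofNat 2834628), (.ofNat 874000, .ofNat 2555264),
    (.ofNat 872818, .ofNat 2281342), (.ofNat 871701, .ofNat 2025261),
    (.ofNat 870644, .ofNat 1803438), (.ofNat 869639, .ofNat 1621811),
    (.ofNat 868675, .ofNat 1484757), (.ofNat 867710, .ofNat 1480629),
    (.ofNat 866761, .ofNat 1425092), (.ofNat 865814, .ofNat 1412411),
    (.ofNat 864853, .ofNat 1447629), (.ofNat 863865, .ofNat 1522798),
    (.ofNat 862835, .ofNat 1646872), (.ofNat 861751, .ofNat 1814734),
    (.ofNat 860601, .ofNat 2031458), (.ofNat 859377, .ofNat 2288248),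
    (.ofNat 858072, .ofNat 2585515), (.ofNat 856685, .ofNat 2902135),
    (.ofNat 855220, .ofNat 3216163), (.ofNat 853686, .ofNat 3501774),
    (.ofNat 852100, .ofNat 3716413), (.ofNat 850483, .ofNat 3834987),
    (.ofNat 848860, .ofNat 3835304), (.ofNat 847307, .ofNat 3486708),
    (.ofNat 845796, .ofNat 3278285), (.ofNat 844346, .ofNat 2999316),
    (.ofNat 843011, .ofNat 2527007), (.ofNat 841750, .ofNat 2241969),
    (.ofNat 840563, .ofNat 1976113), (.ofNat 839410, .ofNat 1855218),
    (.ofNat 838321, .ofNat 1647109), (.ofNat 837284, .ofNat 1486870),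
    (.ofNat 836253, .ofNat 1463341), (.ofNat 835244, .ofNat 1395595),
    (.ofNat 834240, .ofNat 1376029), (.ofNat 833224, .ofNat 1403247),
    (.ofNat 832179, .ofNat 1478220), (.ofNat 831088, .ofNat 1604203),
    (.ofNat 829935, .ofNat 1783559), (.ofNat 828707, .ofNat 2013429),
    (.ofNat 827392, .ofNat 2297070), (.ofNat 825983, .ofNat 2622927),
    (.ofNat 824476, .ofNat 2983213), (.ofNat 822875, .ofNat 3346491),
    (.ofNat 821191, .ofNat 3678852), (.ofNat 819442, .ofNat 3942107),
    (.ofNat 817655, .ofNat 4087504), (.ofNat 815861, .ofNat 4091695),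
    (.ofNat 814147, .ofNat 3710351), (.ofNat 812486, .ofNat 3462579),
    (.ofNat 810947, .ofNat 2955067), (.ofNat 809493, .ofNat 2623210),
    (.ofNat 808129, .ofNat 2296691), (.ofNat 806854, .ofNat 1997190),
    (.ofNat 805662, .ofNat 1737896), (.ofNat 804506, .ofNat 1627657),
    (.ofNat 803411, .ofNat 1454576), (.ofNat 802326, .ofNat 1422632),
    (.ofNat 801266, .ofNat 1352711), (.ofNat 800210, .ofNat 1337555),
    (.ofNat 799137, .ofNat 1375853), (.ofNat 798027, .ofNat 1466813),
    (.ofNat 796860, .ofNat 1614972), (.ofNat 795618, .ofNat 1821680),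
    (.ofNat 794284, .ofNat 2092342), (.ofNat 792844, .ofNat 2426635),
    (.ofNat 791289, .ofNat 2815470), (.ofNat 789616, .ofNat 3241447),
    (.ofNat 787830, .ofNat 3672980), (.ofNat 785947, .ofNat 4058216),
    (.ofNat 783993, .ofNat 4342758), (.ofNat 782003, .ofNat 4475621),
    (.ofNat 780019, .ofNat 4420432), (.ofNat 778140, .ofNat 3940668),
    (.ofNat 776394, .ofNat 3383175), (.ofNat 774744, .ofNat 3005373),
    (.ofNat 773203, .ofNat 2608465), (.ofNat 771774, .ofNat 2232832),
    (.ofNat 770452, .ofNat 1902936), (.ofNat 769224, .ofNat 1635578),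
    (.ofNat 768038, .ofNat 1520043), (.ofNat 766914, .ofNat 1360527),
    (.ofNat 765795, .ofNat 1343921), (.ofNat 764691, .ofNat 1303799),
    (.ofNat 763577, .ofNat 1323159), (.ofNat 762428, .ofNat 1402907),
    (.ofNat 761219, .ofNat 1547871), (.ofNat 759926, .ofNat 1763961),
    (.ofNat 758528, .ofNat 2054023), (.ofNat 757005, .ofNat 2427478),
    (.ofNat 755343, .ofNat 2877590), (.ofNat 753535, .ofNat 3388537),
    (.ofNat 751583, .ofNat 3928812), (.ofNat 749504, .ofNat 4431493),
    (.ofNat 747328, .ofNat 4825959), (.ofNat 745101, .ofNat 5024179),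
    (.ofNat 742876, .ofNat 4984690), (.ofNat 740776, .ofNat 4414367),
    (.ofNat 738837, .ofNat 3743051), (.ofNat 737023, .ofNat 3259636),
    (.ofNat 735400, .ofNat 2597488), (.ofNat 733911, .ofNat 2177342),
    (.ofNat 732506, .ofNat 1931280), (.ofNat 731217, .ofNat 1619854),
    (.ofNat 730022, .ofNat 1387744), (.ofNat 728860, .ofNat 1308178),
    (.ofNat 727706, .ofNat 1286400), (.ofNat 726565, .ofNat 1253901),
    (.ofNat 725404, .ofNat 1294451), (.ofNat 724192, .ofNat 1406444),
    (.ofNat 722897, .ofNat 1600611), (.ofNat 721489, .ofNat 1885736),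
    (.ofNat 719940, .ofNat 2273937), (.ofNat 718226, .ofNat 2772951),
    (.ofNat 716329, .ofNat 3381629), (.ofNat 714242, .ofNat 4073081),
    (.ofNat 711974, .ofNat 4784898), (.ofNat 709556, .ofNat 5408224),
    (.ofNat 707040, .ofNat 5821203), (.ofNat 704499, .ofNat 5902163),
    (.ofNat 702088, .ofNat 5283042), (.ofNat 699867, .ofNat 4459210),
    (.ofNat 697870, .ofNat 3587679), (.ofNat 696048, .ofNat 2973474),
    (.ofNat 694406, .ofNat 2405530), (.ofNat 692931, .ofNat 1934307),
    (.ofNat 691601, .ofNat 1567767), (.ofNat 690348, .ofNat 1387495),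
    (.ofNat 689145, .ofNat 1275494), (.ofNat 687958, .ofNat 1238521),
    (.ofNat 686783, .ofNat 1210461), (.ofNat 685575, .ofNat 1276077),
    (.ofNat 684292, .ofNat 1435550), (.ofNat 682892, .ofNat 1704348),
    (.ofNat 681333, .ofNat 2106729), (.ofNat 679575, .ofNat 2669375),
    (.ofNat 677583, .ofNat 3413621), (.ofNat 675334, .ofNat 4331790),
    (.ofNat 672822, .ofNat 5377225), (.ofNat 670072, .ofNat 6409260),
    (.ofNat 667147, .ofNat 7208686), (.ofNat 664149, .ofNat 7527409),
    (.ofNat 661380, .ofNat 6384122), (.ofNat 658846, .ofNat 5318232),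
    (.ofNat 656531, .ofNat 4417439), (.ofNat 654534, .ofNat 3273293),
    (.ofNat 652779, .ofNat 2518798), (.ofNat 651244, .ofNat 1920748),
    (.ofNat 649850, .ofNat 1579620), (.ofNat 648562, .ofNat 1345058),
    (.ofNat 647335, .ofNat 1217741), (.ofNat 646114, .ofNat 1203055),
    (.ofNat 644873, .ofNat 1239895), (.ofNat 643547, .ofNat 1412138),
    (.ofNat 642073, .ofNat 1740377), (.ofNat 640385, .ofNat 2275676),
    (.ofNat 638416, .ofNat 3085903), (.ofNat 636103, .ofNat 4241573),
    (.ofNat 633397, .ofNat 5778788), (.ofNat 630282, .ofNat 7617374),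
    (.ofNat 626803, .ofNat 9445584), (.ofNat 623092, .ofNat 10679053),
    (.ofNat 619587, .ofNat 9466314), (.ofNat 616387, .ofNat 7844818),
    (.ofNat 613709, .ofNat 5466586), (.ofNat 611411, .ofNat 4008295),
    (.ofNat 609548, .ofNat 2625199), (.ofNat 607945, .ofNat 1937951),
    (.ofNat 606554, .ofNat 1455616), (.ofNat 605266, .ofNat 1245259),
    (.ofNat 604001, .ofNat 1198654), (.ofNat 602726, .ofNat 1215140),
    (.ofNat 601327, .ofNat 1459791), (.ofNat 599687, .ofNat 2001094),
    (.ofNat 597678, .ofNat 2994027), (.ofNat 595156, .ofNat 4701132),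
    (.ofNat 591971, .ofNat 7463685), (.ofNat 588000, .ofNat 11536663),
    (.ofNat 583235, .ofNat 16498671), (.ofNat 577925, .ofNat 20330744),
    (.ofNat 573276, .ofNat 15467349), (.ofNat 569585, .ofNat 9689218),
    (.ofNat 566834, .ofNat 5357029), (.ofNat 564825, .ofNat 2847055),
    (.ofNat 563282, .ofNat 1675140), (.ofNat 561947, .ofNat 1251358),
    (.ofNat 560643, .ofNat 1191660), (.ofNat 559296, .ofNat 1269143),
    (.ofNat 557598, .ofNat 2012383), (.ofNat 555201, .ofNat 3998662),
    (.ofNat 551612, .ofNat 8926959), (.ofNat 546103, .ofNat 20900975),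
    (.ofNat 537774, .ofNat 47328407), (.ofNat 528513, .ofNat 57834408),
    (.ofNat 524839, .ofNat 9026294), (.ofNat 524232, .ofNat 245709)]

end Pool.Agent.H318.Br
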