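import Pool.Agent.H318.Br.CertG

/-! Certificate data for `k = 4` (generated). -/

namespace Pool.Agent.H318.Br

/-- the weights, scaled by `1000` -/
def wData4 : List ℤ :=
  [.ofNat 806, .ofNat 321, .negSucc 212, .negSucc 541, .negSucc 526, .negSucc 216, .ofNat 192,
    .ofNat 462, .ofNat 452, .ofNat 183, .negSucc 177, .negSucc 419, .negSucc 409, .negSucc 162,
    .ofNat 169, .ofNat 393, .ofNat 382, .ofNat 150, .negSucc 162, .negSucc 372, .negSucc 361,
    .negSucc 139, .ofNat 158, .ofNat 358, .ofNat 345, .ofNat 132, .negSucc 154, .negSucc 345,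
    .negSucc 331, .negSucc 124, .ofNat 152, .ofNat 336, .ofNat 321, .ofNat 119, .negSucc 149,
    .negSucc 326, .negSucc 310, .negSucc 112, .ofNat 148, .ofNat 319, .ofNat 302, .ofNat 109,
    .negSucc 145, .negSucc 312, .negSucc 293, .negSucc 103, .ofNat 145, .ofNat 307, .ofNat 288,
    .ofNat 100, .negSucc 143, .negSucc 301, .negSucc 280, .negSucc 95, .ofNat 144, .ofNat 297,
    .ofNat 276, .ofNat 93, .negSucc 142, .negSucc 292, .negSucc 269, .negSucc 88, .ofNat 143,
    .ofNat 290, .ofNat 266, .ofNat 86, .negSucc 142, .negSucc 285, .negSucc 259, .negSucc 81,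
    .ofNat 143, .ofNat 283, .ofNat 257, .ofNat 80, .negSucc 142, .negSucc 279, .negSucc 251,
    .negSucc 75, .ofNat 143, .ofNat 278, .ofNat 249, .ofNat 74, .negSucc 142, .negSucc 274,
    .negSucc 243, .negSucc 69, .ofNat 144, .ofNat 273, .ofNat 241, .ofNat 68, .negSucc 143,
    .negSucc 270, .negSucc 236, .negSucc 63, .ofNat 146, .ofNat 270, .ofNat 234, .ofNat 62,
    .negSucc 145, .negSucc 266, .negSucc 230, .negSucc 57, .ofNat 148, .ofNat 267, .ofNat 228,
    .ofNat 56, .negSucc 148, .negSucc 264, .negSucc 223, .negSucc 51, .ofNat 151, .ofNat 265,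
    .ofNat 222, .ofNat 49, .negSucc 151, .negSucc 262, .negSucc 217, .negSucc 44, .ofNat 155,
    .ofNat 263, .ofNat 216, .ofNat 41, .negSucc 156, .negSucc 261, .negSucc 211, .negSucc 36,
    .ofNat 161, .ofNat 263, .ofNat 210, .ofNat 33, .negSucc 163, .negSucc 262, .negSucc 205,
    .negSucc 26, .ofNat 169, .ofNat 265, .ofNat 204, .ofNat 22, .negSucc 173, .negSucc 265,
    .negSucc 199, .negSucc 13, .ofNat 182, .ofNat 271, .ofNat 198, .ofNat 5, .negSucc 193,
    .negSucc 276, .negSucc 192, .ofNat 14]

/-- `2 w^7` for the weights `w` -/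
def vData4 : List ℤ :=
  [.ofNat 441952187970181987072, .ofNat 702368817811665282, .negSucc 39782055572802233,
    .negSucc 27480523482236874495, .negSucc 22578979130137629405, .negSucc 45315641525630545,
    .ofNat 19237055439568896, .ofNat 8985118818459522816, .ofNat 7709017638332563456,
    .ofNat 13746357164755854, .negSucc 11323221733255423, .negSucc 4610786664959999999,
    .negSucc 3895085477619999999, .negSucc 6114250482430933, .ofNat 7874752771398578,
    .ofNat 2895861908194147314, .ofNat 2373960759827054336, .ofNat 3417187500000000,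
    .negSucc 6114250482430933, .negSucc 2009054963658991993, .negSucc 1629258477363625215,
    .negSucc 2108270079999999, .ofNat 4916200700456704, .ofNat 1507339854500059904,
    .ofNat 1163492695717031250, .ofNat 1396521139470336, .negSucc 4298845954843749,
    .negSucc 1187306067571557631, .negSucc 889194118828097535, .negSucc 953674316406249,
    .ofNat 3749169810374656, .ofNat 966952047599419392, .ofNat 702368817811665282,
    .ofNat 675863083556878, .negSucc 3417187499999999, .negSucc 799584311445220205,
    .negSucc 562798224742310541, .negSucc 470521096089633, .ofNat 3110727749894144,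
    .ofNat 672302578724663678, .ofNat 458224806361229056, .ofNat 365607824163338,
    .negSucc 2828134020888831, .negSucc 588627243175634833, .negSucc 379718108242115327,
    .negSucc 263186355847167, .ofNat 2695293173281250, .ofNat 514042022916232886,
    .ofNat 328683126924509184, .ofNat 200000000000000, .negSucc 2567836929097727,
    .negSucc 458224806361229055, .negSucc 276677749840736721, .negSucc 150289495621631,
    .ofNat 2567836929097728, .ofNat 407685383174517426, .ofNat 244002103380836352,
    .ofNat 120340174121514, .negSucc 2445582161550813, .negSucc 370768933852018713,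
    .negSucc 209207064059999999, .negSucc 88462669791057, .ofNat 2445582161550814,
    .ofNat 344997526180000000, .ofNat 188452304269126912, .ofNat 69585564443392,
    .negSucc 2445582161550813, .negSucc 313034516678504191, .negSucc 160636203519999999,
    .negSucc 49857094113535, .ofNat 2445582161550814, .ofNat 290760257187652454,
    .ofNat 148102319063043586, .ofNat 41943040000000, .negSucc 2445582161550813,
    .negSucc 269858570239999999, .negSucc 129072517584224255, .negSucc 29290389143551,
    .ofNat 2445582161550814, .ofNat 256651358317921024, .ofNat 118693087028628498,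
    .ofNat 24302560546048, .negSucc 2445582161550813, .negSucc 237880505371093749,
    .negSucc 102981397250736127, .negSucc 16470859999999, .ofNat 2567836929097728,
    .ofNat 226031269866887394, .ofNat 94438546378102562, .ofNat 13445977636864,
    .negSucc 2567836929097727, .negSucc 214691589704975581, .negSucc 83997897905459465,
    .negSucc 8796093022207, .ofNat 2828134020888832, .ofNat 209207064060000000,
    .ofNat 76831798171385088, .ofNat 7043229212416, .negSucc 2828134020888831,
    .negSucc 193467858833043845, .negSucc 70196240769215021, .negSucc 4415968335103,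
    .ofNat 3110727749894144, .ofNat 193467858833043846, .ofNat 64058081056948224,
    .ofNat 3454189699072, .negSucc 3260872922807097, .negSucc 183548615599531249,
    .negSucc 56593444029595647, .negSucc 2056143405055, .ofNat 3579881299697102,
    .ofNat 183548615599531250, .ofNat 53149699914206976, .ofNat 1356446145698,
    .negSucc 3749169810374655, .negSucc 174068519319703533, .negSucc 46797801492907263,
    .negSucc 747338906249, .ofNat 4298845954843750, .ofNat 174068519319703534,
    .ofNat 43873901280755712, .ofNat 389508547762, .negSucc 4702486555074985,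
    .negSucc 169488031206607615, .negSucc 38492934630178815, .negSucc 189863754265,
    .ofNat 5608040326197442, .ofNat 174068519319703534, .ofNat 36021770820000000,
    .ofNat 85236885954, .negSucc 6381708046532607, .negSucc 174068519319703533,
    .negSucc 31484770954876671, .negSucc 20920706405, .ofNat 7874752771398578,
    .ofNat 183548615599531250, .ofNat 29406353091821568, .ofNat 4988715776,
    .negSucc 9657722748872447, .negSucc 188452304269126911, .negSucc 25599999999999999,
    .negSucc 210827007, .ofNat 13229082095547136, .ofNat 214691589704975582,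
    .ofNat 23860872906418944, .ofNat 156250, .negSucc 20684360826396927,
    .negSucc 250258236054542905, .negSucc 19949460652010113, .ofNat 210827008]

/-- nodes and spacings -/
def nodeData4 : List (ℤ × ℤ) :=
  [(.ofNat 1048565, .ofNat 18874494), (.ofNat 1048510, .ofNat 19400929),
    (.ofNat 1048414, .ofNat 20821665), (.ofNat 1048274, .ofNat 21982487),
    (.ofNat 1048100, .ofNat 20293835), (.ofNat 1047899, .ofNat 18292390),
    (.ofNat 1047670, .ofNat 17312207), (.ofNat 1047414, .ofNat 16574366),
    (.ofNat 1047116, .ofNat 17730686), (.ofNat 1046762, .ofNat 20056271),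
    (.ofNat 1046349, .ofNat 22132508), (.ofNat 1045906, .ofNat 21018574),
    (.ofNat 1045459, .ofNat 18110498), (.ofNat 1044991, .ofNat 17146532),
    (.ofNat 1044492, .ofNat 17041051), (.ofNat 1043950, .ofNat 17708343),
    (.ofNat 1043341, .ofNat 19756299), (.ofNat 1042658, .ofNat 21980627),
    (.ofNat 1041948, .ofNat 21122612), (.ofNat 1041251, .ofNat 18308497),
    (.ofNat 1040545, .ofNat 17073805), (.ofNat 1039819, .ofNat 16520742),
    (.ofNat 1039057, .ofNat 16724531), (.ofNat 1038221, .ofNat 18520324),
    (.ofNat 1037298, .ofNat 20750148), (.ofNat 1036342, .ofNat 20490885),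
    (.ofNat 1035406, .ofNat 18187313), (.ofNat 1034468, .ofNat 17017859),
    (.ofNat 1033522, .ofNat 16198451), (.ofNat 1032553, .ofNat 15955884),
    (.ofNat 1031508, .ofNat 17436517), (.ofNat 1030358, .ofNat 19814252),
    (.ofNat 1029121, .ofNat 21485993), (.ofNat 1027938, .ofNat 18475134),
    (.ofNat 1026793, .ofNat 16366405), (.ofNat 1025663, .ofNat 15137257),
    (.ofNat 1024510, .ofNat 15002217), (.ofNat 1023300, .ofNat 15740123),
    (.ofNat 1021980, .ofNat 17829739), (.ofNat 1020542, .ofNat 20105577),
    (.ofNat 1019087, .ofNat 19562211), (.ofNat 1017701, .ofNat 16926739),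
    (.ofNat 1016386, .ofNat 14593730), (.ofNat 1015046, .ofNat 14551115),
    (.ofNat 1013695, .ofNat 14218475), (.ofNat 1012253, .ofNat 15573780),
    (.ofNat 1010672, .ofNat 17971993), (.ofNat 1008971, .ofNat 19938997),
    (.ofNat 1007289, .ofNat 18695983), (.ofNat 1005722, .ofNat 15612387),
    (.ofNat 1004202, .ofNat 14180598), (.ofNat 1002691, .ofNat 13552587),
    (.ofNat 1001141, .ofNat 13803785), (.ofNat 999463, .ofNat 15649374),
    (.ofNat 997618, .ofNat 18269239), (.ofNat 995650, .ofNat 20042240),
    (.ofNat 993794, .ofNat 17208956), (.ofNat 992031, .ofNat 15036006),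
    (.ofNat 990330, .ofNat 13586142), (.ofNat 988628, .ofNat 13221530),
    (.ofNat 986862, .ofNat 13840632), (.ofNat 984933, .ofNat 16041450),
    (.ofNat 982807, .ofNat 18893725), (.ofNat 980551, .ofNat 20600536),
    (.ofNat 978444, .ofNat 17420322), (.ofNat 976455, .ofNat 15091916),
    (.ofNat 974466, .ofNat 14695792), (.ofNat 972502, .ofNat 13965167),
    (.ofNat 970422, .ofNat 15268166), (.ofNat 968130, .ofNat 18047766),
    (.ofNat 965629, .ofNat 20883874), (.ofNat 963128, .ofNat 20288701),
    (.ofNat 960875, .ofNat 16031251), (.ofNat 958731, .ofNat 14173508),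
    (.ofNat 956594, .ofNat 13764247), (.ofNat 954454, .ofNat 13500099),
    (.ofNat 952151, .ofNat 15287436), (.ofNat 949599, .ofNat 18327842),
    (.ofNat 946839, .ofNat 20897742), (.ofNat 944218, .ofNat 18378458),
    (.ofNat 941828, .ofNat 14937610), (.ofNat 939573, .ofNat 13026618),
    (.ofNat 937311, .ofNat 12853421), (.ofNat 935007, .ofNat 13079395),
    (.ofNat 932490, .ofNat 15300477), (.ofNat 929679, .ofNat 18676113),
    (.ofNat 926646, .ofNat 21246356), (.ofNat 923800, .ofNat 18288551),
    (.ofNat 921241, .ofNat 14488742), (.ofNat 918764, .ofNat 13326223),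
    (.ofNat 916337, .ofNat 12569884), (.ofNat 913815, .ofNat 13338412),
    (.ofNat 911010, .ofNat 16199131), (.ofNat 907855, .ofNat 20085632),
    (.ofNat 904581, .ofNat 21175786), (.ofNat 901569, .ofNat 17563253),
    (.ofNat 898823, .ofNat 14335941), (.ofNat 896185, .ofNat 13012655),
    (.ofNat 893573, .ofNat 12556466), (.ofNat 890800, .ofNat 13927771),
    (.ofNat 887664, .ofNat 17509329), (.ofNat 884130, .ofNat 21817503),
    (.ofNat 880639, .ofNat 20877730), (.ofNat 877530, .ofNat 16263975),
    (.ofNat 874771, .ofNat 12609419), (.ofNat 872069, .ofNat 11922168),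
    (.ofNat 869375, .ofNat 11688297), (.ofNat 866456, .ofNat 13528858),
    (.ofNat 863088, .ofNat 17732101), (.ofNat 859255, .ofNat 22567775),
    (.ofNat 855496, .ofNat 21316231), (.ofNat 852337, .ofNat 14813746),
    (.ofNat 849621, .ofNat 10804137), (.ofNat 847044, .ofNat 9611396),
    (.ofNat 844457, .ofNat 9575866), (.ofNat 841659, .ofNat 11070614),
    (.ofNat 838363, .ofNat 15162150), (.ofNat 834466, .ofNat 20876225),
    (.ofNat 830464, .ofNat 21659393), (.ofNat 827001, .ofNat 15974275),
    (.ofNat 824155, .ofNat 10654360), (.ofNat 821676, .ofNat 7999682),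
    (.ofNat 819244, .ofNat 7626351), (.ofNat 816783, .ofNat 7736579),
    (.ofNat 813891, .ofNat 10576305), (.ofNat 810277, .ofNat 16317695),
    (.ofNat 805887, .ofNat 23727998), (.ofNat 801720, .ofNat 21053384),
    (.ofNat 798313, .ofNat 13887955), (.ofNat 795698, .ofNat 8096821),
    (.ofNat 793561, .ofNat 5363602), (.ofNat 791435, .ofNat 5270436),
    (.ofNat 789289, .ofNat 5331829), (.ofNat 786639, .ofNat 8066058),
    (.ofNat 783071, .ofNat 14474598), (.ofNat 778336, .ofNat 25153625),
    (.ofNat 773295, .ofNat 28073943), (.ofNat 769620, .ofNat 14720963),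
    (.ofNat 767147, .ofNat 6604062), (.ofNat 765547, .ofNat 2747540),
    (.ofNat 764433, .ofNat 1326526), (.ofNat 763482, .ofNat 963775),
    (.ofNat 762539, .ofNat 944979), (.ofNat 761368, .ofNat 1452652),
    (.ofNat 759590, .ofNat 3334550), (.ofNat 756688, .ofNat 8823048),
    (.ofNat 751927, .ofNat 23488405), (.ofNat 745007, .ofNat 48814464),
    (.ofNat 741991, .ofNat 9146666), (.ofNat 741432, .ofNat 312694)]

end Pool.Agent.H318.Br
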