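import Mathlib

/-! Sets with distinct `r`-fold sums, and the function `f_r(N)`. -/

namespace Pool.Agent.H318.Br

/-- `A` has distinct `r`-fold sums: two multisets of cardinality `r` with members in `A` and
with the same sum are equal. -/
def DistinctSums (r : ℕ) (A : Finset ℕ) : Prop :=
  ∀ m₁ m₂ : Multiset ℕ, m₁.card = r → m₂.card = r →
    (∀ a ∈ m₁, a ∈ A) → (∀ a ∈ m₂, a ∈ A) → m₁.sum = m₂.sum → m₁ = m₂

/-- `f_r(N)`: the largest size of a subset of `{1, …, N}` with distinct `r`-fold sums. -/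
noncomputable def maxSize (r N : ℕ) : ℕ :=
  sSup {n : ℕ | ∃ A : Finset ℕ, A ⊆ Finset.Icc 1 N ∧ DistinctSums r A ∧ A.card = n}

end Pool.Agent.H318.Br
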