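import Pool.Agent.H318.Br.Count

/-! The mean square identity on a cyclic group and its consequence for `B_r` sets. -/

namespace Pool.Agent.H318.Br

open Finset

lemma parseval {ι : Type*} (P : ℕ) [NeZero P] (Z : Finset ι) (s : ι → ZMod P) :
    ∑ j : ZMod P, ‖∑ z ∈ Z, ZMod.stdAddChar (j * s z)‖ ^ 2 =
      P * (((Z ×ˢ Z).filter fun w => s w.1 = s w.2).card : ℝ) := by
  classical
  have h1 : ∀ j : ZMod P, ((‖∑ z ∈ Z, ZMod.stdAddChar (j * s z)‖ ^ 2 : ℝ) : ℂ) =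
      ∑ w ∈ Z ×ˢ Z, ZMod.stdAddChar (j * (s w.1 - s w.2)) := by
    intro j
    rw [← Complex.normSq_eq_norm_sq, Complex.normSq_eq_conj_mul_self, map_sum, sum_mul_sum,
      ← sum_product', sum_product_right, sum_product]
    refine sum_congr rfl fun z _ => sum_congr rfl fun z' _ => ?_
    rw [← AddChar.map_neg_eq_conj, ← AddChar.map_add_eq_mul]
    congr 1
    ring
  have h2 : ((∑ j : ZMod P, ‖∑ z ∈ Z, ZMod.stdAddChar (j * s z)‖ ^ 2 : ℝ) : ℂ) =
      (P : ℂ) * (((Z ×ˢ Z).filter fun w => s w.1 = s w.2).card : ℂ) := by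
    push_cast
    simp_rw [← Complex.ofReal_pow, h1]
    rw [sum_comm]
    simp_rw [AddChar.sum_mulShift _ (ZMod.isPrimitive_stdAddChar P), sub_eq_zero, ZMod.card,
      Nat.cast_ite, Nat.cast_zero]
    rw [← sum_filter, sum_const, nsmul_eq_mul, mul_comm]
  exact_mod_cast h2

lemma char_eq (P : ℕ) [NeZero P] (j : ℤ) (a : ℕ) :
    ZMod.stdAddChar ((j : ZMod P) * (a : ZMod P)) =
      Complex.exp (((2 * Real.pi * j * a / P : ℝ) : ℂ) * Complex.I) := by
  have h : (j : ZMod P) * (a : ZMod P) = ((j * a : ℤ) : ZMod P) := by push_cast; ring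
  rw [h, ZMod.stdAddChar_coe]
  congr 1
  push_cast
  ring

/-- lower bound for the absolute value of a character sum by a cosine sum -/
lemma norm_sum_ge (P : ℕ) [NeZero P] (A : Finset ℕ) (j : ℤ) (c : ℝ) :
    |∑ a ∈ A, Real.cos (2 * Real.pi * j * (a - c) / P)| ≤
      ‖∑ a ∈ A, ZMod.stdAddChar ((j : ZMod P) * (a : ZMod P))‖ := by
  have h1 : ∑ a ∈ A, Real.cos (2 * Real.pi * j * (a - c) / P) =
      (Complex.exp (((-(2 * Real.pi * j * c / P) : ℝ) : ℂ) * Complex.I) *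
        ∑ a ∈ A, ZMod.stdAddChar ((j : ZMod P) * (a : ZMod P))).re := by
    rw [mul_sum, Complex.re_sum]
    refine sum_congr rfl fun a _ => ?_
    rw [char_eq, ← Complex.exp_add, ← add_mul, ← Complex.ofReal_add, Complex.exp_ofReal_mul_I_re]
    congr 1
    ring
  rw [h1]
  refine (Complex.abs_re_le_norm _).trans ?_
  rw [norm_mul, Complex.norm_exp_ofReal_mul_I, one_mul]

lemma char_sum {G : Type*} [AddCommMonoid G] (ψ : AddChar G ℂ) {ι : Type*} (s : Finset ι)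
    (f : ι → G) : ψ (∑ i ∈ s, f i) = ∏ i ∈ s, ψ (f i) := by
  classical
  induction s using Finset.induction_on with
  | empty => simp
  | insert a s ha ih => rw [sum_insert ha, prod_insert ha, AddChar.map_add_eq_mul, ih]

lemma prod_sum_char (P : ℕ) [NeZero P] (A : Finset ℕ) (k U : ℕ) (j : ZMod P) :
    ∑ z ∈ (Fintype.piFinset fun _ : Fin k => A) ×ˢ range U,
      ZMod.stdAddChar (j * ((∑ i, z.1 i + z.2 : ℕ) : ZMod P)) =
    (∑ a ∈ A, ZMod.stdAddChar (j * (a : ZMod P))) ^ k *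
      ∑ u ∈ range U, ZMod.stdAddChar (j * (u : ZMod P)) := by
  classical
  have h1 : (∑ a ∈ A, ZMod.stdAddChar (j * (a : ZMod P))) ^ k =
      ∑ x ∈ Fintype.piFinset fun _ : Fin k => A, ∏ i, ZMod.stdAddChar (j * ((x i : ℕ) : ZMod P)) := by
    rw [← Finset.prod_univ_sum (fun _ : Fin k => A) (fun _ a => ZMod.stdAddChar (j * ((a : ℕ) : ZMod P)))]
    simp
  rw [h1, sum_mul_sum, ← sum_product']
  refine sum_congr rfl fun z _ => ?_
  rw [Nat.cast_add, mul_add, AddChar.map_add_eq_mul, Nat.cast_sum, mul_sum]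
  congr 1
  exact char_sum _ _ _

/-- pairs with equal sums -/
lemma pairs_le (A : Finset ℕ) (N k U P : ℕ) (hA : A ⊆ Icc 1 N) (hP : k * N + U ≤ P) :
    (((((Fintype.piFinset fun _ : Fin k => A) ×ˢ range U) ×ˢ
      ((Fintype.piFinset fun _ : Fin k => A) ×ˢ range U)).filter fun w =>
        ((∑ i, w.1.1 i + w.1.2 : ℕ) : ZMod P) = ((∑ i, w.2.1 i + w.2.2 : ℕ) : ZMod P)).card) ≤
      ∑ u ∈ range U, ∑ v ∈ range U, rep A k k ((v : ℤ) - u) := by
  classical
  have hlt : ∀ z ∈ (Fintype.piFinset fun _ : Fin k => A) ×ˢ range U, ∑ i, z.1 i + z.2 < P := by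
    intro z hz
    rw [mem_product, Fintype.mem_piFinset, mem_range] at hz
    have : ∑ i, z.1 i ≤ ∑ _i : Fin k, N := sum_le_sum fun i _ => (mem_Icc.mp (hA (hz.1 i))).2
    rw [sum_const, card_univ, Fintype.card_fin, smul_eq_mul] at this
    omega
  unfold rep
  simp_rw [← card_sigma]
  refine Finset.card_le_card_of_injOn (fun w => ⟨w.1.2, w.2.2, (w.1.1, w.2.1)⟩) ?_ ?_
  · rintro ⟨⟨a, u⟩, ⟨b, v⟩⟩ hw
    rw [mem_coe, mem_filter, mem_product] at hw
    obtain ⟨⟨h1, h2⟩, h3⟩ := hw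
    have l1 := hlt _ h1
    have l2 := hlt _ h2
    rw [mem_product] at h1 h2
    simp only at h1 h2 h3 l1 l2
    have h4 : ∑ i, a i + u = ∑ i, b i + v := by
      have := (ZMod.natCast_eq_natCast_iff' _ _ _).mp h3
      rwa [Nat.mod_eq_of_lt l1, Nat.mod_eq_of_lt l2] at this
    rw [mem_coe, mem_sigma, mem_sigma, mem_filter, mem_product]
    refine ⟨h1.2, h2.2, ⟨h1.1, h2.1⟩, ?_⟩
    simp only
    have h5 : ((∑ i, a i : ℕ) : ℤ) + u = (∑ i, b i : ℕ) + v := by exact_mod_cast h4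
    push_cast at h5
    linarith
  · rintro ⟨⟨a, u⟩, ⟨b, v⟩⟩ _ ⟨⟨a', u'⟩, ⟨b', v'⟩⟩ _ h
    simp only [Sigma.mk.injEq, heq_eq_eq, Prod.mk.injEq] at h
    obtain ⟨rfl, rfl, rfl, rfl⟩ := h
    rfl

/-- The main analytic inequality. -/
lemma fourier_ineq (A : Finset ℕ) (N k U J P : ℕ) (hA : A ⊆ Icc 1 N) (hP : k * N + U ≤ P)
    (hJ : 2 * J + 1 ≤ P) (c : ℝ) :
    ∑ j ∈ Icc (-(J : ℤ)) J, (∑ a ∈ A, Real.cos (2 * Real.pi * j * (a - c) / P)) ^ (2 * k) *
      (∑ u ∈ range U, Real.cos (2 * Real.pi * j * u / P)) ^ 2 ≤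
      P * ((∑ u ∈ range U, ∑ v ∈ range U, rep A k k ((v : ℤ) - u) : ℕ) : ℝ) := by
  classical
  have : NeZero P := ⟨by omega⟩
  have hpar := parseval P ((Fintype.piFinset fun _ : Fin k => A) ×ˢ range U)
    (fun z => ((∑ i, z.1 i + z.2 : ℕ) : ZMod P))
  have hpl := pairs_le A N k U P hA hP
  have h1 : ∑ j : ZMod P, ‖(∑ a ∈ A, ZMod.stdAddChar (j * (a : ZMod P))) ^ k *
      ∑ u ∈ range U, ZMod.stdAddChar (j * (u : ZMod P))‖ ^ 2 ≤
      P * ((∑ u ∈ range U, ∑ v ∈ range U, rep A k k ((v : ℤ) - u) : ℕ) : ℝ) := by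
    simp_rw [← prod_sum_char]
    rw [hpar]
    exact mul_le_mul_of_nonneg_left (by exact_mod_cast hpl) (by positivity)
  refine le_trans ?_ h1
  have hinj : Set.InjOn (fun j : ℤ => (j : ZMod P)) (Icc (-(J : ℤ)) J : Finset ℤ) := by
    intro x hx y hy hxy
    rw [mem_coe, mem_Icc] at hx hy
    have h2 := (ZMod.intCast_eq_intCast_iff_dvd_sub x y P).mp hxy
    obtain ⟨t, ht⟩ := h2
    have h3 : |y - x| < P := by
      rw [abs_lt]; constructor <;> omega
    rw [ht, abs_mul, Nat.abs_cast] at h3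
    have h4 : |t| < 1 := by
      by_contra hc
      push Not at hc
      have : (P : ℤ) * 1 ≤ P * |t| := mul_le_mul_of_nonneg_left hc (by positivity)
      omega
    have h5 : t = 0 := Int.abs_lt_one_iff.mp h4
    rw [h5] at ht
    omega
  calc _ ≤ ∑ j ∈ Icc (-(J : ℤ)) J, ‖(∑ a ∈ A, ZMod.stdAddChar (((j : ℤ) : ZMod P) * (a : ZMod P))) ^ k *
      ∑ u ∈ range U, ZMod.stdAddChar (((j : ℤ) : ZMod P) * (u : ZMod P))‖ ^ 2 := by
        refine sum_le_sum fun j _ => ?_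
        rw [norm_mul, norm_pow, mul_pow, ← pow_mul, mul_comm k 2]
        refine mul_le_mul ?_ ?_ (by positivity) (by positivity)
        · rw [← Even.pow_abs ⟨k, by ring⟩]
          exact pow_le_pow_left₀ (abs_nonneg _) (norm_sum_ge P A j c) _
        · rw [← sq_abs (∑ u ∈ range U, _)]
          refine pow_le_pow_left₀ (abs_nonneg _) ?_ _
          have := norm_sum_ge P (range U) j 0
          simpa using this
    _ = ∑ j ∈ (Icc (-(J : ℤ)) J).image (fun j : ℤ => (j : ZMod P)),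
        ‖(∑ a ∈ A, ZMod.stdAddChar (j * (a : ZMod P))) ^ k *
        ∑ u ∈ range U, ZMod.stdAddChar (j * (u : ZMod P))‖ ^ 2 := by
        rw [sum_image hinj]
    _ ≤ _ := sum_le_sum_of_subset_of_nonneg (subset_univ _) fun j _ _ => by positivity

end Pool.Agent.H318.Br
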