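import Pool.Agent.H318.Br.Lower

/-! The general upper bound, for `k ≥ 4`. -/

namespace Pool.Agent.H318.Br

open Finset Filter

lemma exp_neg_le {u : ℝ} (hu : 0 ≤ u) : Real.exp (-u) ≤ 1 - u + u ^ 2 / 2 := by
  have h1 := Real.quadratic_le_exp_of_nonneg hu
  have h2 : 0 < 1 + u + u ^ 2 / 2 := by positivity
  rw [Real.exp_neg]
  calc (Real.exp u)⁻¹ ≤ (1 + u + u ^ 2 / 2)⁻¹ := inv_anti₀ h2 h1
    _ ≤ 1 - u + u ^ 2 / 2 := by
        rw [inv_le_iff_one_le_mul₀ h2]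
        nlinarith [sq_nonneg (u ^ 2)]

lemma d_lower {k : ℕ} (hk : 4 ≤ k) :
    2.98 ≤ Real.log (Real.pi ^ 2 * (4 * k + 1) / 2) - Real.log k := by
  have hk' : (4 : ℝ) ≤ k := by exact_mod_cast hk
  have hk0 : (0 : ℝ) < k := by linarith
  rw [← Real.log_div (by positivity) hk0.ne', Real.le_log_iff_exp_le (by positivity)]
  have h1 : Real.exp 2.98 ≤ 19.7 := by
    have e : (2.98 : ℝ) = 3 * 1 + -0.02 := by norm_num
    rw [e, Real.exp_add, Real.exp_mul]
    have h2 : Real.exp (-0.02) ≤ 1 - 0.02 + 0.02 ^ 2 / 2 := exp_neg_le (by norm_num)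
    have h3 := Real.exp_one_lt_d9
    have h4 : Real.exp 3 ^ (1 : ℝ) = Real.exp 1 ^ 3 := by
      rw [Real.rpow_one, ← Real.exp_nat_mul]; norm_num
    rw [h4]
    have h5 : Real.exp 1 ^ 3 ≤ 2.7182818286 ^ 3 := by
      have := Real.exp_pos 1
      gcongr
    calc Real.exp 1 ^ 3 * Real.exp (-0.02) ≤ 2.7182818286 ^ 3 * (1 - 0.02 + 0.02 ^ 2 / 2) := by
          gcongr
      _ ≤ 19.7 := by norm_num
  have h6 : (19.7 : ℝ) ≤ Real.pi ^ 2 * (4 * k + 1) / 2 / k := by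
    rw [le_div_iff₀ hk0, le_div_iff₀ two_pos]
    have h7 := Real.pi_gt_d4
    have h8 : (9.869 : ℝ) ≤ Real.pi ^ 2 := by nlinarith
    nlinarith
  linarith

lemma d_upper {k : ℕ} (hk : 4 ≤ k) :
    Real.log (Real.pi ^ 2 * (4 * k + 1) / 2) - Real.log k ≤ 3.05 := by
  have hk' : (4 : ℝ) ≤ k := by exact_mod_cast hk
  have hk0 : (0 : ℝ) < k := by linarith
  rw [← Real.log_div (by positivity) hk0.ne', Real.log_le_iff_le_exp (by positivity)]
  have h1 : 21 ≤ Real.exp 3.05 := by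
    have e : (3.05 : ℝ) = 3 * 1 + 0.05 := by norm_num
    rw [e, Real.exp_add, Real.exp_mul]
    have h2 : 1 + 0.05 + 0.05 ^ 2 / 2 ≤ Real.exp 0.05 :=
      Real.quadratic_le_exp_of_nonneg (by norm_num)
    have h3 := Real.exp_one_gt_d9
    have h4 : Real.exp 3 ^ (1 : ℝ) = Real.exp 1 ^ 3 := by
      rw [Real.rpow_one, ← Real.exp_nat_mul]; norm_num
    rw [h4]
    have h5 : (2.7182818283 : ℝ) ^ 3 ≤ Real.exp 1 ^ 3 := by gcongr
    calc (21 : ℝ) ≤ 2.7182818283 ^ 3 * (1 + 0.05 + 0.05 ^ 2 / 2) := by norm_num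
      _ ≤ Real.exp 1 ^ 3 * Real.exp 0.05 := by gcongr
  have h6 : Real.pi ^ 2 * (4 * k + 1) / 2 / k ≤ (21 : ℝ) := by
    rw [div_le_iff₀ hk0, div_le_iff₀ two_pos]
    have h7 := Real.pi_lt_d4
    have h7' := Real.pi_pos
    have h8 : Real.pi ^ 2 ≤ (9.87 : ℝ) := by nlinarith
    nlinarith
  linarith

lemma log_le_sqrt {k : ℕ} (hk : 4 ≤ k) : Real.log k ≤ Real.sqrt k / 2 + 0.773 := by
  have hk0 : (0 : ℝ) < k := by
    have : (4 : ℝ) ≤ k := by exact_mod_cast hk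
    linarith
  have hs : 0 < Real.sqrt k := Real.sqrt_pos.mpr hk0
  have h1 := Real.log_le_sub_one_of_pos (show 0 < Real.sqrt k / 4 by positivity)
  rw [Real.log_div hs.ne' (by norm_num), Real.log_sqrt hk0.le] at h1
  have h2 : Real.log 4 = 2 * Real.log 2 := by
    rw [show (4 : ℝ) = 2 ^ 2 by norm_num, Real.log_pow]; norm_num
  have h3 := Real.log_two_lt_d9
  linarith

lemma log_ineq {k : ℕ} (hk : 4 ≤ k) :
    (4 * (k : ℝ) + 1) * (2 + Real.log k) <
      4 * k * (1 + Real.log (Real.pi ^ 2 * (4 * k + 1) / 2) -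
        Real.log (Real.pi ^ 2 * (4 * k + 1) / 2) ^ 2 / (2 * (2 * k - 1))) := by
  have hk' : (4 : ℝ) ≤ k := by exact_mod_cast hk
  have hk0 : (0 : ℝ) < k := by linarith
  set ℓ := Real.log k with hℓ
  set D := Real.log (Real.pi ^ 2 * (4 * k + 1) / 2) with hD
  have h1 := d_lower hk
  have h2 := d_upper hk
  have h3 := log_le_sqrt hk
  have hℓ0 : 0 ≤ ℓ := Real.log_nonneg (by linarith)
  set s := Real.sqrt k with hs
  have hs2 : s ^ 2 = k := Real.sq_sqrt hk0.le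
  have hs0 : 0 ≤ s := Real.sqrt_nonneg _
  have hs4 : 2 ≤ s := by
    rw [hs]
    exact Real.le_sqrt_of_sq_le (by linarith)
  have hD0 : 0 ≤ D := by linarith
  have hDs : D ≤ s / 2 + 3.823 := by linarith
  have h4 : D ^ 2 ≤ (s / 2 + 3.823) ^ 2 := by gcongr
  have h5 : 4 * (k : ℝ) * (D ^ 2 / (2 * (2 * k - 1))) ≤ 8 / 7 * D ^ 2 := by
    have h6 : (0 : ℝ) < 2 * (2 * k - 1) := by linarith
    rw [← mul_div_assoc, div_le_iff₀ h6]
    nlinarith [sq_nonneg D]
  have h7 : 4 * (k : ℝ) * (1 + D - D ^ 2 / (2 * (2 * k - 1))) =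
      4 * k * (1 + D) - 4 * k * (D ^ 2 / (2 * (2 * k - 1))) := by ring
  rw [h7]
  have h8 : 4 * (k : ℝ) * (1 + D) ≥ 4 * k * (1 + ℓ + 2.98) := by
    have : 1 + ℓ + 2.98 ≤ 1 + D := by linarith
    have h9 : (0 : ℝ) ≤ 4 * k := by linarith
    exact mul_le_mul_of_nonneg_left this h9
  nlinarith

/-- **General bound**, `k ≥ 4`. -/
theorem general_bound (k r : ℕ) (hk : 4 ≤ k) (hr : r = 2 * k ∨ r = 2 * k - 1) :
    ∀ᶠ N : ℕ in atTop, (maxSize r N : ℝ) ^ r ≤
      4 ^ k * (k.factorial * (r - k).factorial) /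
        ((Nat.centralBinom k : ℝ) * (1 + (2 + Real.log k) / (6 * k))) * N := by
  have hk' : (4 : ℝ) ≤ k := by exact_mod_cast hk
  have hk0 : (0 : ℝ) < k := by linarith
  have hk1 : 1 ≤ k := by omega
  obtain ⟨p, hp⟩ : ∃ p, p + 1 = 2 * k := ⟨2 * k - 1, by omega⟩
  have hp0 : p ≠ 0 := by omega
  have hpk : (p : ℝ) = 2 * k - 1 := by
    have : ((p : ℝ) + 1) = 2 * k := by exact_mod_cast hp
    linarith
  have hp' : (0 : ℝ) < p := by rw [hpk]; linarith
  set b : ℝ := 2 / (Real.pi ^ 2 * (4 * k + 1)) with hb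
  have hb0 : 0 < b := by positivity
  set D := Real.log (Real.pi ^ 2 * (4 * k + 1) / 2) with hD
  have hbD : b = Real.exp (-D) := by
    rw [hD, Real.exp_neg, Real.exp_log (by positivity), hb, inv_div]
  set ρ : ℝ := Real.exp (-(D / p)) with hρ
  have hρp : ρ ^ p = b := by
    rw [hρ, hbD, ← Real.exp_nat_mul]
    congr 1
    field_simp
  have hρ0 : 0 ≤ ρ := (Real.exp_pos _).le
  have hℓ0 : 0 ≤ Real.log k := Real.log_nonneg (by linarith)
  have hD0 : 0 ≤ D := by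
    have := d_lower hk
    linarith
  -- the limit inequality
  have hv : 1 + D - D ^ 2 / (2 * (2 * k - 1)) ≤ 2 * k - p * ρ := by
    have h1 := exp_neg_le (u := D / p) (by positivity)
    have h2 : (p : ℝ) * ρ ≤ p * (1 - D / p + (D / p) ^ 2 / 2) :=
      mul_le_mul_of_nonneg_left h1 hp'.le
    have h3 : (p : ℝ) * (1 - D / p + (D / p) ^ 2 / 2) = p - D + D ^ 2 / (2 * p) := by
      field_simp
    rw [h3, hpk] at h2
    rw [hpk]
    linarith
  have hlim : (2 + Real.log k) / (6 * k) < 2 * b * (Real.pi ^ 2 / 6) * (2 * k - p * ρ) := by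
    have h1 := log_ineq hk
    have h2 : 2 * b * (Real.pi ^ 2 / 6) = 2 / (3 * (4 * k + 1)) := by
      rw [hb]
      have := Real.pi_ne_zero
      field_simp
      norm_num
    rw [h2]
    calc (2 + Real.log k) / (6 * k) < 2 / (3 * (4 * k + 1)) *
          (1 + D - D ^ 2 / (2 * (2 * k - 1))) := by
          rw [div_mul_eq_mul_div, div_lt_div_iff₀ (by positivity) (by positivity)]
          nlinarith
      _ ≤ _ := by gcongr
  have hten : Tendsto (fun M => 2 * b * HM M * (2 * k - p * ρ)) atTop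
      (nhds (2 * b * (Real.pi ^ 2 / 6) * (2 * k - p * ρ))) := by
    exact (HM_tendsto.const_mul (2 * b)).mul_const _
  obtain ⟨M, hM⟩ := (hten.eventually (lt_mem_nhds hlim)).exists
  have hr' : r = 2 * k ∨ (r = 2 * k - 1 ∧ 2 ≤ k) := by
    rcases hr with h | h
    · exact Or.inl h
    · exact Or.inr ⟨h, by omega⟩
  have hsig := sig_pos k
  have hpos : 0 < 1 + (2 + Real.log k) / (6 * k) := by positivity
  refine maxSize_le_integral k r (M + 1) hk1 hr'
    (sig (2 * k) * (1 + 2 * b * HM M * (2 * k - p * ρ))) (mul_pos hsig (by linarith))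
    (fun s x hs hx => integral_ge k p hk1 hp M s x hs hx b hb ρ hρ0 hρp) _ ?_
  have hF : (0 : ℝ) < ((k.factorial * (r - k).factorial : ℕ) : ℝ) := by
    exact_mod_cast Nat.mul_pos (Nat.factorial_pos _) (Nat.factorial_pos _)
  have hcb : (0 : ℝ) < (Nat.centralBinom k : ℝ) := by exact_mod_cast Nat.centralBinom_pos k
  rw [sig_even]
  have e : 4 ^ k * ((k.factorial : ℝ) * ((r - k).factorial : ℝ)) /
      ((Nat.centralBinom k : ℝ) * (1 + (2 + Real.log k) / (6 * k))) *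
      ((Nat.centralBinom k : ℝ) / 4 ^ k * (1 + 2 * b * HM M * (2 * k - p * ρ))) =
      ((k.factorial * (r - k).factorial : ℕ) : ℝ) *
        ((1 + 2 * b * HM M * (2 * k - p * ρ)) / (1 + (2 + Real.log k) / (6 * k))) := by
    push_cast
    field_simp
  rw [e]
  have h1 : 1 < (1 + 2 * b * HM M * (2 * k - p * ρ)) / (1 + (2 + Real.log k) / (6 * k)) := by
    rw [lt_div_iff₀ hpos]
    linarith
  nlinarith

end Pool.Agent.H318.Br
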