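import Pool.Agent.H318.Br.MainL

/-! The main reduction with integrals instead of sums. -/

namespace Pool.Agent.H318.Br

open Finset Filter

/-- the cosine average -/
noncomputable def gav (s : Finset ℕ) (x : ℕ → ℝ) (ξ : ℝ) : ℝ :=
  (∑ a ∈ s, Real.cos (2 * Real.pi * ξ * x a)) / s.card

lemma continuous_gav (s : Finset ℕ) (x : ℕ → ℝ) : Continuous (gav s x) := by
  unfold gav
  fun_prop

lemma abs_gav_le (s : Finset ℕ) (x : ℕ → ℝ) (ξ : ℝ) : |gav s x ξ| ≤ 1 := by
  unfold gav
  rw [abs_div, Nat.abs_cast]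
  rcases eq_or_lt_of_le (Nat.cast_nonneg (α := ℝ) s.card) with h | h
  · rw [← h]; simp
  · rw [div_le_one h]
    calc |∑ a ∈ s, Real.cos (2 * Real.pi * ξ * x a)|
        ≤ ∑ a ∈ s, |Real.cos (2 * Real.pi * ξ * x a)| := abs_sum_le_sum_abs _ _
      _ ≤ ∑ _a ∈ s, (1 : ℝ) := sum_le_sum fun a _ => Real.abs_cos_le_one _
      _ = s.card := by simp

lemma gav_lip (s : Finset ℕ) (x : ℕ → ℝ) (hx : ∀ a ∈ s, |x a| ≤ 1 / 2) (ξ η : ℝ) :
    |gav s x ξ - gav s x η| ≤ Real.pi * |ξ - η| := by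
  unfold gav
  rw [← sub_div, ← sum_sub_distrib, abs_div, Nat.abs_cast]
  rcases eq_or_lt_of_le (Nat.cast_nonneg (α := ℝ) s.card) with h | h
  · rw [← h, div_zero]
    have := Real.pi_pos
    positivity
  · rw [div_le_iff₀ h]
    calc |∑ a ∈ s, (Real.cos (2 * Real.pi * ξ * x a) - Real.cos (2 * Real.pi * η * x a))|
        ≤ ∑ a ∈ s, |Real.cos (2 * Real.pi * ξ * x a) - Real.cos (2 * Real.pi * η * x a)| :=
          abs_sum_le_sum_abs _ _
      _ ≤ ∑ _a ∈ s, Real.pi * |ξ - η| := by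
          refine sum_le_sum fun a ha => ?_
          refine (Real.abs_cos_sub_cos_le _ _).trans ?_
          have e : 2 * Real.pi * ξ * x a - 2 * Real.pi * η * x a =
              2 * Real.pi * (ξ - η) * x a := by ring
          rw [e, abs_mul, abs_mul, abs_of_pos Real.two_pi_pos]
          have h1 := hx a ha
          have h2 : 0 ≤ 2 * Real.pi * |ξ - η| := by
            have := Real.pi_pos
            positivity
          calc 2 * Real.pi * |ξ - η| * |x a| ≤ 2 * Real.pi * |ξ - η| * (1 / 2) := by gcongr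
            _ = Real.pi * |ξ - η| := by ring
      _ = Real.pi * |ξ - η| * s.card := by
          rw [sum_const, nsmul_eq_mul]; ring

lemma pow_lip (m : ℕ) (t u : ℝ) (ht : |t| ≤ 1) (hu : |u| ≤ 1) :
    |t ^ m - u ^ m| ≤ m * |t - u| := by
  induction m with
  | zero => simp
  | succ m ih =>
    have e : t ^ (m + 1) - u ^ (m + 1) = t * (t ^ m - u ^ m) + (t - u) * u ^ m := by ring
    rw [e]
    calc |t * (t ^ m - u ^ m) + (t - u) * u ^ m|
        ≤ |t * (t ^ m - u ^ m)| + |(t - u) * u ^ m| := abs_add_le _ _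
      _ = |t| * |t ^ m - u ^ m| + |t - u| * |u| ^ m := by rw [abs_mul, abs_mul, abs_pow]
      _ ≤ 1 * (m * |t - u|) + |t - u| * 1 := by
          have h1 : |u| ^ m ≤ 1 := pow_le_one₀ (abs_nonneg _) hu
          gcongr
      _ = ((m + 1 : ℕ) : ℝ) * |t - u| := by push_cast; ring

lemma riemann (s : Finset ℕ) (x : ℕ → ℝ) (hx : ∀ a ∈ s, |x a| ≤ 1 / 2) (k R L : ℕ) (hL : 0 < L) :
    ∫ ξ in (-(R : ℝ))..R, gav s x ξ ^ (2 * k) ≤
      (∑ j ∈ Icc (-((R * L : ℕ) : ℤ)) ((R * L : ℕ) : ℤ), gav s x (j / L) ^ (2 * k)) / L +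
        4 * R * k * Real.pi / L := by
  have hL' : (0 : ℝ) < L := by exact_mod_cast hL
  set p : ℕ → ℝ := fun i => -(R : ℝ) + i / L with hp
  have hint : ∀ a b : ℝ, IntervalIntegrable (fun ξ => gav s x ξ ^ (2 * k)) MeasureTheory.volume a b :=
    fun a b => ((continuous_gav s x).pow _).intervalIntegrable a b
  have h1 : ∑ i ∈ range (2 * R * L), ∫ ξ in (p i)..(p (i + 1)), gav s x ξ ^ (2 * k) =
      ∫ ξ in (-(R : ℝ))..R, gav s x ξ ^ (2 * k) := by
    rw [intervalIntegral.sum_integral_adjacent_intervals (fun i _ => hint _ _)]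
    have e0 : p 0 = -(R : ℝ) := by simp [hp]
    have e1 : p (2 * R * L) = R := by
      simp only [hp]
      push_cast
      field_simp
      ring
    rw [e0, e1]
  rw [← h1]
  have h2 : ∀ i ∈ range (2 * R * L), ∫ ξ in (p i)..(p (i + 1)), gav s x ξ ^ (2 * k) ≤
      (gav s x (p i) ^ (2 * k) + 2 * k * Real.pi / L) / L := by
    intro i _
    have hpi : p (i + 1) = p i + 1 / L := by
      simp only [hp]
      push_cast
      ring
    have hle : p i ≤ p (i + 1) := by
      rw [hpi]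
      have : (0 : ℝ) < 1 / L := by positivity
      linarith
    have h3 : ∫ ξ in (p i)..(p (i + 1)), gav s x ξ ^ (2 * k) ≤
        ∫ _ξ in (p i)..(p (i + 1)), (gav s x (p i) ^ (2 * k) + 2 * k * Real.pi / L) := by
      refine intervalIntegral.integral_mono_on hle (hint _ _) (by simp) fun ξ hξ => ?_
      have h4 := pow_lip (2 * k) (gav s x ξ) (gav s x (p i)) (abs_gav_le _ _ _) (abs_gav_le _ _ _)
      have h5 := gav_lip s x hx ξ (p i)
      have h6 : |ξ - p i| ≤ 1 / L := by
        rw [abs_of_nonneg (by linarith [hξ.1])]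
        have := hξ.2
        rw [hpi] at this
        linarith
      have h7 : ((2 * k : ℕ) : ℝ) * |gav s x ξ - gav s x (p i)| ≤ 2 * k * Real.pi / L := by
        calc ((2 * k : ℕ) : ℝ) * |gav s x ξ - gav s x (p i)|
            ≤ ((2 * k : ℕ) : ℝ) * (Real.pi * (1 / L)) := by
              have h8 := Real.pi_pos
              refine mul_le_mul_of_nonneg_left (h5.trans ?_) (Nat.cast_nonneg _)
              exact mul_le_mul_of_nonneg_left h6 h8.le
          _ = 2 * k * Real.pi / L := by push_cast; ring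
      have h9 := le_abs_self (gav s x ξ ^ (2 * k) - gav s x (p i) ^ (2 * k))
      linarith
    refine h3.trans (le_of_eq ?_)
    rw [intervalIntegral.integral_const, hpi]
    simp only [add_sub_cancel_left, smul_eq_mul]
    ring
  refine (sum_le_sum h2).trans ?_
  rw [← sum_div, sum_add_distrib, add_div]
  have h10 : ∑ i ∈ range (2 * R * L), gav s x (p i) ^ (2 * k) ≤
      ∑ j ∈ Icc (-((R * L : ℕ) : ℤ)) ((R * L : ℕ) : ℤ), gav s x (j / L) ^ (2 * k) := by
    have e : ∀ i ∈ range (2 * R * L), gav s x (p i) ^ (2 * k) =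
        gav s x ((((i : ℤ) - (R * L : ℕ) : ℤ) : ℝ) / L) ^ (2 * k) := by
      intro i _
      congr 2
      simp only [hp]
      push_cast
      field_simp
      ring
    rw [sum_congr rfl e]
    have hinj : ∀ i ∈ range (2 * R * L), ∀ j ∈ range (2 * R * L),
        ((i : ℤ) - (R * L : ℕ) : ℤ) = (j : ℤ) - (R * L : ℕ) → i = j := by
      intro i _ j _ h
      omega
    rw [← sum_image (g := fun i : ℕ => ((i : ℤ) - (R * L : ℕ) : ℤ))
      (f := fun j : ℤ => gav s x ((j : ℝ) / L) ^ (2 * k)) hinj]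
    refine sum_le_sum_of_subset_of_nonneg ?_ ?_
    · intro j hj
      rw [mem_image] at hj
      obtain ⟨i, hi, rfl⟩ := hj
      rw [mem_range] at hi
      rw [mem_Icc]
      have hi' : (i : ℤ) < 2 * (R * L : ℕ) := by
        have : i < 2 * (R * L) := by rw [← mul_assoc]; exact hi
        exact_mod_cast this
      constructor <;> omega
    · intro j _ _
      rw [pow_mul]; positivity
  have h11 : (∑ _i ∈ range (2 * R * L), 2 * k * Real.pi / L) / L = 4 * R * k * Real.pi / L := by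
    rw [sum_const, card_range, nsmul_eq_mul]
    push_cast
    field_simp
    ring
  rw [h11]
  gcongr

/-- **Main reduction**, integral form. -/
theorem maxSize_le_integral (k r R : ℕ) (hk : 1 ≤ k) (hr : r = 2 * k ∨ (r = 2 * k - 1 ∧ 2 ≤ k))
    (lam : ℝ) (hlam : 0 < lam) (hI : ∀ (s : Finset ℕ) (x : ℕ → ℝ), s.Nonempty →
      (∀ a ∈ s, |x a| ≤ 1 / 2) → lam ≤ ∫ ξ in (-(R : ℝ))..R, gav s x ξ ^ (2 * k))
    (C : ℝ) (hC : (k.factorial * (r - k).factorial : ℕ) < C * lam) :
    ∀ᶠ N : ℕ in atTop, (maxSize r N : ℝ) ^ r ≤ C * N := by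
  set F : ℝ := ((k.factorial * (r - k).factorial : ℕ) : ℝ) with hF
  have hF0 : 0 < F := by
    rw [hF]
    exact_mod_cast Nat.mul_pos (Nat.factorial_pos _) (Nat.factorial_pos _)
  have hC0 : 0 < C := by
    by_contra hc
    push Not at hc
    have : C * lam ≤ 0 := mul_nonpos_of_nonpos_of_nonneg hc hlam.le
    linarith
  have hgap : 0 < C * lam - F := by linarith
  obtain ⟨L₀, hL₀⟩ := exists_nat_gt (C * (4 * R * k * Real.pi) / (C * lam - F))
  obtain ⟨L₁, hL₁⟩ := exists_nat_gt (4 * R * k * Real.pi / lam)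
  set L := max (max L₀ L₁) k with hLdef
  have hkL : k ≤ L := le_max_right _ _
  have hLpos : 0 < L := lt_of_lt_of_le hk hkL
  have hL' : (0 : ℝ) < L := by exact_mod_cast hLpos
  have hLa : C * (4 * R * k * Real.pi) / (C * lam - F) < L :=
    lt_of_lt_of_le hL₀ (by exact_mod_cast (le_max_left _ _).trans (le_max_left _ _))
  have hLb : 4 * R * k * Real.pi / lam < L :=
    lt_of_lt_of_le hL₁ (by exact_mod_cast (le_max_right _ _).trans (le_max_left _ _))
  rw [div_lt_iff₀ hgap] at hLa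
  rw [div_lt_iff₀ hlam] at hLb
  refine maxSize_le_period k r (R * L) L hk hkL hr (L * lam - 4 * R * k * Real.pi) (by linarith)
    (fun s y hs hy => ?_) C (by linarith)
  set x : ℕ → ℝ := fun a => L * y a / (2 * Real.pi) with hx
  have hxa : ∀ a ∈ s, |x a| ≤ 1 / 2 := by
    intro a ha
    have h1 := hy a ha
    simp only [hx]
    rw [abs_div, abs_mul, abs_of_pos hL', abs_of_pos Real.two_pi_pos,
      div_le_div_iff₀ Real.two_pi_pos two_pos]
    have h2 : (L : ℝ) * |y a| ≤ L * (Real.pi / L) := by gcongr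
    have h3 : (L : ℝ) * (Real.pi / L) = Real.pi := by field_simp
    linarith
  have h1 := hI s x hs hxa
  have h2 := riemann s x hxa k R L hLpos
  have h3 : ∀ j ∈ Icc (-((R * L : ℕ) : ℤ)) ((R * L : ℕ) : ℤ),
      gav s x (j / L) ^ (2 * k) = ((∑ a ∈ s, Real.cos (j * y a)) / s.card) ^ (2 * k) := by
    intro j _
    unfold gav
    congr 2
    refine sum_congr rfl fun a _ => ?_
    congr 1
    simp only [hx]
    field_simp
  rw [sum_congr rfl h3] at h2
  have h4 := h1.trans h2
  rw [← add_div, le_div_iff₀ hL'] at h4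
  linarith

end Pool.Agent.H318.Br
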