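import Pool.Agent.H318.Br.Main
import Pool.Agent.H318.Br.Check3

/-! The case `k = 3`: a lower bound for sixth power sums of cosine averages. -/

namespace Pool.Agent.H318.Br

open Finset

/-- `∑ v_i T (j + i)` -/
noncomputable def tsum' (T : ℕ → ℝ) : ℕ → List ℤ → ℝ
  | _, [] => 0
  | j, v :: vs => v * T j + tsum' T (j + 1) vs

/-- sum of sixth powers -/
def pow6 : List ℤ → ℤ
  | [] => 0
  | w :: ws => w ^ 6 + pow6 ws

lemma csum_eq (θ : ℝ) (vs : List ℤ) : ∀ j, csum θ j vs = tsum' (fun j => Real.cos (j * θ)) j vs := by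
  induction vs with
  | nil => intro j; rfl
  | cons v vs ih => intro j; simp only [csum, tsum', ih]

lemma csum_neg (θ : ℝ) (vs : List ℤ) : ∀ j, csum (-θ) j vs = csum θ j vs := by
  induction vs with
  | nil => intro j; rfl
  | cons v vs ih =>
    intro j
    simp only [csum, ih]
    rw [mul_neg, Real.cos_neg]

lemma csum_abs (θ : ℝ) (vs : List ℤ) (j : ℕ) : csum |θ| j vs = csum θ j vs := by
  rcases abs_choice θ with h | h
  · rw [h]
  · rw [h, csum_neg]

lemma tsum'_avg (s : Finset ℕ) (y : ℕ → ℝ) (n : ℝ) (vs : List ℤ) : ∀ j,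
    tsum' (fun j => (∑ a ∈ s, Real.cos (j * y a)) / n) j vs =
      (∑ a ∈ s, csum (y a) j vs) / n := by
  induction vs with
  | nil => intro j; simp [tsum', csum]
  | cons v vs ih =>
    intro j
    simp only [csum, tsum', ih, sum_add_distrib, ← mul_sum]
    ring

lemma six_tangent (t w : ℝ) : 6 * w ^ 5 * t - 5 * w ^ 6 ≤ t ^ 6 := by
  have h : t ^ 6 - (6 * w ^ 5 * t - 5 * w ^ 6) =
      (t - w) ^ 2 * ((t ^ 2 + t * w) ^ 2 + 2 * (t * w + w ^ 2) ^ 2 + 3 * w ^ 4) := by ring
  have h2 : 0 ≤ (t - w) ^ 2 * ((t ^ 2 + t * w) ^ 2 + 2 * (t * w + w ^ 2) ^ 2 + 3 * w ^ 4) := by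
    positivity
  linarith

lemma tangent_list (T : ℕ → ℝ) (D : ℝ) (ws : List ℤ) : ∀ j,
    3 * D * tsum' T j (ws.map fun w => 2 * w ^ 5) - 5 * pow6 ws ≤
      ∑ i ∈ range ws.length, (D * T (j + i)) ^ 6 := by
  induction ws with
  | nil => intro j; simp [tsum', pow6]
  | cons w ws ih =>
    intro j
    rw [List.map_cons, List.length_cons, sum_range_succ']
    simp only [tsum', pow6]
    have h1 := ih (j + 1)
    have h2 := six_tangent (D * T j) w
    have e : ∑ i ∈ range ws.length, (D * T (j + 1 + i)) ^ 6 =
        ∑ i ∈ range ws.length, (D * T (j + (i + 1))) ^ 6 := by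
      refine sum_congr rfl fun i _ => ?_
      rw [show j + 1 + i = j + (i + 1) by ring]
    rw [e] at h1
    push_cast
    rw [add_zero]
    linarith

theorem vData_eq : wData.map (fun w => 2 * w ^ 5) = vData := by decide +kernel

theorem m2sum_vData : m2sum 1 vData = 743730601662644649138782496 := by decide +kernel

theorem pow6_wData : pow6 wData = 139234122885782162388833369724 := by decide +kernel

theorem length_vData : vData.length = 120 := by decide +kernel

theorem length_wData : wData.length = 120 := by decide +kernel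

/-- the certified lower bound -/
theorem g_bound (θ : ℝ) (hθ : |θ| ≤ Real.pi / 3) :
    (12783852048096369373147223 : ℝ) ≤ 10 ^ 25 + csum θ 1 vData := by
  have h := check_nodeData
  rw [force_eq, force_eq] at h
  have hQJ : (Int.ofNat 296713632079227560436914419669935447609090394405723730354520087795523051493116464224682865885282626761811255387085511876635350220644908626602288566047950415862353344953690862369463695163894939555581248116893472971914793660661444636617478640060060051935236357226054400163726834522899081984322209515746385321113638562766244473996873178471187804100731295655430322017808055294437832301655241577967847897759184302058916271227219198495672004695286866455289203179861816057402371947523239644815397471492799912717321887549384513066339137618254354852886239214968917341890223883060542004515669759738480175902864539207447269879374152927517489912978369872296613482884809320256930244488064321317266541811338288132297760306294898038113601 : ℤ) = 1048583 ^ vData.length := by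
    rw [length_vData]; norm_num
  have h' := check_sound vData 10000000000000000000000000 1048583 _ 12783852048096369373147223
    (by norm_num) hQJ nodeData 1048583
    (evalAux 1048583 (1048583 * 1048583) 1048583 vData 1 1048583 10000000000000000000000000) (by
      rw [m2sum_vData]
      exact h) (by norm_num) le_rfl (by
      have := evalAux_eq 1048583 1048583 0 (by simp) vData 0 1 1048583
        10000000000000000000000000 10000000000000000000000000 (by simp) (by simp) (by simp)
      simpa using this)
    |θ| (by simp) hθ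
  rw [csum_abs] at h'
  have e : (10 : ℝ) ^ 25 = 10000000000000000000000000 := by norm_num
  rw [e]
  exact_mod_cast h'

theorem six_bound (s : Finset ℕ) (y : ℕ → ℝ) (hs : s.Nonempty)
    (hy : ∀ a ∈ s, |y a| ≤ Real.pi / (3 : ℕ)) :
    (1.27797 : ℝ) ≤ ∑ j ∈ Icc (-((120 : ℕ) : ℤ)) ((120 : ℕ) : ℤ),
      ((∑ a ∈ s, Real.cos (j * y a)) / s.card) ^ (2 * 3) := by
  set T : ℕ → ℝ := fun j => (∑ a ∈ s, Real.cos (j * y a)) / s.card with hT
  have hc : (0 : ℝ) < s.card := by exact_mod_cast card_pos.mpr hs
  have hev : Function.Even (fun j : ℤ => ((∑ a ∈ s, Real.cos (j * y a)) / s.card) ^ (2 * 3)) := by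
    intro j
    simp only [Int.cast_neg, neg_mul, Real.cos_neg]
  rw [sum_Icc_of_even_eq_range hev 120, sum_range_succ']
  have e0 : ((∑ a ∈ s, Real.cos (((0 : ℤ) : ℝ) * y a)) / s.card) ^ (2 * 3) = 1 := by
    simp [hc.ne']
  have e1 : ∀ i ∈ range 120,
      ((∑ a ∈ s, Real.cos (((((i + 1 : ℕ) : ℤ)) : ℝ) * y a)) / s.card) ^ (2 * 3) =
        T (1 + i) ^ 6 := by
    intro i _
    simp only [hT]
    push_cast
    rw [add_comm (i : ℝ) 1]
  rw [sum_congr rfl e1]
  have e2 : ((∑ a ∈ s, Real.cos (((((0 : ℕ) : ℤ)) : ℝ) * y a)) / s.card) ^ (2 * 3) = 1 := by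
    simp [hc.ne']
  rw [e0, e2]
  -- the certificate
  have h1 := tangent_list T (10 ^ 5) wData 1
  rw [vData_eq, pow6_wData, length_wData, tsum'_avg s y s.card vData 1] at h1
  have h2 : (12783852048096369373147223 : ℝ) - 10 ^ 25 ≤ (∑ a ∈ s, csum (y a) 1 vData) / s.card := by
    rw [le_div_iff₀ hc]
    have h3 : ∑ _a ∈ s, ((12783852048096369373147223 : ℝ) - 10 ^ 25) ≤
        ∑ a ∈ s, csum (y a) 1 vData := by
      refine sum_le_sum fun a ha => ?_
      have := g_bound (y a) (by simpa using hy a ha)
      linarith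
    rw [sum_const, nsmul_eq_mul] at h3
    linarith
  have h4 : ∑ i ∈ range 120, (10 ^ 5 * T (1 + i)) ^ 6 = 10 ^ 30 * ∑ i ∈ range 120, T (1 + i) ^ 6 := by
    rw [mul_sum]
    refine sum_congr rfl fun i _ => ?_
    ring
  rw [h4] at h1
  push_cast at h1
  rw [two_nsmul]
  norm_num at h1 h2 ⊢
  linarith

end Pool.Agent.H318.Br
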