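import Mathlib

/-! The integrals of powers of the cosine, and related inequalities. -/

namespace Pool.Agent.H318.Br

open Finset

/-- `∫ cos^p (π η)` over `[-1/2, 1/2]` -/
noncomputable def sig (p : ℕ) : ℝ := ∫ η in (-(1 / 2) : ℝ)..(1 / 2), Real.cos (Real.pi * η) ^ p

lemma sig_eq (p : ℕ) :
    sig p = Real.pi⁻¹ * ∫ y in (-(Real.pi / 2))..(Real.pi / 2), Real.cos y ^ p := by
  unfold sig
  rw [intervalIntegral.integral_comp_mul_left (fun y => Real.cos y ^ p) Real.pi_ne_zero]
  rw [smul_eq_mul]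
  congr 2 <;> ring

lemma sig_zero : sig 0 = 1 := by
  unfold sig
  simp
  norm_num

lemma sig_rec (n : ℕ) : sig (n + 2) = (n + 1) / (n + 2) * sig n := by
  rw [sig_eq, sig_eq, integral_cos_pow]
  simp
  ring

lemma sig_even (k : ℕ) : sig (2 * k) = (Nat.centralBinom k : ℝ) / 4 ^ k := by
  induction k with
  | zero => simp [sig_zero]
  | succ k ih =>
    rw [show 2 * (k + 1) = 2 * k + 2 by ring, sig_rec, ih]
    have h := Nat.succ_mul_centralBinom_succ k
    have h' : ((k : ℝ) + 1) * (Nat.centralBinom (k + 1) : ℝ) = 2 * (2 * k + 1) * Nat.centralBinom k := by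
      exact_mod_cast h
    have e : (Nat.centralBinom (k + 1) : ℝ) = 2 * (2 * k + 1) * Nat.centralBinom k / (k + 1) := by
      rw [eq_div_iff (by positivity)]
      linarith
    rw [e]
    push_cast
    field_simp
    ring

lemma cos_nonneg' {η : ℝ} (h1 : -(1 / 2) ≤ η) (h2 : η ≤ 1 / 2) : 0 ≤ Real.cos (Real.pi * η) := by
  have := Real.pi_pos
  apply Real.cos_nonneg_of_mem_Icc
  constructor <;> nlinarith

/-- `∫ cos^p (π η) cos (2 π η x)` over `[-1/2, 1/2]` -/
noncomputable def Fx (p : ℕ) (x : ℝ) : ℝ :=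
  ∫ η in (-(1 / 2) : ℝ)..(1 / 2), Real.cos (Real.pi * η) ^ p * Real.cos (2 * Real.pi * η * x)

/-- a convexity inequality for the cosine -/
lemma cos_mul_ge {X y : ℝ} (hX0 : 0 ≤ X) (hX1 : X ≤ 1) (hy0 : 0 ≤ y) (hy1 : y ≤ Real.pi / 2) :
    Real.cos y + (1 - X ^ 2) * (y / 2) * Real.sin y ≤ Real.cos (X * y) := by
  have hanti : AntitoneOn (fun X : ℝ => Real.cos (X * y) - Real.cos y -
      (1 - X ^ 2) * (y / 2) * Real.sin y) (Set.Icc 0 1) := by
    have hd : ∀ X : ℝ, HasDerivAt (fun X : ℝ => Real.cos (X * y) - Real.cos y -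
        (1 - X ^ 2) * (y / 2) * Real.sin y) (-Real.sin (X * y) * y + X * y * Real.sin y) X := by
      intro X
      have h1 : HasDerivAt (fun X : ℝ => Real.cos (X * y)) (-Real.sin (X * y) * y) X := by
        have h0 : HasDerivAt (fun X : ℝ => X * y) y X := by
          have := (hasDerivAt_id' X).mul_const y
          rwa [one_mul] at this
        exact h0.cos
      have h2 : HasDerivAt (fun X : ℝ => (1 - X ^ 2) * (y / 2) * Real.sin y)
          (-(X * y * Real.sin y)) X := by
        have h3 : HasDerivAt (fun X : ℝ => 1 - X ^ 2) (-(2 * X)) X := by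
          have := (hasDerivAt_pow 2 X).const_sub 1
          simpa using this
        have h4 := (h3.mul_const (y / 2)).mul_const (Real.sin y)
        have e : -(2 * X) * (y / 2) * Real.sin y = -(X * y * Real.sin y) := by ring
        rwa [e] at h4
      have h5 := (h1.sub_const (Real.cos y)).sub h2
      have e : -Real.sin (X * y) * y - -(X * y * Real.sin y) =
          -Real.sin (X * y) * y + X * y * Real.sin y := by ring
      rwa [e] at h5
    apply antitoneOn_of_deriv_nonpos (convex_Icc 0 1)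
    · exact fun X _ => (hd X).continuousAt.continuousWithinAt
    · exact fun X _ => (hd X).differentiableAt.differentiableWithinAt
    · intro X hX
      rw [interior_Icc] at hX
      rw [(hd X).deriv]
      have h6 : X * Real.sin y ≤ Real.sin (X * y) := by
        have hc := strictConcaveOn_sin_Icc.concaveOn.2 (show (0 : ℝ) ∈ Set.Icc 0 Real.pi by
          constructor <;> linarith [Real.pi_pos]) (show y ∈ Set.Icc 0 Real.pi by
          constructor <;> linarith [Real.pi_pos]) (show 0 ≤ 1 - X by linarith [hX.2]) hX.1.le (by ring)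
        simpa using hc
      nlinarith
  have := hanti (show X ∈ Set.Icc (0 : ℝ) 1 from ⟨hX0, hX1⟩) (show (1 : ℝ) ∈ Set.Icc (0 : ℝ) 1 by
    simp) hX1
  simp only [one_mul, one_pow, sub_self, zero_mul] at this
  linarith

lemma cos_ge_of_abs {x η : ℝ} (hx : |x| ≤ 1 / 2) (h1 : -(1 / 2) ≤ η) (h2 : η ≤ 1 / 2) :
    Real.cos (Real.pi * η) + (1 - 4 * x ^ 2) * (Real.pi * η / 2) * Real.sin (Real.pi * η) ≤
      Real.cos (2 * Real.pi * η * x) := by
  have hpi := Real.pi_pos
  have h := cos_mul_ge (X := 2 * |x|) (y := Real.pi * |η|) (by positivity) (by linarith)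
    (by positivity) (by
      have : |η| ≤ 1 / 2 := abs_le.mpr ⟨h1, h2⟩
      nlinarith)
  have e1 : Real.cos (Real.pi * |η|) = Real.cos (Real.pi * η) := by
    rcases abs_choice η with h | h <;> rw [h]
    rw [mul_neg, Real.cos_neg]
  have e2 : Real.pi * |η| / 2 * Real.sin (Real.pi * |η|) =
      Real.pi * η / 2 * Real.sin (Real.pi * η) := by
    rcases abs_choice η with h | h <;> rw [h]
    rw [mul_neg, Real.sin_neg]
    ring
  have e3 : (1 - (2 * |x|) ^ 2) = 1 - 4 * x ^ 2 := by
    rw [mul_pow, sq_abs]; ring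
  have e4 : Real.cos (2 * |x| * (Real.pi * |η|)) = Real.cos (2 * Real.pi * η * x) := by
    rcases abs_choice η with h | h <;> rcases abs_choice x with h' | h' <;> rw [h, h']
    · ring_nf
    · rw [← Real.cos_neg]; ring_nf
    · rw [← Real.cos_neg]; ring_nf
    · ring_nf
  rw [e1, e3, e4, mul_assoc, e2, ← mul_assoc] at h
  exact h

lemma parts (p : ℕ) :
    ∫ η in (-(1 / 2) : ℝ)..(1 / 2), Real.cos (Real.pi * η) ^ p *
      ((Real.pi * η / 2) * Real.sin (Real.pi * η)) = sig (p + 1) / (2 * (p + 1)) := by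
  have hp : (0 : ℝ) < 2 * ((p : ℝ) + 1) := by positivity
  have hd : ∀ η : ℝ, HasDerivAt (fun η : ℝ => -(η * Real.cos (Real.pi * η) ^ (p + 1)) / (2 * (p + 1)))
      (Real.cos (Real.pi * η) ^ p * ((Real.pi * η / 2) * Real.sin (Real.pi * η)) -
        Real.cos (Real.pi * η) ^ (p + 1) / (2 * (p + 1))) η := by
    intro η
    have h1 : HasDerivAt (fun η : ℝ => Real.cos (Real.pi * η)) (-Real.sin (Real.pi * η) * Real.pi) η := by
      have h0 : HasDerivAt (fun η : ℝ => Real.pi * η) Real.pi η := by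
        have := (hasDerivAt_id' η).const_mul Real.pi
        rwa [mul_one] at this
      exact h0.cos
    have h2 := h1.pow (p + 1)
    have h3 := ((hasDerivAt_id η).mul h2).neg.div_const (2 * ((p : ℝ) + 1))
    refine h3.congr_deriv ?_
    simp only [id, one_mul, Nat.add_sub_cancel, Pi.pow_apply]
    push_cast
    field_simp
    ring
  have hint1 : IntervalIntegrable (fun η : ℝ => Real.cos (Real.pi * η) ^ p *
      ((Real.pi * η / 2) * Real.sin (Real.pi * η))) MeasureTheory.volume (-(1 / 2)) (1 / 2) := by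
    apply Continuous.intervalIntegrable; fun_prop
  have hint2 : IntervalIntegrable (fun η : ℝ => Real.cos (Real.pi * η) ^ (p + 1) / (2 * (p + 1)))
      MeasureTheory.volume (-(1 / 2)) (1 / 2) := by
    apply Continuous.intervalIntegrable; fun_prop
  have h := intervalIntegral.integral_eq_sub_of_hasDerivAt (fun η _ => hd η)
    (hint1.sub hint2)
  rw [intervalIntegral.integral_sub hint1 hint2, intervalIntegral.integral_div] at h
  have e1 : Real.cos (Real.pi * (1 / 2)) = 0 := by
    rw [show Real.pi * (1 / 2) = Real.pi / 2 by ring, Real.cos_pi_div_two]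
  have e2 : Real.cos (Real.pi * (-(1 / 2))) = 0 := by
    rw [show Real.pi * (-(1 / 2)) = -(Real.pi / 2) by ring, Real.cos_neg, Real.cos_pi_div_two]
  rw [e1, e2] at h
  simp only [ne_eq, Nat.add_eq_zero_iff, one_ne_zero, and_false, not_false_eq_true, zero_pow,
    mul_zero, neg_zero, zero_div, sub_zero] at h
  unfold sig
  linarith

lemma Fx_ge (p : ℕ) {x : ℝ} (hx : |x| ≤ 1 / 2) :
    sig (p + 1) * (1 + (1 - 4 * x ^ 2) / (2 * (p + 1))) ≤ Fx p x := by
  have h1 : sig (p + 1) * (1 + (1 - 4 * x ^ 2) / (2 * (p + 1))) =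
      ∫ η in (-(1 / 2) : ℝ)..(1 / 2), (Real.cos (Real.pi * η) ^ (p + 1) + (1 - 4 * x ^ 2) *
        (Real.cos (Real.pi * η) ^ p * ((Real.pi * η / 2) * Real.sin (Real.pi * η)))) := by
    rw [intervalIntegral.integral_add, intervalIntegral.integral_const_mul, parts p]
    · unfold sig
      ring
    · apply Continuous.intervalIntegrable; fun_prop
    · apply Continuous.intervalIntegrable; fun_prop
  rw [h1]
  unfold Fx
  refine intervalIntegral.integral_mono_on (by norm_num) ?_ ?_ fun η hη => ?_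
  · apply Continuous.intervalIntegrable; fun_prop
  · apply Continuous.intervalIntegrable; fun_prop
  · have h2 := cos_ge_of_abs hx hη.1 hη.2
    have h3 : 0 ≤ Real.cos (Real.pi * η) ^ p := pow_nonneg (cos_nonneg' hη.1 hη.2) p
    have h4 := mul_le_mul_of_nonneg_left h2 h3
    calc _ = Real.cos (Real.pi * η) ^ p * (Real.cos (Real.pi * η) +
          (1 - 4 * x ^ 2) * (Real.pi * η / 2) * Real.sin (Real.pi * η)) := by ring
      _ ≤ _ := h4

end Pool.Agent.H318.Br
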