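import Pool.Agent.H318.Br.Integral
import Pool.Agent.H318.Br.Sigma
import Pool.Agent.H318.Br.Bern

/-! A lower bound for the `2k`-th moment of a cosine average. -/

namespace Pool.Agent.H318.Br

open Finset

lemma tangent (p : ℕ) (hp : Even (p + 1)) (T w : ℝ) (hw : 0 ≤ w) :
    ((p : ℝ) + 1) * w ^ p * T - p * w ^ (p + 1) ≤ T ^ (p + 1) := by
  rcases eq_or_lt_of_le hw with h | h
  · rw [← h]
    rcases Nat.eq_zero_or_pos p with h0 | h0
    · rw [h0] at hp
      simp at hp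
    · rw [zero_pow (by omega), zero_pow (by omega)]
      simp only [mul_zero, zero_mul, sub_zero]
      exact hp.pow_nonneg T
  · rcases le_total T 0 with hT | hT
    · have h1 : 0 ≤ T ^ (p + 1) := hp.pow_nonneg T
      have h2 : ((p : ℝ) + 1) * w ^ p * T ≤ 0 :=
        mul_nonpos_of_nonneg_of_nonpos (by positivity) hT
      have h3 : 0 ≤ (p : ℝ) * w ^ (p + 1) := by positivity
      linarith
    · have hb := one_add_mul_le_pow (a := T / w - 1) (by
        have : 0 ≤ T / w := by positivity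
        linarith) (p + 1)
      have e1 : 1 + (T / w - 1) = T / w := by ring
      rw [e1, div_pow, le_div_iff₀ (by positivity)] at hb
      have e2 : (1 + ((p + 1 : ℕ) : ℝ) * (T / w - 1)) * w ^ (p + 1) =
          ((p : ℝ) + 1) * w ^ p * T - p * w ^ (p + 1) := by
        push_cast
        field_simp
        ring
      rw [e2] at hb
      exact hb

lemma integral_odd (f : ℝ → ℝ) (hf : ∀ y, f (-y) = -f y) (c : ℝ) :
    ∫ y in (-c)..c, f y = 0 := by
  have h := intervalIntegral.integral_comp_neg (a := -c) (b := c) f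
  rw [neg_neg] at h
  simp_rw [hf] at h
  rw [intervalIntegral.integral_neg] at h
  linarith

lemma shifted (p n : ℕ) (s : Finset ℕ) (x : ℕ → ℝ) :
    ∫ η in (-(1 / 2) : ℝ)..(1 / 2), Real.cos (Real.pi * η) ^ p * ((-1) ^ n * gav s x (n + η)) =
      (∑ a ∈ s, cn n (x a) * Fx p (x a)) / s.card := by
  have h1 : ∀ η : ℝ, Real.cos (Real.pi * η) ^ p * ((-1) ^ n * gav s x (n + η)) =
      (∑ a ∈ s, (cn n (x a) * (Real.cos (Real.pi * η) ^ p * Real.cos (2 * Real.pi * η * x a)) -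
        (-1) ^ n * Real.sin (2 * Real.pi * n * x a) *
          (Real.cos (Real.pi * η) ^ p * Real.sin (2 * Real.pi * η * x a)))) / s.card := by
    intro η
    unfold gav cn
    rw [← mul_div_assoc, ← mul_div_assoc, mul_sum, mul_sum]
    congr 1
    refine sum_congr rfl fun a _ => ?_
    rw [show 2 * Real.pi * (n + η) * x a = 2 * Real.pi * n * x a + 2 * Real.pi * η * x a by ring,
      Real.cos_add]
    ring
  simp_rw [h1]
  rw [intervalIntegral.integral_div, intervalIntegral.integral_finsetSum]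
  · congr 1
    refine sum_congr rfl fun a _ => ?_
    rw [intervalIntegral.integral_sub, intervalIntegral.integral_const_mul,
      intervalIntegral.integral_const_mul]
    · have h2 : ∫ η in (-(1 / 2) : ℝ)..(1 / 2),
          Real.cos (Real.pi * η) ^ p * Real.sin (2 * Real.pi * η * x a) = 0 := by
        apply integral_odd
        intro y
        rw [mul_neg, Real.cos_neg, show 2 * Real.pi * -y * x a = -(2 * Real.pi * y * x a) by ring,
          Real.sin_neg]
        ring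
      rw [h2, mul_zero, sub_zero]
      rfl
    · apply Continuous.intervalIntegrable; fun_prop
    · apply Continuous.intervalIntegrable; fun_prop
  · intro a _
    apply Continuous.intervalIntegrable; fun_prop

lemma peak_ge (p n : ℕ) (hp : Even (p + 1)) (s : Finset ℕ) (x : ℕ → ℝ) (ρ : ℝ) (hρ : 0 ≤ ρ) :
    ((p : ℝ) + 1) * ρ ^ p * ((∑ a ∈ s, cn n (x a) * Fx p (x a)) / s.card) -
      p * ρ ^ (p + 1) * sig (p + 1) ≤
    ∫ ξ in ((n : ℝ) - 1 / 2)..(n + 1 / 2), gav s x ξ ^ (p + 1) := by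
  have h1 : ∫ ξ in ((n : ℝ) - 1 / 2)..(n + 1 / 2), gav s x ξ ^ (p + 1) =
      ∫ η in (-(1 / 2) : ℝ)..(1 / 2), gav s x (n + η) ^ (p + 1) := by
    rw [intervalIntegral.integral_comp_add_left (fun ξ => gav s x ξ ^ (p + 1)) (n : ℝ)]
    congr 1
  have hcont := continuous_gav s x
  have h2 : ((p : ℝ) + 1) * ρ ^ p * ((∑ a ∈ s, cn n (x a) * Fx p (x a)) / s.card) -
      p * ρ ^ (p + 1) * sig (p + 1) =
      ∫ η in (-(1 / 2) : ℝ)..(1 / 2), (((p : ℝ) + 1) * ρ ^ p *
        (Real.cos (Real.pi * η) ^ p * ((-1) ^ n * gav s x (n + η))) -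
        p * ρ ^ (p + 1) * Real.cos (Real.pi * η) ^ (p + 1)) := by
    rw [intervalIntegral.integral_sub, intervalIntegral.integral_const_mul,
      intervalIntegral.integral_const_mul, shifted]
    · rfl
    · apply Continuous.intervalIntegrable; fun_prop
    · apply Continuous.intervalIntegrable; fun_prop
  rw [h1, h2]
  refine intervalIntegral.integral_mono_on (by norm_num) ?_ ?_ fun η hη => ?_
  · apply Continuous.intervalIntegrable; fun_prop
  · apply Continuous.intervalIntegrable; fun_prop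
  · have h3 : 0 ≤ Real.cos (Real.pi * η) := cos_nonneg' hη.1 hη.2
    have h4 := tangent p hp ((-1) ^ n * gav s x (n + η)) (ρ * Real.cos (Real.pi * η))
      (by positivity)
    have h5 : ((-1) ^ n * gav s x (n + η)) ^ (p + 1) = gav s x (n + η) ^ (p + 1) := by
      rw [mul_pow, ← pow_mul, mul_comm n (p + 1), pow_mul, hp.neg_one_pow, one_pow, one_mul]
    rw [h5, mul_pow, mul_pow] at h4
    calc _ = ((p : ℝ) + 1) * (ρ ^ p * Real.cos (Real.pi * η) ^ p) * ((-1) ^ n * gav s x (n + η)) -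
          p * (ρ ^ (p + 1) * Real.cos (Real.pi * η) ^ (p + 1)) := by ring
      _ ≤ _ := h4

lemma gav_neg (s : Finset ℕ) (x : ℕ → ℝ) (ξ : ℝ) : gav s x (-ξ) = gav s x ξ := by
  unfold gav
  congr 1
  refine sum_congr rfl fun a _ => ?_
  rw [← Real.cos_neg]
  congr 1
  ring

lemma split (p M : ℕ) (hp : Even (p + 1)) (s : Finset ℕ) (x : ℕ → ℝ) :
    (∫ ξ in (((0 : ℕ) : ℝ) - 1 / 2)..((0 : ℕ) + 1 / 2), gav s x ξ ^ (p + 1)) +
      2 * ∑ n ∈ range M, ∫ ξ in (((n + 1 : ℕ) : ℝ) - 1 / 2)..((n + 1 : ℕ) + 1 / 2),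
        gav s x ξ ^ (p + 1) ≤
    ∫ ξ in (-((M + 1 : ℕ) : ℝ))..((M + 1 : ℕ) : ℝ), gav s x ξ ^ (p + 1) := by
  have hcont : Continuous fun ξ => gav s x ξ ^ (p + 1) := (continuous_gav s x).pow _
  have hint : ∀ a b : ℝ, IntervalIntegrable (fun ξ => gav s x ξ ^ (p + 1))
      MeasureTheory.volume a b := fun a b => hcont.intervalIntegrable a b
  have h1 : ∑ n ∈ range M, ∫ ξ in (((n + 1 : ℕ) : ℝ) - 1 / 2)..((n + 1 : ℕ) + 1 / 2),
        gav s x ξ ^ (p + 1) = ∫ ξ in (1 / 2 : ℝ)..(M + 1 / 2), gav s x ξ ^ (p + 1) := by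
    have h2 := intervalIntegral.sum_integral_adjacent_intervals (n := M)
      (a := fun i : ℕ => (i : ℝ) + 1 / 2) (f := fun ξ => gav s x ξ ^ (p + 1))
      (μ := MeasureTheory.volume) (fun i _ => hint _ _)
    simp only [Nat.cast_zero, zero_add] at h2
    rw [← h2]
    refine sum_congr rfl fun n _ => ?_
    congr 1
    · push_cast; ring
  have h3 : ∫ ξ in (-(M + 1 / 2) : ℝ)..(-(1 / 2)), gav s x ξ ^ (p + 1) =
      ∫ ξ in (1 / 2 : ℝ)..(M + 1 / 2), gav s x ξ ^ (p + 1) := by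
    rw [← intervalIntegral.integral_comp_neg (fun ξ => gav s x ξ ^ (p + 1))]
    simp_rw [gav_neg]
  have h4 : ∫ ξ in (-(M + 1 / 2) : ℝ)..(M + 1 / 2), gav s x ξ ^ (p + 1) =
      (∫ ξ in (-(M + 1 / 2) : ℝ)..(-(1 / 2)), gav s x ξ ^ (p + 1)) +
      (∫ ξ in (-(1 / 2) : ℝ)..(1 / 2), gav s x ξ ^ (p + 1)) +
      (∫ ξ in (1 / 2 : ℝ)..(M + 1 / 2), gav s x ξ ^ (p + 1)) := by
    rw [intervalIntegral.integral_add_adjacent_intervals (hint _ _) (hint _ _),
      intervalIntegral.integral_add_adjacent_intervals (hint _ _) (hint _ _)]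
  have h5 : ∫ ξ in (-(M + 1 / 2) : ℝ)..(M + 1 / 2), gav s x ξ ^ (p + 1) ≤
      ∫ ξ in (-((M + 1 : ℕ) : ℝ))..((M + 1 : ℕ) : ℝ), gav s x ξ ^ (p + 1) := by
    apply intervalIntegral.integral_mono_interval
    · push_cast; linarith
    · have : (0 : ℝ) ≤ M := Nat.cast_nonneg M
      linarith
    · push_cast; linarith
    · exact Filter.Eventually.of_forall fun ξ => hp.pow_nonneg _
    · exact hint _ _
  have h6 : ∫ ξ in (((0 : ℕ) : ℝ) - 1 / 2)..((0 : ℕ) + 1 / 2), gav s x ξ ^ (p + 1) =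
      ∫ ξ in (-(1 / 2) : ℝ)..(1 / 2), gav s x ξ ^ (p + 1) := by
    congr 1 <;> norm_num
  rw [h1, h6]
  linarith

end Pool.Agent.H318.Br
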