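import Pool.Agent.H318.Br.K3
import Pool.Agent.H318.Br.Peaks
import Pool.Agent.H318.Br.Check4

/-! The case `k = 4`: a lower bound for eighth power sums of cosine averages. -/

namespace Pool.Agent.H318.Br

open Finset

/-- sum of eighth powers -/
def pow8 : List ℤ → ℤ
  | [] => 0
  | w :: ws => w ^ 8 + pow8 ws

lemma eight_tangent (t w : ℝ) : 8 * w ^ 7 * t - 7 * w ^ 8 ≤ t ^ 8 := by
  rcases le_total 0 w with hw | hw
  · have h := tangent 7 (by decide) t w hw
    norm_num at h ⊢
    linarith
  · have h := tangent 7 (by decide) (-t) (-w) (by linarith)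
    have e1 : (-w) ^ 7 = -(w ^ 7) := by ring
    have e2 : (-w) ^ (7 + 1) = w ^ 8 := by ring
    have e3 : (-t) ^ (7 + 1) = t ^ 8 := by ring
    rw [e1, e2, e3] at h
    norm_num at h ⊢
    linarith

lemma tangent_list8 (T : ℕ → ℝ) (D : ℝ) (ws : List ℤ) : ∀ j,
    4 * D * tsum' T j (ws.map fun w => 2 * w ^ 7) - 7 * pow8 ws ≤
      ∑ i ∈ range ws.length, (D * T (j + i)) ^ 8 := by
  induction ws with
  | nil => intro j; simp [tsum', pow8]
  | cons w ws ih =>
    intro j
    rw [List.map_cons, List.length_cons, sum_range_succ']
    simp only [tsum', pow8]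
    have h1 := ih (j + 1)
    have h2 := eight_tangent (D * T j) w
    have e : ∑ i ∈ range ws.length, (D * T (j + 1 + i)) ^ 8 =
        ∑ i ∈ range ws.length, (D * T (j + (i + 1))) ^ 8 := by
      refine sum_congr rfl fun i _ => ?_
      rw [show j + 1 + i = j + (i + 1) by ring]
    rw [e] at h1
    push_cast
    rw [add_zero]
    linarith

theorem vData4_eq : wData4.map (fun w => 2 * w ^ 7) = vData4 := by decide +kernel

theorem m2sum_vData4 : m2sum 1 vData4 = 95705389904359600294626 := by decide +kernel

theorem pow8_wData4 : pow8 wData4 = 201827376157832298919909 := by decide +kernel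

theorem length_vData4 : vData4.length = 150 := by decide +kernel

theorem length_wData4 : wData4.length = 150 := by decide +kernel

/-- the certified lower bound -/
theorem g_bound4 (θ : ℝ) (hθ : |θ| ≤ Real.pi / 4) :
    (1402744158276206523110 : ℝ) ≤ 10 ^ 21 + csum θ 1 vData4 := by
  have h := check_nodeData4
  rw [force_eq, force_eq] at h
  have hQJ : (Int.ofNat 1231464437655571684798047457809441205545885891768031221095850329286617584135058605736195462266666748537255712778022405636955964643249487875690459439439303201393193575090174821581425245979444187589357314949480070831503502954237673285906155964385004784434391053944676070962618549970976843736626825987089906408334881664092103312595369388177499571394702291706597522263830016802397831519502479837818904588690951048094473180458034770702351381663592081741112129869285930020391667952337873646428702864478375438711013015704599484191142769982850806054889975823199268361297675658391245658538725263196179785033005047992876540650919082931824470541349218668463159242895492711723486356722635351452462760906175267656052643273265247152170040132138580060299068666108207330764225878297567250596520432134766588286116969277235054809381147299757219949375695091471145641487712169342932161473301919571158407965685729199434239249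 : ℤ) = 1048583 ^ vData4.length := by
    rw [length_vData4]; norm_num
  have hfin : ∀ a : ℤ, (fun a : ℤ => decide (2 * (a * a) < Int.ofNat 1099526307889)) a = true → 0 ≤ a →
      a ≤ 1048583 → Real.pi / 4 < Real.arccos ((a : ℝ) / (1048583 : ℤ)) := by
    intro a ha h0 h1
    simp only [decide_eq_true_eq] at ha
    have ha' : 2 * (a * a) < 1048583 ^ 2 := by
      have e : (Int.ofNat 1099526307889 : ℤ) = 1048583 ^ 2 := by norm_num
      rw [e] at ha
      exact ha
    have ha2 : 2 * ((a : ℝ) * a) < 1048583 ^ 2 := by exact_mod_cast ha'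
    have h0' : (0 : ℝ) ≤ a := by exact_mod_cast h0
    have h2 : (a : ℝ) / (1048583 : ℤ) < Real.sqrt 2 / 2 := by
      push_cast
      rw [div_lt_iff₀ (by norm_num)]
      apply lt_of_pow_lt_pow_left₀ 2 (by positivity)
      rw [mul_pow, div_pow, Real.sq_sqrt (by norm_num)]
      linarith
    have h3 : Real.arccos (Real.sqrt 2 / 2) < Real.arccos ((a : ℝ) / (1048583 : ℤ)) := by
      apply Real.strictAntiOn_arccos _ _ h2
      · constructor
        · have : (0 : ℝ) ≤ (a : ℝ) / (1048583 : ℤ) := by push_cast; positivity
          linarith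
        · rw [div_le_one (by norm_num)]
          exact_mod_cast h1
      · have h4 := Real.sqrt_nonneg 2
        have h5 : Real.sqrt 2 ≤ 2 := by
          rw [Real.sqrt_le_left (by norm_num)]; norm_num
        constructor <;> linarith
    rw [← Real.cos_pi_div_four, Real.arccos_cos (by positivity) (by linarith [Real.pi_pos])] at h3
    exact h3
  have h' := checkG_sound _ (Real.pi / 4) vData4 1000000000000000000000 1048583 _ 1402744158276206523110
    (by norm_num) hfin hQJ nodeData4 1048583
    (evalAux 1048583 (1048583 * 1048583) 1048583 vData4 1 1048583 1000000000000000000000) (by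
      rw [m2sum_vData4]
      exact h) (by norm_num) le_rfl (by
      have := evalAux_eq 1048583 1048583 0 (by simp) vData4 0 1 1048583
        1000000000000000000000 1000000000000000000000 (by simp) (by simp) (by simp)
      simpa using this)
    |θ| (by simp) hθ
  rw [csum_abs] at h'
  have e : (10 : ℝ) ^ 21 = 1000000000000000000000 := by norm_num
  rw [e]
  exact_mod_cast h'

theorem eight_bound (s : Finset ℕ) (y : ℕ → ℝ) (hs : s.Nonempty)
    (hy : ∀ a ∈ s, |y a| ≤ Real.pi / (4 : ℕ)) :
    (1.39637 : ℝ) ≤ ∑ j ∈ Icc (-((150 : ℕ) : ℤ)) ((150 : ℕ) : ℤ),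
      ((∑ a ∈ s, Real.cos (j * y a)) / s.card) ^ (2 * 4) := by
  set T : ℕ → ℝ := fun j => (∑ a ∈ s, Real.cos (j * y a)) / s.card with hT
  have hc : (0 : ℝ) < s.card := by exact_mod_cast card_pos.mpr hs
  have hev : Function.Even (fun j : ℤ => ((∑ a ∈ s, Real.cos (j * y a)) / s.card) ^ (2 * 4)) := by
    intro j
    simp only [Int.cast_neg, neg_mul, Real.cos_neg]
  rw [sum_Icc_of_even_eq_range hev 150, sum_range_succ']
  have e0 : ((∑ a ∈ s, Real.cos (((0 : ℤ) : ℝ) * y a)) / s.card) ^ (2 * 4) = 1 := by
    simp [hc.ne']
  have e1 : ∀ i ∈ range 150,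
      ((∑ a ∈ s, Real.cos (((((i + 1 : ℕ) : ℤ)) : ℝ) * y a)) / s.card) ^ (2 * 4) =
        T (1 + i) ^ 8 := by
    intro i _
    simp only [hT]
    push_cast
    rw [add_comm (i : ℝ) 1]
  rw [sum_congr rfl e1]
  have e2 : ((∑ a ∈ s, Real.cos (((((0 : ℕ) : ℤ)) : ℝ) * y a)) / s.card) ^ (2 * 4) = 1 := by
    simp [hc.ne']
  rw [e0, e2]
  -- the certificate
  have h1 := tangent_list8 T (10 ^ 3) wData4 1
  rw [vData4_eq, pow8_wData4, length_wData4, tsum'_avg s y s.card vData4 1] at h1
  have h2 : (1402744158276206523110 : ℝ) - 10 ^ 21 ≤ (∑ a ∈ s, csum (y a) 1 vData4) / s.card := by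
    rw [le_div_iff₀ hc]
    have h3 : ∑ _a ∈ s, ((1402744158276206523110 : ℝ) - 10 ^ 21) ≤
        ∑ a ∈ s, csum (y a) 1 vData4 := by
      refine sum_le_sum fun a ha => ?_
      have := g_bound4 (y a) (by simpa using hy a ha)
      linarith
    rw [sum_const, nsmul_eq_mul] at h3
    linarith
  have h4 : ∑ i ∈ range 150, (10 ^ 3 * T (1 + i)) ^ 8 = 10 ^ 24 * ∑ i ∈ range 150, T (1 + i) ^ 8 := by
    rw [mul_sum]
    refine sum_congr rfl fun i _ => ?_
    ring
  rw [h4] at h1
  push_cast at h1
  rw [two_nsmul]
  norm_num at h1 h2 ⊢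
  linarith

end Pool.Agent.H318.Br
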