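import Pool.Agent.H318.Br.Peaks

/-! The lower bound for the `2k`-th moment. -/

namespace Pool.Agent.H318.Br

open Finset

lemma sig_pos (k : ℕ) : 0 < sig (2 * k) := by
  rw [sig_even]
  have := Nat.centralBinom_pos k
  positivity

lemma pointwise (k p : ℕ) (hk : 1 ≤ k) (hp : p + 1 = 2 * k) (M : ℕ) {x : ℝ} (hx : |x| ≤ 1 / 2)
    (b : ℝ) (hb : b = 2 / (Real.pi ^ 2 * (4 * k + 1))) :
    sig (p + 1) * (1 + 2 * b * HM M) ≤
      Fx p x * (1 + 2 * b * ∑ n ∈ range M, 1 / ((n : ℝ) + 1) ^ 2 * cn (n + 1) x) := by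
  have hk' : (0 : ℝ) < k := by exact_mod_cast hk
  have hpi : (0 : ℝ) < Real.pi ^ 2 := by positivity
  have hb0 : 0 < b := by rw [hb]; positivity
  have hbpi : b * Real.pi ^ 2 * (4 * k + 1) = 2 := by
    rw [hb]; field_simp
  have hsig : 0 < sig (p + 1) := by rw [hp]; exact sig_pos k
  have hpk : ((p : ℝ) + 1) = 2 * k := by exact_mod_cast hp
  set t : ℝ := 1 / 4 - x ^ 2 with ht
  have hx2 : x ^ 2 ≤ 1 / 4 := by
    have := abs_le.mp hx
    nlinarith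
  have ht0 : 0 ≤ t := by rw [ht]; linarith
  have ht1 : t ≤ 1 / 4 := by rw [ht]; nlinarith [sq_nonneg x]
  have h1 := Fx_ge p hx
  have e1 : 1 + (1 - 4 * x ^ 2) / (2 * ((p : ℝ) + 1)) = 1 + t / k := by
    rw [hpk, ht]; field_simp; ring
  rw [e1] at h1
  have h2 := partial_le hx M
  have h3 : ∑ n ∈ range M, 1 / ((n : ℝ) + 1) ^ 2 * (1 - cn (n + 1) x) =
      HM M - ∑ n ∈ range M, 1 / ((n : ℝ) + 1) ^ 2 * cn (n + 1) x := by
    unfold HM
    rw [← sum_sub_distrib]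
    refine sum_congr rfl fun n _ => ?_
    ring
  rw [h3] at h2
  set S := ∑ n ∈ range M, 1 / ((n : ℝ) + 1) ^ 2 * cn (n + 1) x with hS
  have hH := HM_nonneg M
  have h4 : 1 + 2 * b * HM M - 2 * (b * Real.pi ^ 2) * t ≤ 1 + 2 * b * S := by
    have h5 : b * (HM M - S) ≤ b * (Real.pi ^ 2 * t) := mul_le_mul_of_nonneg_left h2 hb0.le
    nlinarith
  have hq : b * Real.pi ^ 2 ≤ 1 := by
    have h6 : (0 : ℝ) < b * Real.pi ^ 2 := by positivity
    nlinarith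
  have h7 : 0 ≤ 1 + 2 * b * HM M - 2 * (b * Real.pi ^ 2) * t := by
    have h8 : 0 ≤ 2 * b * HM M := by positivity
    have h9 : 2 * (b * Real.pi ^ 2) * t ≤ 2 * 1 * (1 / 4) := by
      have h6 : (0 : ℝ) < b * Real.pi ^ 2 := by positivity
      gcongr
    linarith
  have h10 : sig (p + 1) * (1 + 2 * b * HM M) ≤
      sig (p + 1) * (1 + t / k) * (1 + 2 * b * HM M - 2 * (b * Real.pi ^ 2) * t) := by
    rw [mul_assoc (sig (p + 1)) (1 + t / k)]
    apply mul_le_mul_of_nonneg_left _ hsig.le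
    have h11 : (1 + t / k) * (1 + 2 * b * HM M - 2 * (b * Real.pi ^ 2) * t) -
        (1 + 2 * b * HM M) = t * ((1 + 2 * b * HM M) / k - 2 * (b * Real.pi ^ 2) * (1 + t / k)) := by
      ring
    have h12 : 2 * (b * Real.pi ^ 2) * (1 + t / k) ≤ 1 / k := by
      have h13 : t / k ≤ 1 / 4 / k := by gcongr
      have h6 : (0 : ℝ) < b * Real.pi ^ 2 := by positivity
      calc 2 * (b * Real.pi ^ 2) * (1 + t / k) ≤ 2 * (b * Real.pi ^ 2) * (1 + 1 / 4 / k) := by gcongr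
        _ = (b * Real.pi ^ 2 * (4 * k + 1)) / (2 * k) := by field_simp; ring
        _ = 1 / k := by rw [hbpi]; field_simp
    have h14 : 1 / k ≤ (1 + 2 * b * HM M) / k := by
      have h8 : 0 ≤ 2 * b * HM M := by positivity
      gcongr
      linarith
    have h15 : 0 ≤ t * ((1 + 2 * b * HM M) / k - 2 * (b * Real.pi ^ 2) * (1 + t / k)) :=
      mul_nonneg ht0 (by linarith)
    linarith
  refine h10.trans ?_
  have h16 : 0 ≤ Fx p x := le_trans (by positivity) h1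
  exact mul_le_mul h1 h4 h7 h16

theorem integral_ge (k p : ℕ) (hk : 1 ≤ k) (hp : p + 1 = 2 * k) (M : ℕ) (s : Finset ℕ)
    (x : ℕ → ℝ) (hs : s.Nonempty) (hx : ∀ a ∈ s, |x a| ≤ 1 / 2)
    (b : ℝ) (hb : b = 2 / (Real.pi ^ 2 * (4 * k + 1))) (ρ : ℝ) (hρ0 : 0 ≤ ρ) (hρ : ρ ^ p = b) :
    sig (2 * k) * (1 + 2 * b * HM M * (2 * k - p * ρ)) ≤
      ∫ ξ in (-((M + 1 : ℕ) : ℝ))..((M + 1 : ℕ) : ℝ), gav s x ξ ^ (2 * k) := by
  have hpe : Even (p + 1) := by rw [hp]; exact even_two_mul k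
  have hp0 : p ≠ 0 := by omega
  have hc : (0 : ℝ) < s.card := by exact_mod_cast card_pos.mpr hs
  have hb0 : 0 < b := by rw [hb]; positivity
  have hsig : 0 < sig (p + 1) := by rw [hp]; exact sig_pos k
  have hpk : ((p : ℝ) + 1) = 2 * k := by exact_mod_cast hp
  rw [← hp]
  refine le_trans ?_ (split p M hpe s x)
  have h0 := peak_ge p 0 hpe s x 1 zero_le_one
  have hτ : ∀ n : ℕ, ∃ τ : ℝ, 0 ≤ τ ∧ τ ≤ 1 ∧ τ ^ p = 1 / ((n : ℝ) + 1) ^ 2 := by
    intro n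
    refine ⟨(1 / ((n : ℝ) + 1) ^ 2) ^ ((p : ℝ)⁻¹), by positivity, ?_, ?_⟩
    · apply Real.rpow_le_one (by positivity)
      · rw [div_le_one (by positivity)]
        have : (0 : ℝ) ≤ n := Nat.cast_nonneg n
        nlinarith
      · positivity
    · exact Real.rpow_inv_natCast_pow (by positivity) hp0
  choose τ hτ0 hτ1 hτp using hτ
  have hn : ∀ n ∈ range M, ((p : ℝ) + 1) * (b * (1 / ((n : ℝ) + 1) ^ 2)) *
      ((∑ a ∈ s, cn (n + 1) (x a) * Fx p (x a)) / s.card) -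
      p * (b * (1 / ((n : ℝ) + 1) ^ 2) * ρ) * sig (p + 1) ≤
      ∫ ξ in (((n + 1 : ℕ) : ℝ) - 1 / 2)..((n + 1 : ℕ) + 1 / 2), gav s x ξ ^ (p + 1) := by
    intro n _
    have h1 := peak_ge p (n + 1) hpe s x (ρ * τ n) (mul_nonneg hρ0 (hτ0 n))
    refine le_trans ?_ h1
    have e1 : (ρ * τ n) ^ p = b * (1 / ((n : ℝ) + 1) ^ 2) := by
      rw [mul_pow, hρ, hτp]
    have e2 : (ρ * τ n) ^ (p + 1) = b * (1 / ((n : ℝ) + 1) ^ 2) * (ρ * τ n) := by
      rw [pow_succ, e1]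
    rw [e1, e2]
    have h3 : b * (1 / ((n : ℝ) + 1) ^ 2) * (ρ * τ n) ≤ b * (1 / ((n : ℝ) + 1) ^ 2) * ρ := by
      apply mul_le_mul_of_nonneg_left _ (by positivity)
      calc ρ * τ n ≤ ρ * 1 := mul_le_mul_of_nonneg_left (hτ1 n) hρ0
        _ = ρ := mul_one ρ
    have h4 : (p : ℝ) * (b * (1 / ((n : ℝ) + 1) ^ 2) * (ρ * τ n)) * sig (p + 1) ≤
        p * (b * (1 / ((n : ℝ) + 1) ^ 2) * ρ) * sig (p + 1) := by gcongr
    linarith
  have h5 := sum_le_sum hn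
  -- the average of the pointwise bound
  have h6 : sig (p + 1) * (1 + 2 * b * HM M) ≤ (∑ a ∈ s, Fx p (x a) *
      (1 + 2 * b * ∑ n ∈ range M, 1 / ((n : ℝ) + 1) ^ 2 * cn (n + 1) (x a))) / s.card := by
    rw [le_div_iff₀ hc]
    calc sig (p + 1) * (1 + 2 * b * HM M) * s.card =
          ∑ _a ∈ s, sig (p + 1) * (1 + 2 * b * HM M) := by rw [sum_const, nsmul_eq_mul]; ring
      _ ≤ _ := sum_le_sum fun a ha => pointwise k p hk hp M (hx a ha) b hb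
  have h7 : (∑ a ∈ s, Fx p (x a) *
      (1 + 2 * b * ∑ n ∈ range M, 1 / ((n : ℝ) + 1) ^ 2 * cn (n + 1) (x a))) / s.card =
      (∑ a ∈ s, cn 0 (x a) * Fx p (x a)) / s.card + 2 * ∑ n ∈ range M,
        (b * (1 / ((n : ℝ) + 1) ^ 2)) * ((∑ a ∈ s, cn (n + 1) (x a) * Fx p (x a)) / s.card) := by
    have e0 : ∀ a, cn 0 (x a) = 1 := by intro a; simp [cn]
    simp_rw [e0]
    have e1 : ∀ n ∈ range M, (b * (1 / ((n : ℝ) + 1) ^ 2)) *
        ((∑ a ∈ s, cn (n + 1) (x a) * Fx p (x a)) / s.card) =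
        (∑ a ∈ s, b * (1 / ((n : ℝ) + 1) ^ 2) * (cn (n + 1) (x a) * Fx p (x a))) / s.card := by
      intro n _
      rw [← mul_sum, mul_div_assoc]
    rw [sum_congr rfl e1, ← sum_div, sum_comm, ← mul_div_assoc, ← add_div, mul_sum,
      ← sum_add_distrib]
    congr 1
    refine sum_congr rfl fun a _ => ?_
    have e2 : ∑ n ∈ range M, b * (1 / ((n : ℝ) + 1) ^ 2) * (cn (n + 1) (x a) * Fx p (x a)) =
        b * Fx p (x a) * ∑ n ∈ range M, 1 / ((n : ℝ) + 1) ^ 2 * cn (n + 1) (x a) := by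
      rw [mul_sum]
      refine sum_congr rfl fun n _ => ?_
      ring
    rw [e2]
    ring
  rw [h7] at h6
  rw [sum_sub_distrib] at h5
  have e3 : ∑ n ∈ range M, ((p : ℝ) + 1) * (b * (1 / ((n : ℝ) + 1) ^ 2)) *
      ((∑ a ∈ s, cn (n + 1) (x a) * Fx p (x a)) / s.card) =
      ((p : ℝ) + 1) * ∑ n ∈ range M,
        (b * (1 / ((n : ℝ) + 1) ^ 2)) * ((∑ a ∈ s, cn (n + 1) (x a) * Fx p (x a)) / s.card) := by
    rw [mul_sum]
    refine sum_congr rfl fun n _ => ?_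
    ring
  have e4 : ∑ n ∈ range M, p * (b * (1 / ((n : ℝ) + 1) ^ 2) * ρ) * sig (p + 1) =
      p * b * ρ * sig (p + 1) * HM M := by
    unfold HM
    rw [mul_sum]
    refine sum_congr rfl fun n _ => ?_
    ring
  rw [e3, e4] at h5
  rw [one_pow, one_pow, mul_one, mul_one] at h0
  have hp1 : (0 : ℝ) ≤ (p : ℝ) + 1 := by positivity
  have h8 := mul_le_mul_of_nonneg_left h6 hp1
  rw [← hpk]
  nlinarith

end Pool.Agent.H318.Br
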