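import Pool.Agent.H318.Br.Fourier

/-! From a lower bound for sums of even powers of cosine averages to an upper bound for `f_r(N)`. -/

namespace Pool.Agent.H318.Br

open Finset Filter

lemma sum_rep_le (A : Finset ℕ) (p U : ℕ) :
    ∑ u ∈ range U, ∑ v ∈ range U, rep A p p ((v : ℤ) - u) ≤ U * A.card ^ (2 * p) := by
  classical
  calc ∑ u ∈ range U, ∑ v ∈ range U, rep A p p ((v : ℤ) - u)
      ≤ ∑ u ∈ range U, A.card ^ (2 * p) := by
        refine sum_le_sum fun u _ => ?_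
        unfold rep
        rw [← card_biUnion]
        · refine (card_le_card (t := (Fintype.piFinset fun _ : Fin p => A) ×ˢ
            (Fintype.piFinset fun _ : Fin p => A)) ?_).trans ?_
          · intro z hz
            rw [mem_biUnion] at hz
            obtain ⟨v, _, hz⟩ := hz
            exact (mem_filter.mp hz).1
          · rw [card_product, Fintype.card_piFinset_const, two_mul, pow_add]
        · intro v _ v' _ hvv
          rw [Function.onFun, disjoint_left]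
          intro z hz hz'
          rw [mem_filter] at hz hz'
          apply hvv
          have := hz.2.symm.trans hz'.2
          omega
    _ = U * A.card ^ (2 * p) := by rw [sum_const, card_range, smul_eq_mul]

/-- upper bound for the number of coincidences, even case -/
lemma total_even {A : Finset ℕ} {q : ℕ} (h : DistinctSums (2 * (q + 1)) A) (U : ℕ) :
    ∑ u ∈ range U, ∑ v ∈ range U, rep A (q + 1) (q + 1) ((v : ℤ) - u) ≤
      U ^ 2 * ((q + 1).factorial * (q + 1).factorial) +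
        (q + 1) ^ 2 * A.card ^ (2 * (q + 1) - 1) * U := by
  have h' : DistinctSums (q + 1 + (q + 1)) A := by
    rw [← two_mul]; exact h
  calc _ ≤ ∑ u ∈ range U, ∑ v ∈ range U, ((q + 1).factorial * (q + 1).factorial +
        (q + 1) * (q + 1) * (A.card * rep A q q ((v : ℤ) - u))) :=
        sum_le_sum fun u _ => sum_le_sum fun v _ => rep_le h' _
    _ = U ^ 2 * ((q + 1).factorial * (q + 1).factorial) + (q + 1) * (q + 1) * (A.card *
        ∑ u ∈ range U, ∑ v ∈ range U, rep A q q ((v : ℤ) - u)) := by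
        simp_rw [sum_add_distrib, mul_sum, sum_const, card_range, smul_eq_mul]
        ring
    _ ≤ U ^ 2 * ((q + 1).factorial * (q + 1).factorial) + (q + 1) * (q + 1) * (A.card *
        (U * A.card ^ (2 * q))) := by
        gcongr
        exact sum_rep_le A q U
    _ = _ := by
        have : 2 * (q + 1) - 1 = 2 * q + 1 := by omega
        rw [this]
        ring

/-- upper bound for the number of coincidences, odd case -/
lemma total_odd {A : Finset ℕ} {q : ℕ} (h : DistinctSums (2 * (q + 2) - 1) A) (U : ℕ) :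
    ∑ u ∈ range U, ∑ v ∈ range U, rep A (q + 2) (q + 2) ((v : ℤ) - u) ≤
      U ^ 2 * (A.card * ((q + 2).factorial * (q + 1).factorial)) +
        (q + 2) ^ 2 * A.card ^ (2 * (q + 2) - 1) * U := by
  have h' : DistinctSums (q + 1 + 1 + (q + 1)) A := by
    have : 2 * (q + 2) - 1 = q + 1 + 1 + (q + 1) := by omega
    rw [← this]; exact h
  calc _ ≤ ∑ u ∈ range U, ∑ v ∈ range U, (A.card * ((q + 2).factorial * (q + 1).factorial) +
        (q + 2) * (q + 1) * (A.card * rep A (q + 1) (q + 1) ((v : ℤ) - u))) := by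
        refine sum_le_sum fun u _ => sum_le_sum fun v _ => ?_
        rw [show q + 2 = q + 1 + 1 from rfl, rep_split, rep_split A (q + 1) q]
        calc _ ≤ ∑ y ∈ A, ((q + 1 + 1).factorial * (q + 1).factorial +
              (q + 1 + 1) * (q + 1) * (A.card * rep A (q + 1) q ((v : ℤ) - u + y))) :=
              sum_le_sum fun y _ => rep_le h' _
          _ = _ := by
              simp_rw [sum_add_distrib, mul_sum, sum_const, smul_eq_mul]
    _ = U ^ 2 * (A.card * ((q + 2).factorial * (q + 1).factorial)) + (q + 2) * (q + 1) * (A.card *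
        ∑ u ∈ range U, ∑ v ∈ range U, rep A (q + 1) (q + 1) ((v : ℤ) - u)) := by
        simp_rw [sum_add_distrib, mul_sum, sum_const, card_range, smul_eq_mul]
        ring
    _ ≤ U ^ 2 * (A.card * ((q + 2).factorial * (q + 1).factorial)) + (q + 2) * (q + 2) * (A.card *
        (U * A.card ^ (2 * (q + 1)))) := by
        gcongr
        · omega
        · exact sum_rep_le A (q + 1) U
    _ = _ := by
        have : 2 * (q + 2) - 1 = 2 * (q + 1) + 1 := by omega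
        rw [this]
        ring

/-- upper bound for the number of coincidences -/
lemma total_le {A : Finset ℕ} {k r : ℕ} (hk : 1 ≤ k) (hr : r = 2 * k ∨ (r = 2 * k - 1 ∧ 2 ≤ k))
    (h : DistinctSums r A) (U : ℕ) :
    ∑ u ∈ range U, ∑ v ∈ range U, rep A k k ((v : ℤ) - u) ≤
      U ^ 2 * (A.card ^ (2 * k - r) * (k.factorial * (r - k).factorial)) +
        k ^ 2 * A.card ^ (2 * k - 1) * U := by
  rcases hr with rfl | ⟨rfl, h2⟩
  · obtain ⟨q, rfl⟩ : ∃ q, k = q + 1 := ⟨k - 1, by omega⟩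
    have e1 : 2 * (q + 1) - 2 * (q + 1) = 0 := by omega
    have e2 : 2 * (q + 1) - (q + 1) = q + 1 := by omega
    rw [e1, e2, pow_zero, one_mul]
    exact total_even h U
  · obtain ⟨q, rfl⟩ : ∃ q, k = q + 2 := ⟨k - 2, by omega⟩
    have e1 : 2 * (q + 2) - (2 * (q + 2) - 1) = 1 := by omega
    have e2 : 2 * (q + 2) - 1 - (q + 2) = q + 1 := by omega
    rw [e1, e2, pow_one]
    exact total_odd h U

lemma cos_sum_ge (U P J : ℕ) (hP : 0 < P) (j : ℤ) (hj : j ∈ Icc (-(J : ℤ)) J) :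
    (U : ℝ) * (1 - 2 * Real.pi ^ 2 * J ^ 2 * U ^ 2 / P ^ 2) ≤
      ∑ u ∈ range U, Real.cos (2 * Real.pi * j * u / P) := by
  have hP' : (0 : ℝ) < P := by exact_mod_cast hP
  have h1 : ∀ u ∈ range U, 1 - 2 * Real.pi ^ 2 * J ^ 2 * U ^ 2 / P ^ 2 ≤
      Real.cos (2 * Real.pi * j * u / P) := by
    intro u hu
    refine le_trans ?_ (Real.one_sub_sq_div_two_le_cos)
    have hj2 : (j : ℝ) ^ 2 ≤ (J : ℝ) ^ 2 := by
      rw [mem_Icc] at hj
      have h3 : |(j : ℝ)| ≤ |(J : ℝ)| := by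
        rw [Nat.abs_cast, abs_le]
        exact ⟨by exact_mod_cast hj.1, by exact_mod_cast hj.2⟩
      exact sq_le_sq.mpr h3
    have hu2 : (u : ℝ) ^ 2 ≤ (U : ℝ) ^ 2 := by
      have : (u : ℝ) ≤ U := by exact_mod_cast (mem_range.mp hu).le
      gcongr
    have h4 : (2 * Real.pi * j * u / P) ^ 2 / 2 = 2 * Real.pi ^ 2 * ((j : ℝ) ^ 2 * (u : ℝ) ^ 2) / P ^ 2 := by
      field_simp
    have h5 : (j : ℝ) ^ 2 * (u : ℝ) ^ 2 ≤ (J : ℝ) ^ 2 * (U : ℝ) ^ 2 := by gcongr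
    rw [h4]
    have h6 : 2 * Real.pi ^ 2 * ((j : ℝ) ^ 2 * (u : ℝ) ^ 2) / P ^ 2 ≤
        2 * Real.pi ^ 2 * ((J : ℝ) ^ 2 * (U : ℝ) ^ 2) / P ^ 2 := by gcongr
    have h7 : 2 * Real.pi ^ 2 * ((J : ℝ) ^ 2 * (U : ℝ) ^ 2) / P ^ 2 =
        2 * Real.pi ^ 2 * J ^ 2 * U ^ 2 / P ^ 2 := by ring
    linarith
  calc _ = ∑ _u ∈ range U, (1 - 2 * Real.pi ^ 2 * J ^ 2 * U ^ 2 / P ^ 2) := by
        rw [sum_const, card_range, nsmul_eq_mul]
    _ ≤ _ := sum_le_sum h1

/-- The finite form of the inequality. -/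
lemma finite_ineq {A : Finset ℕ} {k r N U J : ℕ} (hk : 1 ≤ k)
    (hr : r = 2 * k ∨ (r = 2 * k - 1 ∧ 2 ≤ k)) (h : DistinctSums r A) (hA : A ⊆ Icc 1 N)
    (hU : 0 < U) (hJ : 2 * J + 1 ≤ k * N + U) (hn : 0 < A.card)
    (hκ : 2 * Real.pi ^ 2 * J ^ 2 * U ^ 2 / ((k * N + U : ℕ) : ℝ) ^ 2 ≤ 1)
    (B : ℝ) (hB : ∀ (s : Finset ℕ) (y : ℕ → ℝ), s.Nonempty → (∀ a ∈ s, |y a| ≤ Real.pi / k) →
      B ≤ ∑ j ∈ Icc (-(J : ℤ)) J, ((∑ a ∈ s, Real.cos (j * y a)) / s.card) ^ (2 * k)) :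
    B * (1 - 2 * Real.pi ^ 2 * J ^ 2 * U ^ 2 / ((k * N + U : ℕ) : ℝ) ^ 2) ^ 2 ≤
      ((k * N + U : ℕ) : ℝ) * ((k.factorial * (r - k).factorial : ℕ) / (A.card : ℝ) ^ r +
        k ^ 2 / (A.card * U)) := by
  set P := k * N + U with hPdef
  set n := A.card with hndef
  set κ := 2 * Real.pi ^ 2 * J ^ 2 * U ^ 2 / (P : ℝ) ^ 2 with hκdef
  have hP0 : 0 < P := by omega
  have hP' : (0 : ℝ) < P := by exact_mod_cast hP0
  have hn' : (0 : ℝ) < n := by exact_mod_cast hn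
  have hU' : (0 : ℝ) < U := by exact_mod_cast hU
  have hr2 : r ≤ 2 * k := by omega
  have hne : A.Nonempty := card_pos.mp hn
  have hN : 1 ≤ N := by
    obtain ⟨a, ha⟩ := hne
    have := mem_Icc.mp (hA ha)
    omega
  -- the points
  have hy : ∀ a ∈ A, |2 * Real.pi * ((a : ℝ) - (N + 1) / 2) / P| ≤ Real.pi / k := by
    intro a ha
    have ha' := mem_Icc.mp (hA ha)
    have h1 : (1 : ℝ) ≤ a := by exact_mod_cast ha'.1
    have h2 : (a : ℝ) ≤ N := by exact_mod_cast ha'.2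
    have h3 : |(a : ℝ) - (N + 1) / 2| ≤ N / 2 := by
      rw [abs_le]; constructor <;> linarith
    have hk' : (0 : ℝ) < k := by exact_mod_cast hk
    have h4 : (k : ℝ) * N ≤ P := by
      have : k * N ≤ P := by omega
      exact_mod_cast this
    rw [abs_div, abs_mul, abs_of_pos hP', abs_of_pos Real.two_pi_pos,
      div_le_div_iff₀ hP' hk']
    calc 2 * Real.pi * |(a : ℝ) - (N + 1) / 2| * k ≤ 2 * Real.pi * (N / 2) * k := by
          have := Real.pi_pos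
          gcongr
      _ = Real.pi * (k * N) := by ring
      _ ≤ Real.pi * P := by
          have := Real.pi_pos
          gcongr
  have h1 := hB A (fun a => 2 * Real.pi * ((a : ℝ) - (N + 1) / 2) / P) hne hy
  have h2 := fourier_ineq A N k U J P hA le_rfl (by omega) ((N + 1) / 2 : ℝ)
  have h3 := total_le hk hr h U
  -- lower bound of the left side
  have h4 : ∑ j ∈ Icc (-(J : ℤ)) J, ((∑ a ∈ A, Real.cos (j * (2 * Real.pi *
      ((a : ℝ) - (N + 1) / 2) / P))) / n) ^ (2 * k) * ((n : ℝ) ^ (2 * k) * (U * (1 - κ)) ^ 2) ≤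
      ∑ j ∈ Icc (-(J : ℤ)) J, (∑ a ∈ A, Real.cos (2 * Real.pi * j * (a - (N + 1) / 2) / P)) ^ (2 * k) *
      (∑ u ∈ range U, Real.cos (2 * Real.pi * j * u / P)) ^ 2 := by
    refine sum_le_sum fun j hj => ?_
    rw [← mul_assoc, ← mul_pow, div_mul_cancel₀ _ hn'.ne']
    have e : ∀ a ∈ A, Real.cos (j * (2 * Real.pi * ((a : ℝ) - (N + 1) / 2) / P)) =
        Real.cos (2 * Real.pi * j * (a - (N + 1) / 2) / P) := by
      intro a _
      congr 1
      ring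
    rw [sum_congr rfl e]
    refine mul_le_mul_of_nonneg_left ?_ ?_
    · refine pow_le_pow_left₀ ?_ (cos_sum_ge U P J hP0 j hj) 2
      exact mul_nonneg hU'.le (by linarith)
    · rw [pow_mul]; positivity
  rw [← sum_mul] at h4
  have h5 : B * ((n : ℝ) ^ (2 * k) * (U * (1 - κ)) ^ 2) ≤
      P * ((∑ u ∈ range U, ∑ v ∈ range U, rep A k k ((v : ℤ) - u) : ℕ) : ℝ) := by
    refine le_trans (mul_le_mul_of_nonneg_right h1 ?_) (h4.trans h2)
    positivity
  have h6 : ((∑ u ∈ range U, ∑ v ∈ range U, rep A k k ((v : ℤ) - u) : ℕ) : ℝ) ≤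
      (U : ℝ) ^ 2 * ((n : ℝ) ^ (2 * k - r) * ((k.factorial * (r - k).factorial : ℕ) : ℝ)) +
        (k : ℝ) ^ 2 * (n : ℝ) ^ (2 * k - 1) * U := by
    exact_mod_cast h3
  have h7 := h5.trans (mul_le_mul_of_nonneg_left h6 hP'.le)
  have h8 : (0 : ℝ) < (n : ℝ) ^ (2 * k) * (U : ℝ) ^ 2 := by positivity
  rw [← mul_le_mul_iff_of_pos_right h8]
  have e1 : (n : ℝ) ^ (2 * k) = (n : ℝ) ^ (2 * k - r) * (n : ℝ) ^ r := by
    rw [← pow_add]; congr 1; omega
  have e2 : (n : ℝ) ^ (2 * k) = (n : ℝ) ^ (2 * k - 1) * n := by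
    rw [← pow_succ]; congr 1; omega
  calc B * (1 - κ) ^ 2 * ((n : ℝ) ^ (2 * k) * (U : ℝ) ^ 2)
      = B * ((n : ℝ) ^ (2 * k) * (U * (1 - κ)) ^ 2) := by ring
    _ ≤ _ := h7
    _ = (P : ℝ) * (((k.factorial * (r - k).factorial : ℕ) : ℝ) / (n : ℝ) ^ r *
          ((n : ℝ) ^ (2 * k - r) * (n : ℝ) ^ r * (U : ℝ) ^ 2) +
          (k : ℝ) ^ 2 / (n * U) * ((n : ℝ) ^ (2 * k - 1) * n * (U : ℝ) ^ 2)) := by
        field_simp
    _ = (P : ℝ) * (((k.factorial * (r - k).factorial : ℕ) : ℝ) / (n : ℝ) ^ r *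
          ((n : ℝ) ^ (2 * k) * (U : ℝ) ^ 2) +
          (k : ℝ) ^ 2 / (n * U) * ((n : ℝ) ^ (2 * k) * (U : ℝ) ^ 2)) := by
        rw [← e1, ← e2]
    _ = _ := by ring

/-- **Main reduction.** -/
theorem card_le (k r J : ℕ) (hk : 1 ≤ k) (hr : r = 2 * k ∨ (r = 2 * k - 1 ∧ 2 ≤ k))
    (B : ℝ) (hB0 : 0 < B) (hB : ∀ (s : Finset ℕ) (y : ℕ → ℝ), s.Nonempty →
      (∀ a ∈ s, |y a| ≤ Real.pi / k) →
      B ≤ ∑ j ∈ Icc (-(J : ℤ)) J, ((∑ a ∈ s, Real.cos (j * y a)) / s.card) ^ (2 * k))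
    (C : ℝ) (hC : k * (k.factorial * (r - k).factorial : ℕ) < C * B) :
    ∀ᶠ N : ℕ in atTop, ∀ A : Finset ℕ, A ⊆ Icc 1 N → DistinctSums r A →
      (A.card : ℝ) ^ r ≤ C * N := by
  set F : ℝ := ((k.factorial * (r - k).factorial : ℕ) : ℝ) with hF
  have hF0 : 0 < F := by
    rw [hF]
    exact_mod_cast Nat.mul_pos (Nat.factorial_pos _) (Nat.factorial_pos _)
  have hk' : (0 : ℝ) < k := by exact_mod_cast hk
  have hC0 : 0 < C := by
    by_contra hc
    push Not at hc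
    have : C * B ≤ 0 := mul_nonpos_of_nonpos_of_nonneg hc hB0.le
    have : 0 < (k : ℝ) * F := by positivity
    linarith
  have hr1 : 1 ≤ r := by omega
  -- choice of eta
  have hcont : ContinuousAt (fun η : ℝ => B * (1 - 8 * Real.pi ^ 2 * J ^ 2 * η ^ 2 / k ^ 2) ^ 2 -
      (k + 2 * η) * F / C) 0 := by
    fun_prop
  have hpos : (0 : ℝ) < B * (1 - 8 * Real.pi ^ 2 * J ^ 2 * (0 : ℝ) ^ 2 / k ^ 2) ^ 2 -
      (k + 2 * 0) * F / C := by
    have : (k : ℝ) * F / C < B := by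
      rw [div_lt_iff₀ hC0]; linarith
    simp
    linarith
  have hev1 := hcont.eventually (lt_mem_nhds hpos)
  have hcont2 : ContinuousAt (fun η : ℝ => 8 * Real.pi ^ 2 * J ^ 2 * η ^ 2 / k ^ 2) 0 := by
    fun_prop
  have hpos2 : 8 * Real.pi ^ 2 * J ^ 2 * (0 : ℝ) ^ 2 / k ^ 2 < 1 := by simp
  have hev2 := hcont2.eventually (gt_mem_nhds hpos2)
  have hev3 : ∀ᶠ η : ℝ in nhdsWithin 0 (Set.Ioi 0),
      (0 < B * (1 - 8 * Real.pi ^ 2 * J ^ 2 * η ^ 2 / k ^ 2) ^ 2 - (k + 2 * η) * F / C ∧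
      8 * Real.pi ^ 2 * J ^ 2 * η ^ 2 / k ^ 2 < 1) := nhdsWithin_le_nhds (hev1.and hev2)
  obtain ⟨η, ⟨hη1, hη2⟩, hη0⟩ := (hev3.and (self_mem_nhdsWithin :
    ∀ᶠ η : ℝ in nhdsWithin 0 (Set.Ioi 0), η ∈ Set.Ioi (0 : ℝ))).exists
  set δ := B * (1 - 8 * Real.pi ^ 2 * J ^ 2 * η ^ 2 / k ^ 2) ^ 2 - (k + 2 * η) * F / C with hδ
  -- choice of the size bound
  obtain ⟨K, hK⟩ := exists_nat_gt ((k / η + 1) * k ^ 2 / δ)
  obtain ⟨N₁, hN₁⟩ := exists_nat_gt (1 / η)
  obtain ⟨N₂, hN₂⟩ := exists_nat_gt ((K : ℝ) ^ r / C)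
  filter_upwards [eventually_ge_atTop (max (max N₁ N₂) (2 * J + 1))] with N hN A hA hD
  have hNa : N₁ ≤ N := le_trans (le_trans (le_max_left _ _) (le_max_left _ _)) hN
  have hNb : N₂ ≤ N := le_trans (le_trans (le_max_right _ _) (le_max_left _ _)) hN
  have hNc : 2 * J + 1 ≤ N := le_trans (le_max_right _ _) hN
  have hN0 : (0 : ℝ) < N := by
    have : 0 < N := by omega
    exact_mod_cast this
  by_contra hcon
  push Not at hcon
  -- the size is large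
  have hnK : K < A.card := by
    by_contra hc
    push Not at hc
    have h1 : (A.card : ℝ) ^ r ≤ (K : ℝ) ^ r := by
      have : (A.card : ℝ) ≤ K := by exact_mod_cast hc
      gcongr
    have h2 : (K : ℝ) ^ r < C * N := by
      have h3 : (K : ℝ) ^ r / C < N := lt_of_lt_of_le hN₂ (by exact_mod_cast hNb)
      rw [div_lt_iff₀ hC0] at h3
      linarith
    linarith
  have hn0 : 0 < A.card := by omega
  have hn' : (0 : ℝ) < A.card := by exact_mod_cast hn0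
  set U := ⌈η * N⌉₊ with hUdef
  have hU1 : η * N ≤ U := Nat.le_ceil _
  have hU2 : (U : ℝ) ≤ 2 * (η * N) := by
    have h1 : (U : ℝ) < η * N + 1 := Nat.ceil_lt_add_one (by positivity)
    have h2 : 1 ≤ η * N := by
      have : 1 / η < N := lt_of_lt_of_le hN₁ (by exact_mod_cast hNa)
      rw [div_lt_iff₀ hη0] at this
      linarith
    linarith
  have hUpos : 0 < U := Nat.ceil_pos.mpr (by positivity)
  have hU' : (0 : ℝ) < U := by exact_mod_cast hUpos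
  have hPge : (k : ℝ) * N ≤ ((k * N + U : ℕ) : ℝ) := by
    push_cast; linarith
  have hPpos : (0 : ℝ) < ((k * N + U : ℕ) : ℝ) := lt_of_lt_of_le (by positivity) hPge
  have hκ : 2 * Real.pi ^ 2 * J ^ 2 * U ^ 2 / ((k * N + U : ℕ) : ℝ) ^ 2 ≤
      8 * Real.pi ^ 2 * J ^ 2 * η ^ 2 / k ^ 2 := by
    calc 2 * Real.pi ^ 2 * J ^ 2 * U ^ 2 / ((k * N + U : ℕ) : ℝ) ^ 2
        ≤ 2 * Real.pi ^ 2 * J ^ 2 * (2 * (η * N)) ^ 2 / (k * N) ^ 2 := by gcongr
      _ = 8 * Real.pi ^ 2 * J ^ 2 * η ^ 2 / k ^ 2 := by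
          field_simp
          ring
  have hfin := finite_ineq (J := J) hk hr hD hA hUpos (by nlinarith [Nat.mul_le_mul hk (le_refl N)]) hn0
    (hκ.trans hη2.le) B hB
  -- left side
  have hl : B * (1 - 8 * Real.pi ^ 2 * J ^ 2 * η ^ 2 / k ^ 2) ^ 2 ≤
      B * (1 - 2 * Real.pi ^ 2 * J ^ 2 * U ^ 2 / ((k * N + U : ℕ) : ℝ) ^ 2) ^ 2 := by
    have : 0 ≤ 1 - 8 * Real.pi ^ 2 * J ^ 2 * η ^ 2 / k ^ 2 := by linarith
    gcongr
  -- right side
  have hr1' : ((k * N + U : ℕ) : ℝ) * (F / (A.card : ℝ) ^ r) ≤ (k + 2 * η) * F / C := by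
    have h1 : F / (A.card : ℝ) ^ r ≤ F / (C * N) := by
      gcongr
    have h2 : ((k * N + U : ℕ) : ℝ) ≤ (k + 2 * η) * N := by
      push_cast
      nlinarith
    calc ((k * N + U : ℕ) : ℝ) * (F / (A.card : ℝ) ^ r) ≤ ((k + 2 * η) * N) * (F / (C * N)) := by
          gcongr
      _ = (k + 2 * η) * F / C := by
          field_simp
  have hr2' : ((k * N + U : ℕ) : ℝ) * ((k : ℝ) ^ 2 / (A.card * U)) < δ := by
    have h1 : ((k * N + U : ℕ) : ℝ) ≤ (k / η + 1) * U := by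
      push_cast
      have : (k : ℝ) * N ≤ k / η * U := by
        rw [div_mul_eq_mul_div, le_div_iff₀ hη0]
        nlinarith
      linarith
    have h2 : (k / η + 1) * k ^ 2 / δ < A.card :=
      hK.trans (by exact_mod_cast hnK)
    rw [div_lt_iff₀ (by exact hη1)] at h2
    calc ((k * N + U : ℕ) : ℝ) * ((k : ℝ) ^ 2 / (A.card * U))
        ≤ ((k / η + 1) * U) * ((k : ℝ) ^ 2 / (A.card * U)) := by gcongr
      _ = (k / η + 1) * k ^ 2 / A.card := by field_simp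
      _ < δ := by
          rw [div_lt_iff₀ hn']
          linarith
  have : B * (1 - 8 * Real.pi ^ 2 * J ^ 2 * η ^ 2 / k ^ 2) ^ 2 <
      B * (1 - 8 * Real.pi ^ 2 * J ^ 2 * η ^ 2 / k ^ 2) ^ 2 := by
    calc _ ≤ _ := hl
      _ ≤ _ := hfin
      _ = ((k * N + U : ℕ) : ℝ) * (F / (A.card : ℝ) ^ r) +
          ((k * N + U : ℕ) : ℝ) * ((k : ℝ) ^ 2 / (A.card * U)) := by ring
      _ < (k + 2 * η) * F / C + δ := by linarith
      _ = _ := by rw [hδ]; ring
  exact lt_irrefl _ this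

lemma distinctSums_empty (r : ℕ) : DistinctSums r ∅ := by
  intro m₁ m₂ _ _ h1 h2 _
  have e1 : m₁ = 0 := Multiset.eq_zero_of_forall_notMem fun a ha => by simpa using h1 a ha
  have e2 : m₂ = 0 := Multiset.eq_zero_of_forall_notMem fun a ha => by simpa using h2 a ha
  rw [e1, e2]

lemma exists_maxSize (r N : ℕ) :
    ∃ A : Finset ℕ, A ⊆ Icc 1 N ∧ DistinctSums r A ∧ A.card = maxSize r N := by
  have hne : {n : ℕ | ∃ A : Finset ℕ, A ⊆ Finset.Icc 1 N ∧ DistinctSums r A ∧ A.card = n}.Nonempty :=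
    ⟨0, ∅, by simp, distinctSums_empty r, rfl⟩
  have hb : BddAbove {n : ℕ | ∃ A : Finset ℕ, A ⊆ Finset.Icc 1 N ∧ DistinctSums r A ∧ A.card = n} := by
    refine ⟨N, ?_⟩
    rintro n ⟨A, hA, _, rfl⟩
    have := card_le_card hA
    simpa using this
  exact Nat.sSup_mem hne hb

/-- **Main reduction** for `f_r(N)`. -/
theorem maxSize_le (k r J : ℕ) (hk : 1 ≤ k) (hr : r = 2 * k ∨ (r = 2 * k - 1 ∧ 2 ≤ k))
    (B : ℝ) (hB0 : 0 < B) (hB : ∀ (s : Finset ℕ) (y : ℕ → ℝ), s.Nonempty →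
      (∀ a ∈ s, |y a| ≤ Real.pi / k) →
      B ≤ ∑ j ∈ Icc (-(J : ℤ)) J, ((∑ a ∈ s, Real.cos (j * y a)) / s.card) ^ (2 * k))
    (C : ℝ) (hC : k * (k.factorial * (r - k).factorial : ℕ) < C * B) :
    ∀ᶠ N : ℕ in atTop, (maxSize r N : ℝ) ^ r ≤ C * N := by
  filter_upwards [card_le k r J hk hr B hB0 hB C hC] with N hN
  obtain ⟨A, hA, hD, hc⟩ := exists_maxSize r N
  rw [← hc]
  exact hN A hA hD

end Pool.Agent.H318.Br
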