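import Pool.Agent.H318.Br.Main

/-! The main reduction with an arbitrary period `L ≥ k`. -/

namespace Pool.Agent.H318.Br

open Finset Filter

/-- The finite form of the inequality. -/
lemma finite_ineq_period {A : Finset ℕ} {k r N U J L : ℕ} (hk : 1 ≤ k) (hkL : k ≤ L)
    (hr : r = 2 * k ∨ (r = 2 * k - 1 ∧ 2 ≤ k)) (h : DistinctSums r A) (hA : A ⊆ Icc 1 N)
    (hU : 0 < U) (hJ : 2 * J + 1 ≤ L * N + U) (hn : 0 < A.card)
    (hκ : 2 * Real.pi ^ 2 * J ^ 2 * U ^ 2 / ((L * N + U : ℕ) : ℝ) ^ 2 ≤ 1)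
    (B : ℝ) (hB : ∀ (s : Finset ℕ) (y : ℕ → ℝ), s.Nonempty → (∀ a ∈ s, |y a| ≤ Real.pi / L) →
      B ≤ ∑ j ∈ Icc (-(J : ℤ)) J, ((∑ a ∈ s, Real.cos (j * y a)) / s.card) ^ (2 * k)) :
    B * (1 - 2 * Real.pi ^ 2 * J ^ 2 * U ^ 2 / ((L * N + U : ℕ) : ℝ) ^ 2) ^ 2 ≤
      ((L * N + U : ℕ) : ℝ) * ((k.factorial * (r - k).factorial : ℕ) / (A.card : ℝ) ^ r +
        k ^ 2 / (A.card * U)) := by
  set P := L * N + U with hPdef
  set n := A.card with hndef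
  set κ := 2 * Real.pi ^ 2 * J ^ 2 * U ^ 2 / (P : ℝ) ^ 2 with hκdef
  have hP0 : 0 < P := by omega
  have hP' : (0 : ℝ) < P := by exact_mod_cast hP0
  have hn' : (0 : ℝ) < n := by exact_mod_cast hn
  have hU' : (0 : ℝ) < U := by exact_mod_cast hU
  have hr2 : r ≤ 2 * k := by omega
  have hne : A.Nonempty := card_pos.mp hn
  have hN : 1 ≤ N := by
    obtain ⟨a, ha⟩ := hne
    have := mem_Icc.mp (hA ha)
    omega
  -- the points
  have hy : ∀ a ∈ A, |2 * Real.pi * ((a : ℝ) - (N + 1) / 2) / P| ≤ Real.pi / L := by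
    intro a ha
    have ha' := mem_Icc.mp (hA ha)
    have h1 : (1 : ℝ) ≤ a := by exact_mod_cast ha'.1
    have h2 : (a : ℝ) ≤ N := by exact_mod_cast ha'.2
    have h3 : |(a : ℝ) - (N + 1) / 2| ≤ N / 2 := by
      rw [abs_le]; constructor <;> linarith
    have hL' : (0 : ℝ) < L := by exact_mod_cast (lt_of_lt_of_le hk hkL)
    have h4 : (L : ℝ) * N ≤ P := by
      have : L * N ≤ P := by omega
      exact_mod_cast this
    rw [abs_div, abs_mul, abs_of_pos hP', abs_of_pos Real.two_pi_pos,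
      div_le_div_iff₀ hP' hL']
    calc 2 * Real.pi * |(a : ℝ) - (N + 1) / 2| * L ≤ 2 * Real.pi * (N / 2) * L := by
          have := Real.pi_pos
          gcongr
      _ = Real.pi * (L * N) := by ring
      _ ≤ Real.pi * P := by
          have := Real.pi_pos
          gcongr
  have h1 := hB A (fun a => 2 * Real.pi * ((a : ℝ) - (N + 1) / 2) / P) hne hy
  have hkP : k * N + U ≤ P := by
    have := Nat.mul_le_mul_right N hkL
    omega
  have h2 := fourier_ineq A N k U J P hA hkP (by omega) ((N + 1) / 2 : ℝ)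
  have h3 := total_le hk hr h U
  -- lower bound of the left side
  have h4 : ∑ j ∈ Icc (-(J : ℤ)) J, ((∑ a ∈ A, Real.cos (j * (2 * Real.pi *
      ((a : ℝ) - (N + 1) / 2) / P))) / n) ^ (2 * k) * ((n : ℝ) ^ (2 * k) * (U * (1 - κ)) ^ 2) ≤
      ∑ j ∈ Icc (-(J : ℤ)) J, (∑ a ∈ A, Real.cos (2 * Real.pi * j * (a - (N + 1) / 2) / P)) ^ (2 * k) *
      (∑ u ∈ range U, Real.cos (2 * Real.pi * j * u / P)) ^ 2 := by
    refine sum_le_sum fun j hj => ?_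
    rw [← mul_assoc, ← mul_pow, div_mul_cancel₀ _ hn'.ne']
    have e : ∀ a ∈ A, Real.cos (j * (2 * Real.pi * ((a : ℝ) - (N + 1) / 2) / P)) =
        Real.cos (2 * Real.pi * j * (a - (N + 1) / 2) / P) := by
      intro a _
      congr 1
      ring
    rw [sum_congr rfl e]
    refine mul_le_mul_of_nonneg_left ?_ ?_
    · refine pow_le_pow_left₀ ?_ (cos_sum_ge U P J hP0 j hj) 2
      exact mul_nonneg hU'.le (by linarith)
    · rw [pow_mul]; positivity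
  rw [← sum_mul] at h4
  have h5 : B * ((n : ℝ) ^ (2 * k) * (U * (1 - κ)) ^ 2) ≤
      P * ((∑ u ∈ range U, ∑ v ∈ range U, rep A k k ((v : ℤ) - u) : ℕ) : ℝ) := by
    refine le_trans (mul_le_mul_of_nonneg_right h1 ?_) (h4.trans h2)
    positivity
  have h6 : ((∑ u ∈ range U, ∑ v ∈ range U, rep A k k ((v : ℤ) - u) : ℕ) : ℝ) ≤
      (U : ℝ) ^ 2 * ((n : ℝ) ^ (2 * k - r) * ((k.factorial * (r - k).factorial : ℕ) : ℝ)) +
        (k : ℝ) ^ 2 * (n : ℝ) ^ (2 * k - 1) * U := by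
    exact_mod_cast h3
  have h7 := h5.trans (mul_le_mul_of_nonneg_left h6 hP'.le)
  have h8 : (0 : ℝ) < (n : ℝ) ^ (2 * k) * (U : ℝ) ^ 2 := by positivity
  rw [← mul_le_mul_iff_of_pos_right h8]
  have e1 : (n : ℝ) ^ (2 * k) = (n : ℝ) ^ (2 * k - r) * (n : ℝ) ^ r := by
    rw [← pow_add]; congr 1; omega
  have e2 : (n : ℝ) ^ (2 * k) = (n : ℝ) ^ (2 * k - 1) * n := by
    rw [← pow_succ]; congr 1; omega
  calc B * (1 - κ) ^ 2 * ((n : ℝ) ^ (2 * k) * (U : ℝ) ^ 2)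
      = B * ((n : ℝ) ^ (2 * k) * (U * (1 - κ)) ^ 2) := by ring
    _ ≤ _ := h7
    _ = (P : ℝ) * (((k.factorial * (r - k).factorial : ℕ) : ℝ) / (n : ℝ) ^ r *
          ((n : ℝ) ^ (2 * k - r) * (n : ℝ) ^ r * (U : ℝ) ^ 2) +
          (k : ℝ) ^ 2 / (n * U) * ((n : ℝ) ^ (2 * k - 1) * n * (U : ℝ) ^ 2)) := by
        field_simp
    _ = (P : ℝ) * (((k.factorial * (r - k).factorial : ℕ) : ℝ) / (n : ℝ) ^ r *
          ((n : ℝ) ^ (2 * k) * (U : ℝ) ^ 2) +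
          (k : ℝ) ^ 2 / (n * U) * ((n : ℝ) ^ (2 * k) * (U : ℝ) ^ 2)) := by
        rw [← e1, ← e2]
    _ = _ := by ring

/-- **Main reduction.** -/
theorem card_le_period (k r J L : ℕ) (hk : 1 ≤ k) (hkL : k ≤ L) (hr : r = 2 * k ∨ (r = 2 * k - 1 ∧ 2 ≤ k))
    (B : ℝ) (hB0 : 0 < B) (hB : ∀ (s : Finset ℕ) (y : ℕ → ℝ), s.Nonempty →
      (∀ a ∈ s, |y a| ≤ Real.pi / L) →
      B ≤ ∑ j ∈ Icc (-(J : ℤ)) J, ((∑ a ∈ s, Real.cos (j * y a)) / s.card) ^ (2 * k))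
    (C : ℝ) (hC : L * (k.factorial * (r - k).factorial : ℕ) < C * B) :
    ∀ᶠ N : ℕ in atTop, ∀ A : Finset ℕ, A ⊆ Icc 1 N → DistinctSums r A →
      (A.card : ℝ) ^ r ≤ C * N := by
  set F : ℝ := ((k.factorial * (r - k).factorial : ℕ) : ℝ) with hF
  have hF0 : 0 < F := by
    rw [hF]
    exact_mod_cast Nat.mul_pos (Nat.factorial_pos _) (Nat.factorial_pos _)
  have hk' : (0 : ℝ) < L := by exact_mod_cast (lt_of_lt_of_le hk hkL)
  have hC0 : 0 < C := by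
    by_contra hc
    push Not at hc
    have : C * B ≤ 0 := mul_nonpos_of_nonpos_of_nonneg hc hB0.le
    have : 0 < (L : ℝ) * F := by positivity
    linarith
  have hr1 : 1 ≤ r := by omega
  -- choice of eta
  have hcont : ContinuousAt (fun η : ℝ => B * (1 - 8 * Real.pi ^ 2 * J ^ 2 * η ^ 2 / L ^ 2) ^ 2 -
      (L + 2 * η) * F / C) 0 := by
    fun_prop
  have hpos : (0 : ℝ) < B * (1 - 8 * Real.pi ^ 2 * J ^ 2 * (0 : ℝ) ^ 2 / L ^ 2) ^ 2 -
      (L + 2 * 0) * F / C := by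
    have : (L : ℝ) * F / C < B := by
      rw [div_lt_iff₀ hC0]; linarith
    simp
    linarith
  have hev1 := hcont.eventually (lt_mem_nhds hpos)
  have hcont2 : ContinuousAt (fun η : ℝ => 8 * Real.pi ^ 2 * J ^ 2 * η ^ 2 / L ^ 2) 0 := by
    fun_prop
  have hpos2 : 8 * Real.pi ^ 2 * J ^ 2 * (0 : ℝ) ^ 2 / L ^ 2 < 1 := by simp
  have hev2 := hcont2.eventually (gt_mem_nhds hpos2)
  have hev3 : ∀ᶠ η : ℝ in nhdsWithin 0 (Set.Ioi 0),
      (0 < B * (1 - 8 * Real.pi ^ 2 * J ^ 2 * η ^ 2 / L ^ 2) ^ 2 - (L + 2 * η) * F / C ∧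
      8 * Real.pi ^ 2 * J ^ 2 * η ^ 2 / L ^ 2 < 1) := nhdsWithin_le_nhds (hev1.and hev2)
  obtain ⟨η, ⟨hη1, hη2⟩, hη0⟩ := (hev3.and (self_mem_nhdsWithin :
    ∀ᶠ η : ℝ in nhdsWithin 0 (Set.Ioi 0), η ∈ Set.Ioi (0 : ℝ))).exists
  set δ := B * (1 - 8 * Real.pi ^ 2 * J ^ 2 * η ^ 2 / L ^ 2) ^ 2 - (L + 2 * η) * F / C with hδ
  -- choice of the size bound
  obtain ⟨K, hK⟩ := exists_nat_gt ((L / η + 1) * k ^ 2 / δ)
  obtain ⟨N₁, hN₁⟩ := exists_nat_gt (1 / η)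
  obtain ⟨N₂, hN₂⟩ := exists_nat_gt ((K : ℝ) ^ r / C)
  filter_upwards [eventually_ge_atTop (max (max N₁ N₂) (2 * J + 1))] with N hN A hA hD
  have hNa : N₁ ≤ N := le_trans (le_trans (le_max_left _ _) (le_max_left _ _)) hN
  have hNb : N₂ ≤ N := le_trans (le_trans (le_max_right _ _) (le_max_left _ _)) hN
  have hNc : 2 * J + 1 ≤ N := le_trans (le_max_right _ _) hN
  have hN0 : (0 : ℝ) < N := by
    have : 0 < N := by omega
    exact_mod_cast this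
  by_contra hcon
  push Not at hcon
  -- the size is large
  have hnK : K < A.card := by
    by_contra hc
    push Not at hc
    have h1 : (A.card : ℝ) ^ r ≤ (K : ℝ) ^ r := by
      have : (A.card : ℝ) ≤ K := by exact_mod_cast hc
      gcongr
    have h2 : (K : ℝ) ^ r < C * N := by
      have h3 : (K : ℝ) ^ r / C < N := lt_of_lt_of_le hN₂ (by exact_mod_cast hNb)
      rw [div_lt_iff₀ hC0] at h3
      linarith
    linarith
  have hn0 : 0 < A.card := by omega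
  have hn' : (0 : ℝ) < A.card := by exact_mod_cast hn0
  set U := ⌈η * N⌉₊ with hUdef
  have hU1 : η * N ≤ U := Nat.le_ceil _
  have hU2 : (U : ℝ) ≤ 2 * (η * N) := by
    have h1 : (U : ℝ) < η * N + 1 := Nat.ceil_lt_add_one (by positivity)
    have h2 : 1 ≤ η * N := by
      have : 1 / η < N := lt_of_lt_of_le hN₁ (by exact_mod_cast hNa)
      rw [div_lt_iff₀ hη0] at this
      linarith
    linarith
  have hUpos : 0 < U := Nat.ceil_pos.mpr (by positivity)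
  have hU' : (0 : ℝ) < U := by exact_mod_cast hUpos
  have hPge : (L : ℝ) * N ≤ ((L * N + U : ℕ) : ℝ) := by
    push_cast; linarith
  have hPpos : (0 : ℝ) < ((L * N + U : ℕ) : ℝ) := lt_of_lt_of_le (by positivity) hPge
  have hκ : 2 * Real.pi ^ 2 * J ^ 2 * U ^ 2 / ((L * N + U : ℕ) : ℝ) ^ 2 ≤
      8 * Real.pi ^ 2 * J ^ 2 * η ^ 2 / L ^ 2 := by
    calc 2 * Real.pi ^ 2 * J ^ 2 * U ^ 2 / ((L * N + U : ℕ) : ℝ) ^ 2
        ≤ 2 * Real.pi ^ 2 * J ^ 2 * (2 * (η * N)) ^ 2 / (L * N) ^ 2 := by gcongr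
      _ = 8 * Real.pi ^ 2 * J ^ 2 * η ^ 2 / L ^ 2 := by
          field_simp
          ring
  have hfin := finite_ineq_period (J := J) hk hkL hr hD hA hUpos
    (by nlinarith [Nat.mul_le_mul (hk.trans hkL) (le_refl N)]) hn0
    (hκ.trans hη2.le) B hB
  -- left side
  have hl : B * (1 - 8 * Real.pi ^ 2 * J ^ 2 * η ^ 2 / L ^ 2) ^ 2 ≤
      B * (1 - 2 * Real.pi ^ 2 * J ^ 2 * U ^ 2 / ((L * N + U : ℕ) : ℝ) ^ 2) ^ 2 := by
    have : 0 ≤ 1 - 8 * Real.pi ^ 2 * J ^ 2 * η ^ 2 / L ^ 2 := by linarith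
    gcongr
  -- right side
  have hr1' : ((L * N + U : ℕ) : ℝ) * (F / (A.card : ℝ) ^ r) ≤ (L + 2 * η) * F / C := by
    have h1 : F / (A.card : ℝ) ^ r ≤ F / (C * N) := by
      gcongr
    have h2 : ((L * N + U : ℕ) : ℝ) ≤ (L + 2 * η) * N := by
      push_cast
      have e : ((L : ℝ) + 2 * η) * N = L * N + 2 * (η * N) := by ring
      rw [e]
      linarith
    calc ((L * N + U : ℕ) : ℝ) * (F / (A.card : ℝ) ^ r) ≤ ((L + 2 * η) * N) * (F / (C * N)) := by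
          gcongr
      _ = (L + 2 * η) * F / C := by
          field_simp
  have hr2' : ((L * N + U : ℕ) : ℝ) * ((k : ℝ) ^ 2 / (A.card * U)) < δ := by
    have h1 : ((L * N + U : ℕ) : ℝ) ≤ (L / η + 1) * U := by
      push_cast
      have : (L : ℝ) * N ≤ L / η * U := by
        rw [div_mul_eq_mul_div, le_div_iff₀ hη0]
        have h0 : (0 : ℝ) ≤ L := hk'.le
        calc (L : ℝ) * N * η = L * (η * N) := by ring
          _ ≤ L * U := mul_le_mul_of_nonneg_left hU1 h0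
      linarith
    have h2 : (L / η + 1) * k ^ 2 / δ < A.card :=
      hK.trans (by exact_mod_cast hnK)
    rw [div_lt_iff₀ (by exact hη1)] at h2
    calc ((L * N + U : ℕ) : ℝ) * ((k : ℝ) ^ 2 / (A.card * U))
        ≤ ((L / η + 1) * U) * ((k : ℝ) ^ 2 / (A.card * U)) := by gcongr
      _ = (L / η + 1) * k ^ 2 / A.card := by field_simp
      _ < δ := by
          rw [div_lt_iff₀ hn']
          linarith
  have : B * (1 - 8 * Real.pi ^ 2 * J ^ 2 * η ^ 2 / L ^ 2) ^ 2 <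
      B * (1 - 8 * Real.pi ^ 2 * J ^ 2 * η ^ 2 / L ^ 2) ^ 2 := by
    calc _ ≤ _ := hl
      _ ≤ _ := hfin
      _ = ((L * N + U : ℕ) : ℝ) * (F / (A.card : ℝ) ^ r) +
          ((L * N + U : ℕ) : ℝ) * ((k : ℝ) ^ 2 / (A.card * U)) := by ring
      _ < (L + 2 * η) * F / C + δ := by linarith
      _ = _ := by rw [hδ]; ring
  exact lt_irrefl _ this

/-- **Main reduction** for `f_r(N)`. -/
theorem maxSize_le_period (k r J L : ℕ) (hk : 1 ≤ k) (hkL : k ≤ L) (hr : r = 2 * k ∨ (r = 2 * k - 1 ∧ 2 ≤ k))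
    (B : ℝ) (hB0 : 0 < B) (hB : ∀ (s : Finset ℕ) (y : ℕ → ℝ), s.Nonempty →
      (∀ a ∈ s, |y a| ≤ Real.pi / L) →
      B ≤ ∑ j ∈ Icc (-(J : ℤ)) J, ((∑ a ∈ s, Real.cos (j * y a)) / s.card) ^ (2 * k))
    (C : ℝ) (hC : L * (k.factorial * (r - k).factorial : ℕ) < C * B) :
    ∀ᶠ N : ℕ in atTop, (maxSize r N : ℝ) ^ r ≤ C * N := by
  filter_upwards [card_le_period k r J L hk hkL hr B hB0 hB C hC] with N hN
  obtain ⟨A, hA, hD, hc⟩ := exists_maxSize r N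
  rw [← hc]
  exact hN A hA hD

end Pool.Agent.H318.Br
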